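import Mathlib
import Pool.Agent.N122.Chord

/-! # Chords and conics through a point of odd degree: the general step -/

set_option autoImplicit false

namespace Pool.Agent.K9h4

open MvPolynomial Pool.Agent.TH314.PD Module Pool.Agent.Y201.C3 IntermediateField
open Pool.Agent.R845.T2 Pool.Agent.R845.E3 Pool.Agent.N122

noncomputable section

/-- the point is generic in projective space -/
def Gen {N : ℕ} {E : Type} [Field E] [Algebra ℂ E] (y : Fin N → E) : Prop :=
  ∀ (e : ℕ) (H : MvPolynomial (Fin N) ℂ), H.IsHomogeneous e → aeval y H = 0 → H = 0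

theorem gen_ne {N : ℕ} {E : Type} [Field E] [Algebra ℂ E] {y : Fin N → E} (hy : Gen y)
    (i : Fin N) : y i ≠ 0 := fun h =>
  X_ne_zero i (hy 1 (X i) (isHomogeneous_X _ _) (by rw [aeval_X, h]))

/-- the generic point of the line through `x` and `c` -/
def gl {N : ℕ} {M : Type} [Field M] [Algebra ℂ M] (x c : Fin N → M) :
    Fin N → FractionRing (Polynomial M) := fun j =>
  algebraMap (Polynomial M) (FractionRing (Polynomial M))
    (Polynomial.C (x j) + Polynomial.X * Polynomial.C (c j))

/-- the generic point of the line through `x` and `c` is generic in projective space and of odd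
degree -/
def Special {N : ℕ} {M : Type} [Field M] [Algebra ℂ M] (x c : Fin N → M) : Prop :=
  Gen (gl x c) ∧ Odd (finrank (ratioField (gl x c)) (FractionRing (Polynomial M)))

theorem gscale {N : ℕ} {F : MvPolynomial (Fin N) ℂ} (hF : F.IsHomogeneous 3)
    {M : Type} [Field M] [Algebra ℂ M] (v : Fin N → M) (b : M) (hb : b ≠ 0)
    (h1 : Gp F v) (h2 : Odd (finrank (ratioField v) M)) :
    Gp F (fun j => b * v j) ∧ Odd (finrank (ratioField fun j => b * v j) M) := by
  refine ⟨⟨by rw [aeval_smul_form hF, h1.1, mul_zero], fun e H hH h0 => ?_⟩, ?_⟩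
  · rw [aeval_smul_form hH] at h0
    exact h1.2 e H hH ((mul_eq_zero.1 h0).resolve_left (pow_ne_zero _ hb))
  · have h3 : (fun j => (b * v j) / b) = v := by
      funext j
      rw [mul_div_cancel_left₀ _ hb]
    have h4 := Pool.Agent.Y929.LI.ratioField_div (fun j => b * v j) hb
    rw [h3] at h4
    rw [← h4]
    exact h2

variable {n : ℕ} {F : MvPolynomial (Fin (n + 2)) ℂ} {M : Type} [Field M] [Algebra ℂ M]

/-- values of the cubic on a line -/
theorem eval_line {N : ℕ} {F : MvPolynomial (Fin N) ℂ} (x c : Fin N → M) (τ : M) :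
    Polynomial.eval τ (aeval (fun j => Polynomial.C (x j) +
        Polynomial.X * Polynomial.C (c j)) F) = aeval (fun j => x j + τ * c j) F := by
  have h3 := comp_aeval_apply (f := fun j => Polynomial.C (x j) +
    Polynomial.X * Polynomial.C (c j)) ((Polynomial.aeval (R := M) τ).restrictScalars ℂ) F
  have h4 : ((Polynomial.aeval (R := M) τ).restrictScalars ℂ) (aeval (fun j =>
      Polynomial.C (x j) + Polynomial.X * Polynomial.C (c j)) F) =
      Polynomial.eval τ (aeval (fun j => Polynomial.C (x j) +
        Polynomial.X * Polynomial.C (c j)) F) := by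
    rw [AlgHom.restrictScalars_apply, Polynomial.coe_aeval_eq_eval]
  rw [← h4, h3]
  congr 2
  funext j
  rw [AlgHom.restrictScalars_apply, Polynomial.coe_aeval_eq_eval]
  rw [Polynomial.eval_add, Polynomial.eval_mul, Polynomial.eval_C, Polynomial.eval_C,
    Polynomial.eval_X]

/-- the line through a point of odd degree is not tangent at its second point -/
theorem coef_ne (hF : F.IsHomogeneous 3) (hsm : Sm F) {T : Fin (n + 2) → Fin (n + 2) →
    Fin (n + 2) → ℂ} (hT : SymG T) (hFT : F = Bg T X X X) (x c : Fin (n + 2) → M)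
    (hG : Gp F x) (hodd : Odd (finrank (ratioField x) M))
    (hxc : LinearIndependent M ![x, c]) (hcF : aeval c F = 0) : Bg T x c c ≠ 0 := by
  have tan : S_TAN := tan_of div (nt Pool.Agent.Y201.LI.hT1) fi fd
  have hodd2 : ¬ 2 ∣ finrank (ratioField x) M := fun h =>
    (Nat.not_even_iff_odd.2 hodd) (even_iff_two_dvd.2 h)
  have hline := line_shape hT hFT x c hG.1 hcF
  intro h0
  rw [h0, mul_zero, Polynomial.C_0, zero_mul, add_zero] at hline
  exact hodd2 (tan (n + 1) 3 F hF (by norm_num) hsm M x c _ hxc hG.1 hG.2 hline)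

/-- **Chords: the general step.** -/
theorem chord_of (hF : F.IsHomogeneous 3) (hsm : Sm F) (x c : Fin (n + 2) → M)
    (hG : Gp F x) (hodd : Odd (finrank (ratioField x) M))
    (hxc : LinearIndependent M ![x, c]) (hpn : ¬ Gp F c) (hcF : aeval c F = 0)
    (hns : ¬ Special x c) (s t : M) (hs : s ≠ 0)
    (hst : aeval (fun j => s * x j + t * c j) F = 0) :
    Gp F (fun j => s * x j + t * c j) ∧
      Odd (finrank (ratioField fun j => s * x j + t * c j) M) := by
  classical
  obtain ⟨T, hT, hFT⟩ := exists_tri F hF
  set A := 3 * Bg T x x c with hA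
  set B := 3 * Bg T x c c with hB
  have hline := line_shape hT hFT x c hG.1 hcF
  rw [← hA, ← hB] at hline
  have h30 : (3 : M) ≠ 0 := by
    have h7 : algebraMap ℂ M 3 ≠ 0 := by
      rw [Ne, map_eq_zero]
      norm_num
    rwa [map_ofNat] at h7
  have hB0 : B ≠ 0 := mul_ne_zero h30 (coef_ne hF hsm hT hFT x c hG hodd hxc hcF)
  have hscale := fun v b hb h1 h2 => gscale hF (M := M) v b hb h1 h2
  -- the equation of the point
  have heq : t * (s * A + t * B) = 0 := by
    have h1 := congrArg (Polynomial.eval (t / s)) hline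
    rw [Polynomial.eval_add, Polynomial.eval_mul, Polynomial.eval_mul, Polynomial.eval_pow,
      Polynomial.eval_C, Polynomial.eval_C, Polynomial.eval_X, eval_line] at h1
    have h3 : (fun j => s * x j + t * c j) = fun j => s * (x j + t / s * c j) := by
      funext j
      field_simp
    rw [h3, aeval_smul_form hF, h1] at hst
    have h4 := (mul_eq_zero.1 hst).resolve_left (pow_ne_zero _ hs)
    field_simp at h4
    linear_combination h4
  rcases mul_eq_zero.1 heq with ht | hAB
  · have h1 : (fun j => s * x j + t * c j) = fun j => s * x j := by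
      funext j
      rw [ht, zero_mul, add_zero]
    rw [h1]
    exact hscale x s hs hG hodd
  have h1 : (fun j => s * x j + t * c j) = fun j => (s / B) * (B * x j - A * c j) := by
    funext j
    field_simp
    linear_combination c j * hAB
  rw [h1]
  have hsB : s / B ≠ 0 := div_ne_zero hs hB0
  by_cases hA0 : A = 0
  · have h2 : (fun j => (s / B) * (B * x j - A * c j)) = fun j => s * x j := by
      funext j
      rw [hA0, zero_mul, sub_zero]
      field_simp
    rw [h2]
    exact hscale x s hs hG hodd
  by_cases hy : Gp F (fun j => B * x j - A * c j) ∧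
      Odd (finrank (ratioField fun j => B * x j - A * c j) M)
  · exact hscale _ _ hsB hy.1 hy.2
  exfalso
  obtain ⟨hygen, hyodd⟩ := p3 (n + 1) F hF hsm M x c A B hxc hG hodd hpn hA0 hB0 hline
    (by
      intro h2
      by_contra h3
      apply hy
      refine ⟨h2, ?_⟩
      rw [← Nat.not_even_iff_odd, even_iff_two_dvd]
      exact h3)
  exact hns ⟨hygen, hyodd⟩

theorem coeffs_zero' [Infinite M] (c : Fin 7 → M)
    (h : ∀ t : M, ∑ i, c i * t ^ (i : ℕ) = 0) : ∀ i, c i = 0 := by
  let p : Polynomial M := ∑ i : Fin 7, Polynomial.C (c i) * Polynomial.X ^ (i : ℕ)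
  have hp0 : p = 0 := by
    apply Polynomial.funext
    intro t
    rw [Polynomial.eval_finsetSum, Polynomial.eval_zero, ← h t]
    refine Finset.sum_congr rfl fun i _ => ?_
    rw [Polynomial.eval_mul, Polynomial.eval_C, Polynomial.eval_pow, Polynomial.eval_X]
  intro i
  have h1 : p.coeff i = c i := by
    rw [Polynomial.finsetSum_coeff]
    simp only [Polynomial.coeff_C_mul, Polynomial.coeff_X_pow]
    rw [Finset.sum_eq_single i]
    · simp
    · intro j _ hj
      rw [if_neg, mul_zero]
      intro h2
      exact hj (Fin.ext h2.symm)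
    · intro h2
      exact absurd (Finset.mem_univ i) h2
  rw [← h1, hp0, Polynomial.coeff_zero]

/-- **Conics: the general step.** -/
theorem conic_of (hF : F.IsHomogeneous 3) (hsm : Sm F) (x a β : Fin (n + 2) → M)
    (hG : Gp F x) (hodd : Odd (finrank (ratioField x) M))
    (hxa : LinearIndependent M ![x, a]) (hpn : ¬ Gp F a) (haF : aeval a F = 0)
    (hns : ¬ Special x a)
    (h : ∀ t : M, aeval (fun j => t ^ 2 * a j + t * β j + x j) F = 0) : False := by
  classical
  have : CharZero M := charZero_of_injective_algebraMap (algebraMap ℂ M).injective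
  obtain ⟨T, hT, hFT⟩ := exists_tri F hF
  have hev : ∀ {R : Type} [CommRing R] [Algebra ℂ R] (v : Fin (n + 2) → R),
      aeval v F = Bg T v v v := by
    intro R _ _ v
    conv_lhs => rw [hFT]
    exact aeval_frmG T v
  have hodd2 : ¬ 2 ∣ finrank (ratioField x) M := fun h =>
    (Nat.not_even_iff_odd.2 hodd) (even_iff_two_dvd.2 h)
  have hB := coef_ne hF hsm hT hFT x a hG hodd hxa haF
  set e210 := Bg T a a β with h210
  set e201 := Bg T a a x with h201
  set e120 := Bg T a β β with h120
  set e111 := Bg T a β x with h111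
  set e102 := Bg T a x x with h102
  set e030 := Bg T β β β with h030
  set e021 := Bg T β β x with h021
  set e012 := Bg T β x x with h012
  have h300 : Bg T a a a = 0 := by rw [← hev, haF]
  have h003 : Bg T x x x = 0 := by rw [← hev, hG.1]
  have hB' : e201 ≠ 0 := by
    intro h0
    apply hB
    rw [Bg_swap12 hT, Bg_swap23 hT, ← h201, h0]
  have hz := coeffs_zero' (M := M) ![0, 3 * e012, 3 * e102 + 3 * e021, 6 * e111 + e030,
    3 * e201 + 3 * e120, 3 * e210, 0] (by
      intro t
      have h1 := Bg_span3 hT a β x (t ^ 2) t (1 : M)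
      have h2 : (fun i => t ^ 2 * a i + t * β i + 1 * x i) =
          fun i => t ^ 2 * a i + t * β i + x i := by
        funext i
        ring
      rw [h2, ← hev, h t, h300, h003] at h1
      simp only [Fin.sum_univ_succ, Fin.sum_univ_zero]
      simp
      linear_combination -h1)
  have z1 : 3 * e012 = 0 := hz 1
  have z2 : 3 * e102 + 3 * e021 = 0 := hz 2
  have z3 : 6 * e111 + e030 = 0 := hz 3
  have z4 : 3 * e201 + 3 * e120 = 0 := hz 4
  have z5 : 3 * e210 = 0 := hz 5
  -- the residual line
  have hres : ∀ {R : Type} [CommRing R] [Algebra M R] [Algebra ℂ R] [IsScalarTower ℂ M R]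
      (ξ η ζ : R), aeval (fun i => ξ * algebraMap M R (a i) + η * algebraMap M R (β i) +
        ζ * algebraMap M R (x i)) F = 3 * (ξ * ζ - η ^ 2) * (ξ * algebraMap M R e201 +
          2 * η * algebraMap M R e111 + ζ * algebraMap M R e102) := by
    intro R _ _ _ _ ξ η ζ
    have hφ : ∀ u v w : Fin (n + 2) → M, Bg T (fun i => algebraMap M R (u i))
        (fun i => algebraMap M R (v i)) (fun i => algebraMap M R (w i)) =
        algebraMap M R (Bg T u v w) := fun u v w =>
      (map_Bg (IsScalarTower.toAlgHom ℂ M R) T u v w).symm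
    rw [hev, Bg_span3 hT, hφ, hφ, hφ, hφ, hφ, hφ, hφ, hφ, hφ, hφ, h300, h003, ← h210, ← h201,
      ← h120, ← h111, ← h102, ← h030, ← h021, ← h012]
    have c1 := congrArg (algebraMap M R) z1
    have c2 := congrArg (algebraMap M R) z2
    have c3 := congrArg (algebraMap M R) z3
    have c4 := congrArg (algebraMap M R) z4
    have c5 := congrArg (algebraMap M R) z5
    simp only [map_add, map_mul, map_zero, map_ofNat] at c1 c2 c3 c4 c5 ⊢
    linear_combination ζ ^ 2 * η * c1 + η ^ 2 * ζ * c2 + η ^ 3 * c3 + ξ * η ^ 2 * c4 +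
      ξ ^ 2 * η * c5
  -- the third point
  obtain ⟨hzG, hzodd⟩ := chord_of hF hsm x a hG hodd hxa hpn haF hns e201 (-e102) hB' (by
    have h1 := hres (R := M) (-e102) 0 e201
    simp only [Algebra.algebraMap_self, RingHom.id_apply] at h1
    have h2 : (fun j => e201 * x j + -e102 * a j) =
        fun i => -e102 * a i + 0 * β i + e201 * x i := by
      funext i
      ring
    rw [h2, h1]
    ring)
  set z : Fin (n + 2) → M := fun j => e201 * x j + -e102 * a j with hz
  set v : Fin (n + 2) → M := fun j => e201 * β j - 2 * e111 * a j with hv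
  have hzodd2 : ¬ 2 ∣ finrank (ratioField z) M := fun h =>
    (Nat.not_even_iff_odd.2 hzodd) (even_iff_two_dvd.2 h)
  by_cases hzv : LinearIndependent M ![z, v]
  · refine hzodd2 (Pool.Agent.Y201.LI.contact (r := n + 1) hF (by norm_num) hsm z hzG.1 hzG.2 v
      hzv 0 ?_)
    rw [Polynomial.C_0, zero_mul]
    have h1 := hres (R := Polynomial M) (Polynomial.C (-e102) - Polynomial.X * Polynomial.C
      (2 * e111)) (Polynomial.X * Polynomial.C e201) (Polynomial.C e201)
    have h2 : (fun j => Polynomial.C (z j) + Polynomial.X * Polynomial.C (v j)) =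
        fun i => (Polynomial.C (-e102) - Polynomial.X * Polynomial.C (2 * e111)) *
          algebraMap M (Polynomial M) (a i) + (Polynomial.X * Polynomial.C e201) *
          algebraMap M (Polynomial M) (β i) + Polynomial.C e201 *
          algebraMap M (Polynomial M) (x i) := by
      funext i
      rw [hz, hv]
      simp only [← Polynomial.C_eq_algebraMap, map_add, map_mul, map_neg, map_sub]
      ring
    rw [h2, h1]
    simp only [Polynomial.algebraMap_eq, map_neg, map_mul, Polynomial.C_ofNat]
    ring
  -- the degenerate case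
  rw [LinearIndependent.pair_iff] at hzv
  push Not at hzv
  obtain ⟨u, w, huw, hne⟩ := hzv
  have hw : w ≠ 0 := by
    rintro rfl
    have hu : u ≠ 0 := fun hu => hne hu rfl
    rw [zero_smul, add_zero] at huw
    have hz0 : z = 0 := (smul_eq_zero.1 huw).resolve_left hu
    rw [LinearIndependent.pair_iff] at hxa
    have h1 := (hxa e201 (-e102) (by
      funext j
      have := congrFun hz0 j
      simpa [hz] using this)).1
    exact hB' h1
  have hβ : ∀ j, β j = (-(u / w)) * x j + ((u / w) * (e102 / e201) + 2 * e111 / e201) * a j := by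
    intro j
    have h1 := congrFun huw j
    simp only [Pi.add_apply, Pi.smul_apply, smul_eq_mul, Pi.zero_apply, hz, hv] at h1
    field_simp
    linear_combination h1
  generalize (u / w) * (e102 / e201) + 2 * e111 / e201 = ν at hβ
  generalize -(u / w) = μ at hβ
  have e3 : (3 : M) ≠ 0 := by norm_num
  have h5 : e210 = 0 := (mul_eq_zero.1 z5).resolve_left e3
  have hβ' : β = fun j => μ * x j + ν * a j := funext hβ
  have h6 : e210 = μ * e201 := by
    rw [h210, hβ', Bg_add3 T a a (fun j => μ * x j) (fun j => ν * a j), Bg_smul3, Bg_smul3, h300,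
      mul_zero, add_zero]
  have hμ : μ = 0 := by
    rw [h5] at h6
    exact (mul_eq_zero.1 h6.symm).resolve_right hB'
  have h7 : e120 = 0 := by
    have h8 : β = fun j => ν * a j := by
      rw [hβ', hμ]
      funext j
      ring
    rw [h120, h8, Bg_smul2, Bg_smul3, h300, mul_zero, mul_zero]
  rw [h7, mul_zero, add_zero] at z4
  exact hB' ((mul_eq_zero.1 z4).resolve_left e3)

end

end Pool.Agent.K9h4
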