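import Mathlib
import Pool.Agent.R845.Irr
import Pool.Agent.R845.E3.Desc
import Pool.Agent.K9h4.Chd

/-! # The homogeneous coordinate ring of a smooth cubic is normal: preparations -/

set_option autoImplicit false

namespace Pool.Agent.K9h4

open MvPolynomial Pool.Agent.R845.E3 Pool.Agent.R845.T2 Pool.Agent.TH314.PD

noncomputable section

section Kill

variable {σ : Type} [DecidableEq σ]

/-- setting one variable equal to zero -/
def kill (i : σ) : MvPolynomial σ ℂ →ₐ[ℂ] MvPolynomial σ ℂ :=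
  aeval (fun j => if j = i then 0 else X j)

theorem kill_X_self (i : σ) : kill i (X i) = 0 := by
  unfold kill
  rw [aeval_X, if_pos rfl]

theorem kill_X_ne {i j : σ} (h : j ≠ i) : kill i (X j) = X j := by
  unfold kill
  rw [aeval_X, if_neg h]

theorem kill_split (i : σ) (p : MvPolynomial σ ℂ) : ∃ q, p = kill i p + X i * q := by
  induction p using MvPolynomial.induction_on with
  | C a => exact ⟨0, by rw [← algebraMap_eq, AlgHom.commutes, mul_zero, add_zero]⟩
  | add p q hp hq =>
    obtain ⟨p', hp'⟩ := hp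
    obtain ⟨q', hq'⟩ := hq
    refine ⟨p' + q', ?_⟩
    conv_lhs => rw [hp', hq']
    rw [map_add]
    ring
  | mul_X p j hp =>
    obtain ⟨p', hp'⟩ := hp
    by_cases hj : j = i
    · subst hj
      refine ⟨p, ?_⟩
      rw [map_mul, kill_X_self]
      ring
    · refine ⟨p' * X j, ?_⟩
      conv_lhs => rw [hp']
      rw [map_mul, kill_X_ne hj]
      ring

theorem kill_eq_zero_iff (i : σ) (p : MvPolynomial σ ℂ) : kill i p = 0 ↔ X i ∣ p := by
  constructor
  · intro h
    obtain ⟨q, hq⟩ := kill_split i p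
    exact ⟨q, by rw [h, zero_add] at hq; exact hq⟩
  · rintro ⟨q, rfl⟩
    rw [map_mul, kill_X_self, zero_mul]

theorem coeff_kill (i : σ) (p : MvPolynomial σ ℂ) (α : σ →₀ ℕ) (hα : α i = 0) :
    coeff α (kill i p) = coeff α p := by
  obtain ⟨q, hq⟩ := kill_split i p
  conv_rhs => rw [hq]
  rw [coeff_add, coeff_X_mul', if_neg (by rw [Finsupp.mem_support_iff]; exact not_not.2 hα),
    add_zero]

end Kill

/-- a cubic form in at least five variables does not vanish on some coordinate subspace of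
codimension two -/
theorem exists_pair {N : ℕ} (hN : 5 ≤ N) {F : MvPolynomial (Fin N) ℂ} (hF : F.IsHomogeneous 3)
    (hF0 : F ≠ 0) : ∃ i j : Fin N, i ≠ j ∧ kill j (kill i F) ≠ 0 := by
  classical
  obtain ⟨α, hα⟩ := ne_zero_iff.1 hF0
  have h3 : α.degree = 3 := by
    by_contra h
    exact hα (hF.coeff_eq_zero h)
  have hcard : α.support.card ≤ 3 := by
    rw [← h3, Finsupp.degree]
    calc α.support.card = ∑ i ∈ α.support, 1 := by simp
      _ ≤ ∑ i ∈ α.support, α i := Finset.sum_le_sum fun i hi =>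
        Nat.one_le_iff_ne_zero.2 (Finsupp.mem_support_iff.1 hi)
  have h1 : 1 < (α.supportᶜ).card := by
    rw [Finset.card_compl, Fintype.card_fin]
    omega
  obtain ⟨i, hi, j, hj, hij⟩ := Finset.one_lt_card.1 h1
  rw [Finset.mem_compl, Finsupp.mem_support_iff, not_not] at hi hj
  refine ⟨i, j, hij, fun h => hα ?_⟩
  rw [← coeff_kill i F α hi, ← coeff_kill j _ α hj, h, coeff_zero]

section Ring

variable {N : ℕ} {F : MvPolynomial (Fin N) ℂ} {S : Type} [CommRing S] [IsDomain S] [Algebra ℂ S]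
  {K : Type} [Field K] [Algebra S K] [IsFractionRing S K]

theorem var_ne (hF : F.IsHomogeneous 3) (x : Fin N → S)
    (hker : ∀ H : MvPolynomial (Fin N) ℂ, aeval x H = 0 → F ∣ H) (i : Fin N) : x i ≠ 0 := by
  intro h
  obtain ⟨Q, hQ⟩ := hker (X i) (by rw [aeval_X, h])
  obtain ⟨h1, -⟩ := exists_form_quot hF (isHomogeneous_X ℂ i) hQ (X_ne_zero i)
  omega

/-- elements multiplied into the ring by all variables belong to the ring -/
theorem depth_two (hN : 5 ≤ N) (hF : F.IsHomogeneous 3) (hF0 : F ≠ 0) (x : Fin N → S)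
    (hsurj : Function.Surjective (aeval x : MvPolynomial (Fin N) ℂ →ₐ[ℂ] S))
    (hFx : aeval x F = 0)
    (hker : ∀ H : MvPolynomial (Fin N) ℂ, aeval x H = 0 → F ∣ H)
    (α : K) (hα : ∀ i, ∃ s : S, algebraMap S K (x i) * α = algebraMap S K s) :
    ∃ s : S, algebraMap S K s = α := by
  classical
  obtain ⟨i, j, hij, hne⟩ := exists_pair hN hF hF0
  obtain ⟨a, ha⟩ := hα i
  obtain ⟨b, hb⟩ := hα j
  obtain ⟨A, rfl⟩ := hsurj a
  obtain ⟨B, rfl⟩ := hsurj b
  have h1 : x j * aeval x A = x i * aeval x B := by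
    apply IsFractionRing.injective S K
    rw [map_mul, map_mul, ← ha, ← hb]
    ring
  obtain ⟨h, hh⟩ := hker (X j * A - X i * B) (by
    rw [map_sub, map_mul, map_mul, aeval_X, aeval_X, h1, sub_self])
  -- the value of `h` at `X i = 0` is divisible by `X j`
  have h2 := congrArg (kill i) hh
  rw [map_sub, map_mul, map_mul, map_mul, kill_X_self, zero_mul, sub_zero,
    kill_X_ne hij.symm] at h2
  have h3 := congrArg (kill j) h2
  rw [map_mul, map_mul, kill_X_self, zero_mul] at h3
  obtain ⟨h4, hh4⟩ := (kill_eq_zero_iff j (kill i h)).1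
    ((mul_eq_zero.1 h3.symm).resolve_left hne)
  obtain ⟨h5, hh5⟩ := kill_split i h
  have h6 : X j * (A - F * h4) = X i * (B + F * h5) := by
    rw [hh4] at hh5
    rw [hh5] at hh
    linear_combination hh
  have h7 := congrArg (kill i) h6
  rw [map_mul, map_mul, kill_X_self, zero_mul, kill_X_ne hij.symm] at h7
  obtain ⟨A', hA'⟩ := (kill_eq_zero_iff i (A - F * h4)).1
    ((mul_eq_zero.1 h7).resolve_left (X_ne_zero j))
  have h8 : aeval x A = x i * aeval x A' := by
    have h9 := congrArg (aeval x) hA'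
    rw [map_sub, map_mul, map_mul, hFx, zero_mul, sub_zero, aeval_X] at h9
    exact h9
  refine ⟨aeval x A', ?_⟩
  have hxi : algebraMap S K (x i) ≠ 0 := by
    rw [Ne, ← map_zero (algebraMap S K), (IsFractionRing.injective S K).eq_iff]
    exact var_ne hF x hker i
  apply mul_left_cancel₀ hxi
  rw [ha, h8, map_mul]

end Ring

/-- complex points of systems of equations with a solution in some field -/
theorem exists_spec {N : ℕ} {κ : Type} [Field κ] [Algebra ℂ κ] (y : Fin N → κ) (i : Fin N)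
    (hi : y i ≠ 0) : ∃ z : Fin N → ℂ, z i ≠ 0 ∧
      ∀ H : MvPolynomial (Fin N) ℂ, aeval y H = 0 → eval z H = 0 := by
  classical
  let Z : Finset κ := insert (y i)⁻¹ (Finset.univ.image y)
  let A := Algebra.adjoin ℂ (Z : Set κ)
  have hyA : ∀ j, y j ∈ A := fun j => Algebra.subset_adjoin (by
    simp only [Z, Finset.coe_insert, Set.mem_insert_iff, Finset.mem_coe, Finset.mem_image,
      Finset.mem_univ, true_and]
    exact Or.inr ⟨j, rfl⟩)
  have hwA : (y i)⁻¹ ∈ A := Algebra.subset_adjoin (by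
    simp only [Z, Finset.coe_insert, Set.mem_insert_iff]
    exact Or.inl trivial)
  have hft : Algebra.FiniteType ℂ A := (Subalgebra.fg_iff_finiteType A).1 ⟨Z, rfl⟩
  obtain ⟨ψ⟩ := exists_point A
  let y₁ : Fin N → A := fun j => ⟨y j, hyA j⟩
  have h1 : y₁ i * ⟨(y i)⁻¹, hwA⟩ = 1 := Subtype.ext (mul_inv_cancel₀ hi)
  refine ⟨fun j => ψ (y₁ j), fun h0 => ?_, fun H hH => ?_⟩
  · have h2 := congrArg ψ h1
    rw [map_mul, map_one] at h2
    change ψ (y₁ i) = 0 at h0
    rw [h0, zero_mul] at h2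
    exact zero_ne_one h2
  · have h2 : aeval y₁ H = 0 := by
      apply Subtype.ext
      have h3 := comp_aeval_apply (f := y₁) A.val H
      change A.val (aeval y₁ H) = 0
      rw [h3]
      exact hH
    have h3 := comp_aeval_apply (f := y₁) ψ H
    rw [h2, map_zero] at h3
    rw [← coe_aeval_eq_eval, RingHom.coe_coe]
    exact h3.symm

/-- a prime ideal containing the partial derivatives contains all variables -/
theorem var_mem {N : ℕ} {F : MvPolynomial (Fin N) ℂ}
    (hsm : ∀ z : Fin N → ℂ, (∀ i, eval z (pderiv i F) = 0) → z = 0)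
    {S : Type} [CommRing S] [Algebra ℂ S] (x : Fin N → S) (P : Ideal S) [P.IsPrime]
    (hP : ∀ c, aeval x (pderiv c F) ∈ P) (i : Fin N) : x i ∈ P := by
  by_contra hi
  let κ := FractionRing (S ⧸ P)
  let f : S →ₐ[ℂ] κ := (IsScalarTower.toAlgHom ℂ (S ⧸ P) κ).comp (Ideal.Quotient.mkₐ ℂ P)
  have hf : ∀ s, f s = 0 ↔ s ∈ P := by
    intro s
    change algebraMap (S ⧸ P) κ (Ideal.Quotient.mk P s) = 0 ↔ _
    rw [← map_zero (algebraMap (S ⧸ P) κ), (IsFractionRing.injective (S ⧸ P) κ).eq_iff,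
      Ideal.Quotient.eq_zero_iff_mem]
  obtain ⟨z, hz, h⟩ := exists_spec (fun j => f (x j)) i (fun h => hi ((hf _).1 h))
  apply hz
  have h1 := hsm z (fun c => h _ (by
    rw [← comp_aeval_apply (f := x) f, hf]
    exact hP c))
  rw [h1]
  rfl

end

end Pool.Agent.K9h4
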