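import Mathlib
import Pool.Agent.R845.E3.Gfi
import Pool.Agent.Y201.LI.DG
import Pool.Agent.R845.T2.Nt

/-! # The zeros of a function on a curve over a field of rational functions -/

set_option autoImplicit false

namespace Pool.Agent.K9h4

open MvPolynomial Pool.Agent.TH314.PD Module FF IntermediateField
open Pool.Agent.R845.T2

noncomputable section

/-- the places of `E` over the divisor `g = 0` of the affine space with coordinates `g`, `y` -/
theorem dv {r : ℕ} {E : Type} [Field E] [Algebra ℂ E] (y : Fin r → E) (g : E)
    (hg : Transcendental (adjoin ℂ (Set.range y)) g) (hy : AlgebraicIndependent ℂ y)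
    (hfin : FiniteDimensional (adjoin ℂ (insert g (Set.range y))) E) :
    ∃ S : Finset (Place ℂ E),
      (∀ w, w ∈ S ↔ 0 < w.ord g ∧ (∀ j, w.Reg (y j)) ∧
        AlgebraicIndependent ℂ (fun j => w.red (y j))) ∧
      ∑ w ∈ S, (w.ord g).toNat *
        finrank (adjoin ℂ (Set.range fun j => w.red (y j))) w.RF =
        finrank (adjoin ℂ (insert g (Set.range y))) E := by
  classical
  let A0 := MvPolynomial (Fin r) ℂ
  let R0 := Polynomial A0
  let aA : Algebra A0 E := (aeval y : A0 →ₐ[ℂ] E).toRingHom.toAlgebra
  have haA : ∀ p : A0, algebraMap A0 E p = aeval y p := fun _ => rfl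
  let aR : Algebra R0 E := (Polynomial.aeval g : R0 →ₐ[A0] E).toRingHom.toAlgebra
  have haR : ∀ q : R0, algebraMap R0 E q = Polynomial.aeval g q := fun _ => rfl
  have hC : ∀ p : A0, algebraMap R0 E (Polynomial.C p) = aeval y p := by
    intro p
    rw [haR, Polynomial.aeval_C, haA]
  have hX : algebraMap R0 E Polynomial.X = g := by
    rw [haR, Polynomial.aeval_X]
  have tR : IsScalarTower ℂ R0 E := by
    refine IsScalarTower.of_algebraMap_eq fun c => ?_
    have h1 : algebraMap ℂ R0 c = Polynomial.C (C c) := rfl
    rw [h1, hC, aeval_C]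
  have hinjA : Function.Injective (algebraMap A0 E) := hy
  -- injectivity
  have hinj : Function.Injective (algebraMap R0 E) := by
    rw [injective_iff_map_eq_zero]
    intro q hq
    rw [haR] at hq
    by_contra hq0
    apply hg
    let ψ : A0 →+* adjoin ℂ (Set.range y) := (aeval y : A0 →ₐ[ℂ] E).toRingHom.codRestrict
      (adjoin ℂ (Set.range y)).toSubfield.toSubring (fun p => by
        change aeval y p ∈ adjoin ℂ (Set.range y)
        induction p using MvPolynomial.induction_on with
        | C a =>
          rw [aeval_C]
          exact (adjoin ℂ (Set.range y)).algebraMap_mem a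
        | add p q hp hq => rw [map_add]; exact add_mem hp hq
        | mul_X p j hp =>
          rw [map_mul, aeval_X]
          exact mul_mem hp (subset_adjoin _ _ ⟨j, rfl⟩))
    have hψ : ∀ p, algebraMap (adjoin ℂ (Set.range y)) E (ψ p) = algebraMap A0 E p := fun _ => rfl
    have hψi : Function.Injective ψ := by
      intro a b hab
      apply hinjA
      rw [← hψ, ← hψ, hab]
    refine ⟨q.map ψ, (Polynomial.map_ne_zero_iff hψi).2 hq0, ?_⟩
    rw [Polynomial.aeval_def, Polynomial.eval₂_map]
    exact hq
  let K0 := FractionRing R0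
  let lft : K0 →+* E := IsFractionRing.lift hinj
  let aK : Algebra K0 E := lft.toAlgebra
  have haK : ∀ a : K0, algebraMap K0 E a = lft a := fun _ => rfl
  have tK : IsScalarTower R0 K0 E := IsScalarTower.of_algebraMap_eq fun a =>
    (IsFractionRing.lift_algebraMap hinj a).symm
  -- the image of the field of fractions
  have himg : ∀ z : E, z ∈ Set.range (algebraMap K0 E) ↔
      z ∈ Set.range (algebraMap (adjoin ℂ (insert g (Set.range y))) E) := by
    intro z
    have hr2 : z ∈ Set.range (algebraMap (adjoin ℂ (insert g (Set.range y))) E) ↔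
        z ∈ adjoin ℂ (insert g (Set.range y)) := by
      constructor
      · rintro ⟨x, rfl⟩
        exact x.2
      · intro h
        exact ⟨⟨z, h⟩, rfl⟩
    rw [hr2]
    have hgm : g ∈ adjoin ℂ (insert g (Set.range y)) := subset_adjoin _ _ (Set.mem_insert _ _)
    have hA : ∀ p : A0, aeval y p ∈ adjoin ℂ (insert g (Set.range y)) := by
      intro p
      induction p using MvPolynomial.induction_on with
      | C a =>
        rw [aeval_C]
        exact IntermediateField.algebraMap_mem _ a
      | add p q hp hq => rw [map_add]; exact add_mem hp hq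
      | mul_X p j hp =>
        rw [map_mul, aeval_X]
        exact mul_mem hp (subset_adjoin _ _ (Set.mem_insert_of_mem _ ⟨j, rfl⟩))
    have hR : ∀ q : R0, algebraMap R0 E q ∈ adjoin ℂ (insert g (Set.range y)) := by
      intro q
      induction q using Polynomial.induction_on' with
      | add p q hp hq => rw [map_add]; exact add_mem hp hq
      | monomial n a =>
        rw [← Polynomial.C_mul_X_pow_eq_monomial, map_mul, map_pow, hC, hX]
        exact mul_mem (hA a) (pow_mem hgm n)
    constructor
    · rintro ⟨a, rfl⟩
      obtain ⟨p, q, -, rfl⟩ := IsFractionRing.div_surjective (A := R0) a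
      rw [map_div₀, ← IsScalarTower.algebraMap_apply, ← IsScalarTower.algebraMap_apply]
      exact div_mem (hR p) (hR q)
    · intro h
      have h1 : ∀ z, z ∈ adjoin ℂ (insert g (Set.range y)) →
          z ∈ (algebraMap K0 E).fieldRange := by
        intro z hz
        induction hz using IntermediateField.adjoin_induction with
        | mem z hz =>
          rcases hz with rfl | ⟨j, rfl⟩
          · exact ⟨algebraMap R0 K0 Polynomial.X, by
              rw [← IsScalarTower.algebraMap_apply, hX]⟩
          · exact ⟨algebraMap R0 K0 (Polynomial.C (X j)), by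
              rw [← IsScalarTower.algebraMap_apply, hC, aeval_X]⟩
        | algebraMap c => exact ⟨algebraMap R0 K0 (algebraMap ℂ R0 c), by
              rw [← IsScalarTower.algebraMap_apply, ← IsScalarTower.algebraMap_apply]⟩
        | add a b _ _ ha hb => exact add_mem ha hb
        | inv a _ ha => exact inv_mem ha
        | mul a b _ _ ha hb => exact mul_mem ha hb
      exact h1 z h
  obtain ⟨hfd, hfr⟩ := Pool.Agent.Y201.LI.finrank_same himg
  have hfd' : FiniteDimensional K0 E := hfd.2 hfin
  have : CharZero A0 := inferInstance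
  have : CharZero K0 := by
    have h1 : CharZero R0 := inferInstance
    exact charZero_of_injective_algebraMap (IsFractionRing.injective R0 K0)
  have hsep : Algebra.IsSeparable K0 E := inferInstance
  obtain ⟨S, hS, hsum⟩ := Pool.Agent.R845.E3.Gfi.absF (Ω := ℂ) (R0 := R0) K0 (E := E)
    (π := (Polynomial.X : R0)) Polynomial.prime_X
  rw [hX, hfr] at hsum
  have hyred : ∀ w : Place ℂ E, (∀ j, w.Reg (y j)) → ∀ p : A0, w.Reg (aeval y p) ∧
      w.red (aeval y p) = aeval (fun j => w.red (y j)) p := fun w hw p =>
    NT.red_aeval w y hw p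
  have hqred : ∀ w : Place ℂ E, 0 < w.ord g → (∀ j, w.Reg (y j)) → ∀ q : R0,
      w.Reg (algebraMap R0 E q) ∧
      w.red (algebraMap R0 E q) = aeval (fun j => w.red (y j)) (q.coeff 0) := by
    intro w hg0 hw q
    have hgreg : w.Reg g := Or.inr hg0.le
    have hgred : w.red g = 0 := (w.red_eq_zero_iff hgreg).2 (Or.inr hg0)
    have hpow : ∀ k : ℕ, w.Reg (g ^ k) := by
      intro k
      induction k with
      | zero => rw [pow_zero]; exact w.reg_one
      | succ k ih => rw [pow_succ]; exact w.reg_mul ih hgreg
    induction q using Polynomial.induction_on' with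
    | add p q hp hq =>
      rw [map_add, Polynomial.coeff_add, map_add]
      exact ⟨w.reg_add hp.1 hq.1, by rw [w.red_add hp.1 hq.1, hp.2, hq.2]⟩
    | monomial k a =>
      rw [← Polynomial.C_mul_X_pow_eq_monomial, map_mul, map_pow, hC, hX]
      have h1 := hyred w hw a
      refine ⟨w.reg_mul h1.1 (hpow k), ?_⟩
      rw [w.red_mul h1.1 (hpow k), w.red_pow hgreg, hgred, h1.2]
      rcases Nat.eq_zero_or_pos k with rfl | hk
      · rw [pow_zero, pow_zero, mul_one, mul_one, Polynomial.coeff_C_zero]
      · rw [zero_pow hk.ne', mul_zero, Polynomial.coeff_C_mul_X_pow, if_neg hk.ne, map_zero]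
  have hmem : ∀ w : Place ℂ E, w ∈ S ↔ 0 < w.ord g ∧ (∀ j, w.Reg (y j)) ∧
        AlgebraicIndependent ℂ (fun j => w.red (y j)) := by
    intro w
    rw [hS w]
    constructor
    · rintro ⟨h1, h2⟩
      have hgreg : w.Reg g := by
        rw [← hX]
        exact h1 _
      have hyreg : ∀ j, w.Reg (y j) := by
        intro j
        have := h1 (Polynomial.C (X j))
        rwa [hC, aeval_X] at this
      have hg0 : g ≠ 0 := by
        rintro rfl
        exact hg (isAlgebraic_zero)
      have hgpos : 0 < w.ord g := by
        have h3 := (h2 Polynomial.X).2 dvd_rfl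
        rw [hX, w.red_eq_zero_iff hgreg] at h3
        exact h3.resolve_left hg0
      refine ⟨hgpos, hyreg, ?_⟩
      rw [algebraicIndependent_iff]
      intro p hp
      have h3 := (h2 (Polynomial.C p)).1 (by
        rw [hC, (hyred w hyreg p).2]
        exact hp)
      rw [Polynomial.X_dvd_iff, Polynomial.coeff_C_zero] at h3
      exact h3
    · rintro ⟨h1, h2, h3⟩
      refine ⟨fun a => (hqred w h1 h2 a).1, fun a => ?_⟩
      rw [(hqred w h1 h2 a).2, Polynomial.X_dvd_iff]
      constructor
      · intro h
        exact (algebraicIndependent_iff.1 h3) _ h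
      · intro h
        rw [h, map_zero]
  refine ⟨S, hmem, ?_⟩
  rw [← hsum]
  refine Finset.sum_congr rfl fun w hw => ?_
  obtain ⟨h1, h2, h3⟩ := (hmem w).1 hw
  congr 1
  refine (Pool.Agent.Y201.LI.finrank_same (fun z => ?_)).2
  have hr1 : z ∈ Set.range (algebraMap (Subfield.closure (Set.range fun a : R0 =>
      w.red (algebraMap R0 E a))) w.RF) ↔ z ∈ Subfield.closure (Set.range fun a : R0 =>
      w.red (algebraMap R0 E a)) := by
    constructor
    · rintro ⟨x, rfl⟩
      exact x.2
    · intro h
      exact ⟨⟨z, h⟩, rfl⟩
  have hr2 : z ∈ Set.range (algebraMap (adjoin ℂ (Set.range fun j => w.red (y j))) w.RF) ↔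
      z ∈ adjoin ℂ (Set.range fun j => w.red (y j)) := by
    constructor
    · rintro ⟨x, rfl⟩
      exact x.2
    · intro h
      exact ⟨⟨z, h⟩, rfl⟩
  rw [hr1, hr2]
  clear hr1 hr2
  constructor
  · intro hx
    induction hx using IntermediateField.adjoin_induction with
    | mem x hx =>
      obtain ⟨j, rfl⟩ := hx
      refine Subfield.subset_closure ⟨Polynomial.C (X j), ?_⟩
      simp only
      rw [hC, aeval_X]
    | algebraMap c =>
      refine Subfield.subset_closure ⟨algebraMap ℂ R0 c, ?_⟩
      simp only
      rw [← IsScalarTower.algebraMap_apply]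
      rfl
    | add a b _ _ ha hb => exact add_mem ha hb
    | inv a _ ha => exact inv_mem ha
    | mul a b _ _ ha hb => exact mul_mem ha hb
  · intro hx
    induction hx using Subfield.closure_induction with
    | mem x hx =>
      obtain ⟨a, rfl⟩ := hx
      simp only
      rw [(hqred w h1 h2 a).2]
      generalize a.coeff 0 = p
      induction p using MvPolynomial.induction_on with
      | C a =>
        rw [aeval_C]
        exact IntermediateField.algebraMap_mem _ a
      | add p q hp hq => rw [map_add]; exact add_mem hp hq
      | mul_X p j hp =>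
        rw [map_mul, aeval_X]
        exact mul_mem hp (subset_adjoin _ _ ⟨j, rfl⟩)
    | one => exact one_mem _
    | add a b _ _ ha hb => exact add_mem ha hb
    | neg a _ ha => exact neg_mem ha
    | inv a _ ha => exact inv_mem ha
    | mul a b _ _ ha hb => exact mul_mem ha hb

end

end Pool.Agent.K9h4
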