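import Mathlib
import Pool.Agent.N122.Chord
import Pool.Agent.K9h4.Chd
import Pool.Agent.K9h4.Dv

/-! # Points of curves: the main lemma -/

set_option autoImplicit false

namespace Pool.Agent.K9h4

open MvPolynomial Pool.Agent.TH314.PD Module FF IntermediateField Pool.Agent.Y201.C3
open Pool.Agent.R845.T2 Pool.Agent.R845.E3 Pool.Agent.N122

noncomputable section

section places

variable {r : ℕ} {E : Type} [Field E] [Algebra ℂ E] (w : Place ℂ E) (y : Fin r → E)
  (hy : ∀ j, w.Reg (y j)) (hr : AlgebraicIndependent ℂ fun j => w.red (y j))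

include hy hr

theorem indep_of_red : AlgebraicIndependent ℂ y := by
  rw [algebraicIndependent_iff]
  intro P hP
  refine (algebraicIndependent_iff.1 hr) P ?_
  rw [← (NT.red_aeval w y hy P).2, hP, w.red_zero]

/-- elements of the field generated by elements with independent residues are regular -/
theorem reg_adjoin (k : E) (hk : k ∈ adjoin ℂ (Set.range y)) : w.Reg k := by
  obtain ⟨P, Q, rfl⟩ := (IntermediateField.mem_adjoin_range_iff ℂ y k).1 hk
  by_cases hQ : Q = 0
  · rw [hQ, map_zero, div_zero]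
    exact w.reg_zero
  · have h2 : w.red (aeval y Q) ≠ 0 := by
      rw [(NT.red_aeval w y hy Q).2]
      intro h
      exact hQ ((algebraicIndependent_iff.1 hr) Q h)
    have h3 := (NT.reg_inv w h2 (NT.red_aeval w y hy Q).1).1
    rw [div_eq_mul_inv]
    exact w.reg_mul (NT.red_aeval w y hy P).1 h3

theorem transc_of_red (g : E) (hg : w.ord g ≠ 0) : Transcendental (adjoin ℂ (Set.range y)) g := by
  intro halg
  have hg0 : g ≠ 0 := by
    rintro rfl
    exact hg w.ord_zero
  have key : ∀ f : E, IsAlgebraic (adjoin ℂ (Set.range y)) f → w.Reg f := by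
    intro f hf
    exact w.reg_of_isIntegral (A := adjoin ℂ (Set.range y)) (fun a => reg_adjoin w y hy hr _ a.2)
      hf.isIntegral
  have h1 := (w.reg_iff hg0).1 (key g halg)
  have h2 := (w.reg_iff (inv_ne_zero hg0)).1 (key g⁻¹ halg.inv)
  rw [w.ord_inv] at h2
  omega

end places

/-- the field of ratios -/
theorem ratioField_eq {n : ℕ} {E : Type} [Field E] [Algebra ℂ E] (p : Fin (n + 2) → E)
    (h0 : p 0 ≠ 0) : ratioField p = adjoin ℂ (Set.range fun j : Fin (n + 1) => p j.succ / p 0) := by
  apply le_antisymm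
  · unfold ratioField
    rw [adjoin_le_iff]
    rintro _ ⟨i, j, rfl⟩
    have h2 : p i / p j = (p i / p 0) / (p j / p 0) := by
      rw [div_div_div_cancel_right₀ h0]
    have hm : ∀ i, p i / p 0 ∈ adjoin ℂ (Set.range fun j : Fin (n + 1) => p j.succ / p 0) := by
      intro i
      refine Fin.cases ?_ (fun i => ?_) i
      · rw [div_self h0]
        exact one_mem _
      · exact subset_adjoin _ _ ⟨i, rfl⟩
    rw [h2]
    exact div_mem (hm i) (hm j)
  · rw [adjoin_le_iff]
    rintro _ ⟨j, rfl⟩
    exact subset_adjoin _ _ ⟨_, _, rfl⟩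

/-- generic points of projective space and independence of the ratios -/
theorem gen_iff {n : ℕ} {E : Type} [Field E] [Algebra ℂ E] (p : Fin (n + 2) → E) :
    Gen p ↔ p 0 ≠ 0 ∧ AlgebraicIndependent ℂ (fun j : Fin (n + 1) => p j.succ / p 0) := by
  constructor
  · intro h
    refine ⟨gen_ne h 0, ?_⟩
    have h2 := gen_ratio (r := n + 1) p h 0 (fun j : Fin (n + 1) => j.succ)
      (Fin.succ_injective _) (fun i => Fin.succ_ne_zero i)
    exact h2
  · rintro ⟨h0, h⟩ e H hH hz
    refine Fd.eq_zero_of_indep hH p (b := 0) h0 ?_ hz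
    convert h using 1
    funext l
    rw [Fin.zero_succAbove]

theorem trdeg_le_gen {n : ℕ} {E : Type} [Field E] [Algebra ℂ E] (p : Fin (n + 2) → E)
    (hp : Gen p) [FiniteDimensional (ratioField p) E] :
    Algebra.trdeg ℂ E ≤ ((n + 1 : ℕ) : Cardinal) := by
  have h0 := ((gen_iff p).1 hp).1
  have h1 : Algebra.IsAlgebraic (ratioField p) E := inferInstance
  rw [ratioField_eq p h0] at h1
  have h2 := NT.isAlgebraic_adjoin _ h1
  refine (Algebra.IsAlgebraic.trdeg_le_cardinalMk ℂ (Set.range fun j : Fin (n + 1) =>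
    p j.succ / p 0)).trans ?_
  refine Cardinal.mk_range_le.trans ?_
  simp

theorem adj_LF (E : Type) [Field E] : IntermediateField.adjoin E
    {algebraMap (Polynomial E) (LF E) Polynomial.X} = (⊤ : IntermediateField E (LF E)) := by
  rw [eq_top_iff]
  intro f _
  obtain ⟨a, b, hb, rfl⟩ := IsFractionRing.div_surjective (A := Polynomial E) f
  have h1 : ∀ b : Polynomial E, algebraMap (Polynomial E) (LF E) b ∈
      IntermediateField.adjoin E {algebraMap (Polynomial E) (LF E) Polynomial.X} := by
    intro b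
    have h2 : algebraMap (Polynomial E) (LF E) b =
        Polynomial.aeval (algebraMap (Polynomial E) (LF E) Polynomial.X) b := by
      have h3 : (Polynomial.aeval (algebraMap (Polynomial E) (LF E) Polynomial.X) :
          Polynomial E →ₐ[E] LF E) = IsScalarTower.toAlgHom E (Polynomial E) (LF E) := by
        apply Polynomial.algHom_ext
        rw [Polynomial.aeval_X]
        rfl
      rw [h3]
      rfl
    rw [h2]
    have h4 := IntermediateField.mem_adjoin_simple_self E
      (algebraMap (Polynomial E) (LF E) Polynomial.X)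
    have h5 : Algebra.adjoin E {algebraMap (Polynomial E) (LF E) Polynomial.X} ≤
        (IntermediateField.adjoin E
          {algebraMap (Polynomial E) (LF E) Polynomial.X}).toSubalgebra :=
      Algebra.adjoin_le (Set.singleton_subset_iff.2 h4)
    exact h5 (Polynomial.aeval_mem_adjoin_singleton E _)
  exact div_mem (h1 a) (h1 b)

/-- finiteness -/
theorem fd_line {n : ℕ} {E : Type} [Field E] [Algebra ℂ E] (p : Fin (n + 2) → E)
    (hp : Gen p) (hfd : FiniteDimensional (ratioField p) E) {ι : Type} [Finite ι] (z : ι → LF E)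
    (hι : Nat.card ι = n + 2) (hz : AlgebraicIndependent ℂ z) :
    FiniteDimensional (adjoin ℂ (Set.range z)) (LF E) := by
  have h0 := ((gen_iff p).1 hp).1
  -- the transcendence degree
  have h1 : Algebra.trdeg E (LF E) ≤ 1 := by
    have h4 : Algebra.IsAlgebraic (IntermediateField.adjoin E
        {algebraMap (Polynomial E) (LF E) Polynomial.X}) (LF E) := by
      rw [adj_LF]
      exact ⟨fun z => isAlgebraic_algebraMap (⟨z, IntermediateField.mem_top⟩ :
        (⊤ : IntermediateField E (LF E)))⟩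
    have h5 := IntermediateField.isAlgebraic_adjoin_iff_top.1 h4
    refine (Algebra.IsAlgebraic.trdeg_le_cardinalMk E
      ({algebraMap (Polynomial E) (LF E) Polynomial.X} : Set (LF E))).trans ?_
    simp
  have h2 : Algebra.trdeg ℂ (LF E) ≤ ((n + 2 : ℕ) : Cardinal) := by
    rw [← trdeg_add_eq ℂ E (A := LF E)]
    refine (add_le_add (trdeg_le_gen p hp) h1).trans ?_
    push_cast
    rw [add_assoc]
    norm_num
  have h3 : Algebra.trdeg ℂ (LF E) ≤ Cardinal.mk ι := by
    refine h2.trans ?_
    rw [← hι]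
    exact le_of_eq (Nat.cast_card)
  have h8 := hz.isTranscendenceBasis_of_trdeg_le_of_finite h3
  have h9 : Algebra.IsAlgebraic (adjoin ℂ (Set.range z)) (LF E) := h8.isAlgebraic_field
  have g1 : Algebra.EssFiniteType ℂ (ratioField p) := by
    rw [IntermediateField.essFiniteType_iff, ratioField_eq p h0]
    exact IntermediateField.fg_adjoin_of_finite (Set.finite_range _)
  have g2 : Algebra.EssFiniteType (ratioField p) E := inferInstance
  have g3 : Algebra.EssFiniteType ℂ E := Algebra.EssFiniteType.comp ℂ (ratioField p) E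
  have g4 : Algebra.EssFiniteType E (LF E) := by
    rw [← IntermediateField.fg_top_iff, ← adj_LF]
    exact IntermediateField.fg_adjoin_of_finite (Set.finite_singleton _)
  have g5 : Algebra.EssFiniteType ℂ (LF E) := Algebra.EssFiniteType.comp ℂ E (LF E)
  have g6 : Algebra.EssFiniteType (adjoin ℂ (Set.range z)) (LF E) :=
    Algebra.EssFiniteType.of_comp ℂ _ (LF E)
  exact Algebra.finite_of_essFiniteType_of_isAlgebraic

/-- the polar form -/
theorem polar_sum {N : ℕ} {T : Fin N → Fin N → Fin N → ℂ} (hT : SymG T) {R : Type} [CommRing R]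
    [Algebra ℂ R] (y p : Fin N → R) :
    ∑ l, y l * aeval p (pderiv l (Bg T X X X : MvPolynomial (Fin N) ℂ)) = 3 * Bg T y p p := by
  have h2 : ∀ l, y l * aeval p (pderiv l (Bg T X X X : MvPolynomial (Fin N) ℂ)) =
      3 * Bg T (fun i => y l * (if i = l then 1 else 0)) p p := by
    intro l
    rw [pderiv_frmG hT, Bg_smul1]
    ring
  rw [Finset.sum_congr rfl (fun l _ => h2 l), ← Finset.mul_sum, ← Bg_sum1]
  have h3 : (fun i => ∑ l, y l * (if i = l then (1 : R) else 0)) = y := by
    funext i
    simp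
  rw [h3]

/-- the value of the cubic form at a difference -/
theorem Bg_sub {N : ℕ} {T : Fin N → Fin N → Fin N → ℂ} (hT : SymG T) {R : Type} [CommRing R]
    [Algebra ℂ R] (p x : Fin N → R) :
    Bg T (fun i => p i - x i) (fun i => p i - x i) (fun i => p i - x i) =
      Bg T p p p - 3 * Bg T p p x + 3 * Bg T p x x - Bg T x x x := by
  have h1 := Bg_span3 hT p x x 1 (-1) 0
  have h2 : (fun i => 1 * p i + -1 * x i + 0 * x i) = fun i => p i - x i := by
    funext i
    ring
  rw [h2] at h1
  rw [h1]
  ring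

variable {n : ℕ} {F : MvPolynomial (Fin (n + 2)) ℂ}

/-- the alternative at the places where the point of the cubic is not regular -/
theorem pole_alt (hF : F.IsHomogeneous 3) (hsm : Sm F) {T : Fin (n + 2) → Fin (n + 2) →
    Fin (n + 2) → ℂ} (hT : SymG T) (hFT : F = Bg T X X X) {K : Type} [Field K] [Algebra ℂ K]
    (w : Place ℂ K) (P x : Fin (n + 2) → K) (hP : ∀ i, w.Reg (P i))
    (hgen : Gen fun i => w.red (P i))
    (hX : Bg T x x x = 0) (hnr : ∃ i, ¬ w.Reg (x i)) :
    Even (finrank (ratioField fun i => w.red (P i)) w.RF) ∨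
      (Even (w.ord (Bg T (fun i => P i - x i) (fun i => P i - x i) fun i => P i - x i)) ∧
        w.ord (Bg T (fun i => P i - x i) (fun i => P i - x i) fun i => P i - x i) < 0) := by
  classical
  set f := Bg T (fun i => P i - x i) (fun i => P i - x i) (fun i => P i - x i) with hf
  by_cases hfr : finrank (ratioField fun i => w.red (P i)) w.RF = 0
  · left
    rw [hfr]
    exact Even.zero
  have hfin : FiniteDimensional (ratioField fun i => w.red (P i)) w.RF :=
    FiniteDimensional.of_finrank_pos (Nat.pos_of_ne_zero hfr)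
  -- the coordinate of minimal order
  obtain ⟨i1, hi1⟩ := hnr
  have hi1' : x i1 ≠ 0 ∧ w.ord (x i1) < 0 := by
    unfold Place.Reg at hi1
    push Not at hi1
    exact hi1
  obtain ⟨i0, hi0, hmin⟩ := Finset.exists_min_image (Finset.univ.filter fun i => x i ≠ 0)
    (fun i => w.ord (x i)) ⟨i1, by simp [hi1'.1]⟩
  have hx0 : x i0 ≠ 0 := (Finset.mem_filter.1 hi0).2
  have hneg : w.ord (x i0) < 0 :=
    (hmin i1 (by simp [hi1'.1])).trans_lt hi1'.2
  set u := (x i0)⁻¹ with hu
  have hu0 : u ≠ 0 := inv_ne_zero hx0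
  have hupos : 0 < w.ord u := by
    rw [hu, w.ord_inv]
    omega
  have hureg : w.Reg u := Or.inr hupos.le
  have hured : w.red u = 0 := (w.red_eq_zero_iff hureg).2 (Or.inr hupos)
  set ξ : Fin (n + 2) → K := fun i => u * x i with hξ
  have hξreg : ∀ i, w.Reg (ξ i) := by
    intro i
    by_cases hi : x i = 0
    · left
      rw [hξ]
      simp only
      rw [hi, mul_zero]
    · right
      rw [hξ]
      simp only
      rw [w.ord_mul hu0 hi, hu, w.ord_inv]
      have := hmin i (by simp [hi])
      omega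
  have hξ1 : ξ i0 = 1 := by
    rw [hξ, hu]
    exact inv_mul_cancel₀ hx0
  have hxξ : ∀ i, x i = u⁻¹ * ξ i := by
    intro i
    rw [hξ]
    simp only
    rw [inv_mul_cancel_left₀ hu0]
  -- the value of `f`
  have hfu : f * u ^ 2 = Bg T P P P * u ^ 2 + u * (-3 * Bg T P P ξ) + 3 * Bg T P ξ ξ := by
    have hxe : x = fun i => u⁻¹ * ξ i := funext hxξ
    have b1 : Bg T P P x = u⁻¹ * Bg T P P ξ := by
      conv_lhs => rw [hxe]
      rw [Bg_smul3]
    have b2 : Bg T P x x = u⁻¹ * (u⁻¹ * Bg T P ξ ξ) := by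
      conv_lhs => rw [hxe]
      rw [Bg_smul3, Bg_smul2]
    rw [hf, Bg_sub hT, hX, b1, b2]
    generalize Bg T P ξ ξ = B1
    generalize Bg T P P ξ = B2
    field_simp
    ring
  have hB : ∀ a b c : Fin (n + 2) → K, (∀ i, w.Reg (a i)) → (∀ i, w.Reg (b i)) →
      (∀ i, w.Reg (c i)) → w.Reg (Bg T a b c) ∧ w.red (Bg T a b c) =
        Bg T (fun i => w.red (a i)) (fun i => w.red (b i)) (fun i => w.red (c i)) :=
    fun a b c ha hb hc => red_Bg w T a b c ha hb hc
  have h3 : w.Reg (3 : K) := by
    have := w.reg_const (3 : ℂ)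
    rwa [map_ofNat] at this
  have h3r : w.red (3 : K) = 3 := by
    have := w.algebraMap_RF (3 : ℂ)
    rw [map_ofNat, map_ofNat] at this
    exact this.symm
  have e1 := hB P P P hP hP hP
  have e2 := hB P P ξ hP hP hξreg
  have e3 := hB P ξ ξ hP hξreg hξreg
  have hreg2 : w.Reg (-3 * Bg T P P ξ) := by
    rw [neg_mul]
    exact w.reg_neg (w.reg_mul h3 e2.1)
  have hu2 : w.Reg (u ^ 2) := by
    rw [pow_two]
    exact w.reg_mul hureg hureg
  have hregA : w.Reg (Bg T P P P * u ^ 2) := w.reg_mul e1.1 hu2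
  have hregB : w.Reg (u * (-3 * Bg T P P ξ)) := w.reg_mul hureg hreg2
  have hregC : w.Reg (3 * Bg T P ξ ξ) := w.reg_mul h3 e3.1
  have hred : w.red (f * u ^ 2) = 3 * Bg T (fun i => w.red (P i)) (fun i => w.red (ξ i))
      (fun i => w.red (ξ i)) := by
    rw [hfu, w.red_add (w.reg_add hregA hregB) hregC, w.red_add hregA hregB,
      w.red_mul e1.1 hu2, w.red_mul hureg hreg2, w.red_pow hureg, hured, w.red_mul h3 e3.1, h3r,
      e3.2]
    ring
  have hregf : w.Reg (f * u ^ 2) := by
    rw [hfu]
    exact w.reg_add (w.reg_add hregA hregB) hregC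
  by_cases hz : 3 * Bg T (fun i => w.red (P i)) (fun i => w.red (ξ i)) (fun i => w.red (ξ i)) = 0
  · left
    have h4 := Pool.Agent.R845.T2.div (n + 2) 3 F hF (by norm_num) hsm w.RF
      (fun i => w.red (P i)) hgen hfin (fun i => w.red (ξ i)) (by
        intro h5
        have h6 := congrFun h5 i0
        simp only [hξ1, Pi.zero_apply, w.red_one] at h6
        exact one_ne_zero h6) (by
        rw [hFT, polar_sum hT]
        exact hz)
    exact even_iff_two_dvd.2 h4
  · right
    have h5 : w.red (f * u ^ 2) ≠ 0 := by rw [hred]; exact hz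
    rw [Ne, w.red_eq_zero_iff hregf] at h5
    push Not at h5
    obtain ⟨h6, h7⟩ := h5
    have hf0 : f ≠ 0 := fun h => h6 (by rw [h, zero_mul])
    have h8 := (w.reg_iff h6).1 hregf
    rw [w.ord_mul hf0 (pow_ne_zero _ hu0), w.ord_pow] at h7 h8
    refine ⟨⟨-w.ord u, ?_⟩, ?_⟩ <;> push_cast at h7 h8 <;> omega

end

end Pool.Agent.K9h4
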