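import Mathlib
import Pool.Agent.R845.E3.All
import Pool.Agent.N122.Lang
import Pool.Agent.N230.FC.LangF
import Pool.Agent.Y394.LI.BpfJob
import Pool.Agent.K9h4.Ns

/-! # Linear families of points and linear subspaces of smooth cubics over extension fields -/

set_option autoImplicit false

namespace Pool.Agent.K9h4

open MvPolynomial Pool.Agent.TH314.PD Module Pool.Agent.Y201.C3
open Pool.Agent.R845.T2 Pool.Agent.R845.E3

noncomputable section

/-- common zeros of fewer forms than variables over an algebraically closed field -/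
theorem common_zero {κ : Type} [Field κ] [IsAlgClosed κ] {I Q : Type} [Fintype I] [Fintype Q]
    (e : Q → ℕ) (he : ∀ q, 1 ≤ e q) (Ψ : Q → MvPolynomial I κ)
    (hΨ : ∀ q, (Ψ q).IsHomogeneous (e q)) (hcard : Fintype.card Q < Fintype.card I) :
    ∃ a : I → κ, a ≠ 0 ∧ ∀ q, eval a (Ψ q) = 0 := by
  refine Pool.Agent.N122.Lang.lang (k := κ) (L := κ) (m := 0) Fin.elim0 (fun _ : Unit => (1 : κ))
    ?_ ?_ ?_ (fun _ => 1) (fun _ => le_rfl) e he Ψ hΨ ?_
  · exact (algebraicIndependent_empty_type_iff).2 (algebraMap κ κ).injective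
  · intro z
    refine ⟨1, one_ne_zero, fun _ => C z, ?_⟩
    simp
  · intro p hp j
    rw [Finset.univ_unique, Finset.sum_singleton, mul_one] at hp
    rw [eq_C_of_isEmpty (p j)] at hp ⊢
    rw [aeval_C] at hp
    have h1 : coeff 0 (p j) = 0 := hp
    rw [h1, map_zero]
  · simpa using hcard

/-- components of products -/
theorem comp_mul {σ R : Type} [CommRing R] {a : MvPolynomial σ R} {i : ℕ}
    (ha : a.IsHomogeneous i) (k : ℕ) (p : MvPolynomial σ R) :
    homogeneousComponent (i + k) (a * p) = a * homogeneousComponent k p := by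
  classical
  have h1 : a * p = ∑ j ∈ Finset.range (p.totalDegree + 1), a * homogeneousComponent j p := by
    rw [← Finset.mul_sum, sum_homogeneousComponent]
  rw [h1, map_sum]
  have h2 : ∀ j, homogeneousComponent (i + k) (a * homogeneousComponent j p) =
      if j = k then a * homogeneousComponent j p else 0 := by
    intro j
    rw [homogeneousComponent_of_mem (ha.mul (homogeneousComponent_isHomogeneous j p))]
    by_cases hj : j = k
    · rw [if_pos hj, if_pos (by rw [hj])]
    · rw [if_neg hj, if_neg (by omega)]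
  rw [Finset.sum_congr rfl fun j _ => h2 j, Finset.sum_ite_eq']
  by_cases hk : k ∈ Finset.range (p.totalDegree + 1)
  · rw [if_pos hk]
  · rw [if_neg hk, homogeneousComponent_eq_zero _ _ (by
      rw [Finset.mem_range] at hk
      omega), mul_zero]

section gv

variable {N : ℕ} {I : Type} [Fintype I]

/-- the generic point of the span of a family of vectors -/
def gv {K : Type} [Field K] (v : I → Fin N → K) : Fin N → MvPolynomial I K := fun i =>
  ∑ j, X j * C (v j i)

theorem gv_hom {K : Type} [Field K] (v : I → Fin N → K) (i : Fin N) :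
    (gv v i).IsHomogeneous 1 := by
  refine IsHomogeneous.sum _ _ _ fun j _ => ?_
  have h1 := (isHomogeneous_X K j).mul (isHomogeneous_C I (v j i))
  exact h1

theorem eval_gv {K : Type} [Field K] (v : I → Fin N → K) (y : I → K) (i : Fin N) :
    eval y (gv v i) = ∑ j, y j * v j i := by
  unfold gv
  rw [map_sum]
  refine Finset.sum_congr rfl fun j _ => ?_
  rw [map_mul, eval_X, eval_C]

theorem map_gv {K κ : Type} [Field K] [Field κ] (φ : K →+* κ) (v : I → Fin N → K) (i : Fin N) :
    map φ (gv v i) = gv (fun j l => φ (v j l)) i := by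
  unfold gv
  rw [map_sum]
  refine Finset.sum_congr rfl fun j _ => ?_
  rw [map_mul, map_X, map_C]

theorem pderiv_gv {K : Type} [Field K] [DecidableEq I] (v : I → Fin N → K) (j : I) (i : Fin N) :
    pderiv j (gv v i) = C (v j i) := by
  unfold gv
  rw [map_sum, Finset.sum_eq_single j]
  · rw [Derivation.leibniz, pderiv_X_self, pderiv_C]
    simp
  · intro b _ hb
    rw [Derivation.leibniz, pderiv_X_of_ne hb, pderiv_C]
    simp
  · intro h
    exact absurd (Finset.mem_univ _) h

end gv

section tri

variable {σ : Type} [Fintype σ] [DecidableEq σ]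

omit [DecidableEq σ] in
/-- the derivative of a trilinear form -/
theorem Bg_der {R : Type} [CommRing R] [Algebra ℂ R] (T : σ → σ → σ → ℂ)
    (D : Derivation ℂ R R) (u v w : σ → R) :
    D (Bg T u v w) = Bg T (fun i => D (u i)) v w + Bg T u (fun i => D (v i)) w +
      Bg T u v (fun i => D (w i)) := by
  unfold Bg
  simp only [map_sum, Derivation.leibniz, Derivation.map_algebraMap, smul_eq_mul, mul_zero,
    add_zero, ← Finset.sum_add_distrib]
  refine Finset.sum_congr rfl fun i _ => Finset.sum_congr rfl fun j _ =>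
    Finset.sum_congr rfl fun k _ => ?_
  ring

omit [DecidableEq σ] in
/-- homogeneity of a trilinear form -/
theorem Bg_hom {I K : Type} [Field K] [Algebra ℂ K] (T : σ → σ → σ → ℂ)
    (u v w : σ → MvPolynomial I K) (a b c : ℕ) (hu : ∀ i, (u i).IsHomogeneous a)
    (hv : ∀ i, (v i).IsHomogeneous b) (hw : ∀ i, (w i).IsHomogeneous c) :
    (Bg T u v w).IsHomogeneous (a + b + c) := by
  unfold Bg
  refine IsHomogeneous.sum _ _ _ fun i _ => IsHomogeneous.sum _ _ _ fun j _ =>
    IsHomogeneous.sum _ _ _ fun k _ => ?_
  have h0 : (algebraMap ℂ (MvPolynomial I K) (T i j k)).IsHomogeneous 0 := by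
    rw [IsScalarTower.algebraMap_apply ℂ K (MvPolynomial I K)]
    exact isHomogeneous_C I _
  have h1 := ((h0.mul (hu i)).mul (hv j)).mul (hw k)
  rwa [zero_add] at h1

/-- polarization on a linear subspace -/
theorem polar_zero {K : Type} [Field K] [Algebra ℂ K] {T : σ → σ → σ → ℂ} (hT : SymG T)
    (R : Submodule K (σ → K)) (hR : ∀ v ∈ R, Bg T v v v = 0) (u v w : σ → K) (hu : u ∈ R)
    (hv : v ∈ R) (hw : w ∈ R) : Bg T u v w = 0 := by
  have : CharZero K := charZero_of_injective_algebraMap (algebraMap ℂ K).injective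
  have hmem : ∀ a b c : K, (fun i => a * u i + b * v i + c * w i) ∈ R := by
    intro a b c
    exact R.add_mem (R.add_mem (R.smul_mem a hu) (R.smul_mem b hv)) (R.smul_mem c hw)
  have h := fun a b c => (Bg_span3 hT u v w a b c).symm.trans (hR _ (hmem a b c))
  have p1 := h 1 0 0
  have p2 := h 0 1 0
  have p3 := h 0 0 1
  have q1 := h 1 1 0
  have q2 := h (-1) 1 0
  have r1 := h 1 0 1
  have r2 := h (-1) 0 1
  have s1 := h 0 1 1
  have s2 := h 0 (-1) 1
  have t := h 1 1 1
  have h6 : (6 : K) ≠ 0 := by norm_num
  have h2 : (6 : K) * Bg T u v w = 0 := by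
    linear_combination t - q1 - r1 - s1 + p1 + p2 + p3
  exact (mul_eq_zero.1 h2).resolve_left h6

end tri

/-- independent vectors stay independent over an extension field -/
theorem indep_ext {N : ℕ} {I : Type} [Fintype I] {K κ : Type} [Field K] [Field κ] [Algebra K κ]
    (v : I → Fin N → K) (hv : LinearIndependent K v) (z : I → κ)
    (hz : ∀ i, ∑ j, z j * algebraMap K κ (v j i) = 0) : z = 0 := by
  classical
  obtain ⟨g, hg⟩ := LinearMap.exists_leftInverse_of_injective (Fintype.linearCombination K v)
    (LinearMap.ker_eq_bot.2 hv.fintypeLinearCombination_injective)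
  funext l
  have h1 : ∀ j, ∑ i, g (Pi.single i 1) l * v j i = if j = l then 1 else 0 := by
    intro j
    have h2 : g (v j) = Pi.single j 1 := by
      have h3 := LinearMap.congr_fun hg (Pi.single j 1)
      rw [LinearMap.comp_apply, Fintype.linearCombination_apply_single, one_smul,
        LinearMap.id_apply] at h3
      exact h3
    have h4 : g (v j) = ∑ i, v j i • g (Pi.single i 1) := by
      conv_lhs => rw [← Finset.univ_sum_single (v j)]
      rw [map_sum]
      refine Finset.sum_congr rfl fun i _ => ?_
      rw [← map_smul]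
      congr 1
      rw [← Pi.single_smul]
      simp
    have h5 := congrFun (h4.symm.trans h2) l
    rw [Finset.sum_apply] at h5
    rw [Pi.single_apply] at h5
    rw [← (show (if l = j then (1 : K) else 0) = if j = l then 1 else 0 from by
      simp only [eq_comm]), ← h5]
    refine Finset.sum_congr rfl fun i _ => ?_
    rw [Pi.smul_apply, smul_eq_mul, mul_comm]
  have h6 : ∑ i, algebraMap K κ (g (Pi.single i 1) l) * ∑ j, z j * algebraMap K κ (v j i) =
      z l := by
    have h7 : ∀ i, algebraMap K κ (g (Pi.single i 1) l) * ∑ j, z j * algebraMap K κ (v j i) =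
        ∑ j, z j * algebraMap K κ (g (Pi.single i 1) l * v j i) := by
      intro i
      rw [Finset.mul_sum]
      refine Finset.sum_congr rfl fun j _ => ?_
      rw [map_mul]
      ring
    rw [Finset.sum_congr rfl fun i _ => h7 i, Finset.sum_comm]
    have h8 : ∀ j, ∑ i, z j * algebraMap K κ (g (Pi.single i 1) l * v j i) =
        z j * (if j = l then 1 else 0) := by
      intro j
      rw [← Finset.mul_sum, ← map_sum, h1]
      by_cases hj : j = l
      · rw [if_pos hj, if_pos hj, map_one]
      · rw [if_neg hj, if_neg hj, map_zero]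
    rw [Finset.sum_congr rfl fun j _ => h8 j]
    simp
  rw [← h6]
  simp only [hz, mul_zero, Finset.sum_const_zero, Pi.zero_apply]

/-- a functional over an extension field which vanishes on a spanning set -/
theorem span_ext {N : ℕ} {K κ : Type} [Field K] [Field κ] [Algebra K κ]
    (S : Set (Fin N → K)) (hS : Submodule.span K S = ⊤) (g : Fin N → κ)
    (hg : ∀ s ∈ S, ∑ i, g i * algebraMap K κ (s i) = 0) : g = 0 := by
  classical
  funext i
  have h1 : ∀ s ∈ Submodule.span K S, ∑ i, g i * algebraMap K κ (s i) = 0 := by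
    intro s hs
    induction hs using Submodule.span_induction with
    | mem s hs => exact hg s hs
    | zero => simp
    | add a b _ _ ha hb =>
      simp only [Pi.add_apply, map_add, mul_add, Finset.sum_add_distrib, ha, hb, add_zero]
    | smul c a _ ha =>
      have h2 : ∀ i, g i * algebraMap K κ ((c • a) i) =
          algebraMap K κ c * (g i * algebraMap K κ (a i)) := by
        intro i
        rw [Pi.smul_apply, smul_eq_mul, map_mul]
        ring
      rw [Finset.sum_congr rfl fun i _ => h2 i, ← Finset.mul_sum, ha, mul_zero]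
  have h2 := h1 (Pi.single i 1) (by rw [hS]; trivial)
  rw [Finset.sum_eq_single i] at h2
  · rw [Pi.single_eq_same, map_one, mul_one] at h2
    exact h2
  · intro j _ hj
    rw [Pi.single_eq_of_ne hj, map_zero, mul_zero]
  · intro h
    exact absurd (Finset.mem_univ _) h

variable {n : ℕ} {F : MvPolynomial (Fin (n + 2)) ℂ}

/-- smoothness over extension fields -/
theorem smooth_ext (hF : F.IsHomogeneous 3) (hsm : Sm F)
    {T : Fin (n + 2) → Fin (n + 2) → Fin (n + 2) → ℂ} (hT : SymG T) (hFT : F = Bg T X X X)
    {K κ : Type} [Field K] [Field κ] [Algebra ℂ K] [Algebra ℂ κ] [Algebra K κ]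
    [IsScalarTower ℂ K κ] (S : Set (Fin (n + 2) → K)) (hS : Submodule.span K S = ⊤)
    (p : Fin (n + 2) → κ) (hp : ∀ s ∈ S, Bg T (fun i => algebraMap K κ (s i)) p p = 0) :
    p = 0 := by
  refine Pool.Agent.Y394.LI.bpf _ F hsm 3 hF κ (algebraMap ℂ κ) p (by simp) fun i => ?_
  have h1 := span_ext S hS (fun i => aeval p (pderiv i F)) (by
    intro s hs
    have h2 := polar_sum hT (fun i => algebraMap K κ (s i)) p
    rw [← hFT, hp s hs, mul_zero] at h2
    rw [← h2]
    exact Finset.sum_congr rfl fun i _ => mul_comm _ _)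
  have h2 := congrFun h1 i
  rw [Pi.zero_apply] at h2
  rw [← h2, aeval_def]

end

end Pool.Agent.K9h4
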