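import Mathlib
import Pool.Agent.K9h4.Lin

/-! # The existence of an auxiliary point -/

set_option autoImplicit false

namespace Pool.Agent.K9h4

open MvPolynomial Pool.Agent.TH314.PD Module Pool.Agent.Y201.C3
open Pool.Agent.R845.T2 Pool.Agent.R845.E3

noncomputable section

variable {n : ℕ} {F : MvPolynomial (Fin (n + 2)) ℂ}

/-- values of the generic point of the span -/
theorem aeval_gv {N : ℕ} {I K κ : Type} [Fintype I] [Field K] [Field κ] [Algebra K κ]
    (v : I → Fin N → K) (z : I → κ) (i : Fin N) :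
    aeval z (gv v i) = ∑ j, z j * algebraMap K κ (v j i) := by
  unfold gv
  rw [map_sum]
  refine Finset.sum_congr rfl fun j _ => ?_
  rw [map_mul, aeval_X, aeval_C]

theorem eval_Bg {σ : Type} [Fintype σ] {I κ : Type} [Field κ] [Algebra ℂ κ]
    (T : σ → σ → σ → ℂ) (z : I → κ) (u v w : σ → MvPolynomial I κ) :
    eval z (Bg T u v w) = Bg T (fun i => eval z (u i)) (fun i => eval z (v i))
      (fun i => eval z (w i)) := by
  unfold Bg
  simp only [map_sum, map_mul]
  refine Finset.sum_congr rfl fun i _ => Finset.sum_congr rfl fun j _ =>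
    Finset.sum_congr rfl fun k _ => ?_
  congr 3
  rw [IsScalarTower.algebraMap_apply ℂ κ (MvPolynomial I κ)]
  exact eval_C _

/-- **Linear subspaces of a smooth cubic over an extension field.** -/
theorem lin_bound (hF : F.IsHomogeneous 3) (hsm : Sm F)
    {T : Fin (n + 2) → Fin (n + 2) → Fin (n + 2) → ℂ} (hT : SymG T) (hFT : F = Bg T X X X)
    {K : Type} [Field K] [Algebra ℂ K] (R : Submodule K (Fin (n + 2) → K))
    (hR : ∀ v ∈ R, Bg T v v v = 0) : 2 * finrank K R ≤ n + 2 := by
  classical
  by_contra hcon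
  push Not at hcon
  obtain ⟨R', hR'⟩ := Submodule.exists_isCompl R
  have hdim := Submodule.finrank_add_eq_of_isCompl hR'
  rw [Module.finrank_fin_fun] at hdim
  let v := Module.finBasis K R
  let w := Module.finBasis K R'
  let κ := AlgebraicClosure K
  let v' : Fin (finrank K R) → Fin (n + 2) → K := fun j => (v j : Fin (n + 2) → K)
  have hv' : LinearIndependent K v' := v.linearIndependent.map' R.subtype (Submodule.ker_subtype R)
  let V : Fin (n + 2) → MvPolynomial (Fin (finrank K R)) κ :=
    gv (fun j i => algebraMap K κ (v' j i))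
  let Ψ : Fin (finrank K R') → MvPolynomial (Fin (finrank K R)) κ := fun k =>
    Bg T (fun i => C (algebraMap K κ ((w k : Fin (n + 2) → K) i))) V V
  obtain ⟨z, hz0, hz⟩ := common_zero (κ := κ) (I := Fin (finrank K R)) (Q := Fin (finrank K R'))
    (fun _ => 2) (fun _ => by norm_num) Ψ
    (fun k => by
      have h1 := Bg_hom T (fun i => (C (algebraMap K κ ((w k : Fin (n + 2) → K) i)) :
        MvPolynomial (Fin (finrank K R)) κ)) V V 0 1 1
        (fun i => isHomogeneous_C _ _) (fun i => gv_hom _ i) (fun i => gv_hom _ i)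
      exact h1) (by
      rw [Fintype.card_fin, Fintype.card_fin]
      omega)
  set p : Fin (n + 2) → κ := fun i => ∑ j, z j * algebraMap K κ (v' j i) with hp
  have hpV : ∀ i, eval z (V i) = p i := by
    intro i
    change eval z (gv _ i) = _
    rw [eval_gv]
  apply hz0
  refine indep_ext v' hv' z fun i => ?_
  have hpp : p = 0 := by
    refine smooth_ext hF hsm hT hFT (K := K) (κ := κ)
      (Set.range v' ∪ Set.range fun k => (w k : Fin (n + 2) → K)) ?_ p ?_
    · rw [Submodule.span_union]
      have e1 : Submodule.span K (Set.range v') = R := by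
        have e2 : Set.range v' = R.subtype '' Set.range v := by
          rw [← Set.range_comp]
          rfl
        rw [e2, ← Submodule.map_span, v.span_eq, Submodule.map_top, Submodule.range_subtype]
      have e3 : Submodule.span K (Set.range fun k => (w k : Fin (n + 2) → K)) = R' := by
        have e2 : (Set.range fun k => (w k : Fin (n + 2) → K)) = R'.subtype '' Set.range w := by
          rw [← Set.range_comp]
          rfl
        rw [e2, ← Submodule.map_span, w.span_eq, Submodule.map_top, Submodule.range_subtype]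
      rw [e1, e3]
      exact hR'.sup_eq_top
    · rintro s (⟨j, rfl⟩ | ⟨k, rfl⟩)
      · -- all values vanish on the subspace
        have hvv : ∀ j k l, Bg T (v' j) (v' k) (v' l) = 0 := fun j k l =>
          polar_zero hT R hR _ _ _ (v j).2 (v k).2 (v l).2
        have h1 : Bg T (fun i => algebraMap K κ (v' j i)) p p =
            ∑ a, ∑ b, z a * (z b * algebraMap K κ (Bg T (v' j) (v' b) (v' a))) := by
          have e4 : ∀ x y u : Fin (n + 2) → K, Bg T (fun i => algebraMap K κ (x i))
              (fun i => algebraMap K κ (y i)) (fun i => algebraMap K κ (u i)) =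
              algebraMap K κ (Bg T x y u) := fun x y u =>
            (map_Bg (IsScalarTower.toAlgHom ℂ K κ) T x y u).symm
          rw [hp, Bg_sum3 hT]
          refine Finset.sum_congr rfl fun a _ => ?_
          rw [Bg_smul3, Bg_sum2 hT, Finset.mul_sum]
          refine Finset.sum_congr rfl fun b _ => ?_
          rw [Bg_smul2, e4]
        rw [h1]
        simp only [hvv, map_zero, mul_zero, Finset.sum_const_zero]
      · have h1 := hz k
        have h2 : eval z (Ψ k) = Bg T (fun i => algebraMap K κ ((w k : Fin (n + 2) → K) i))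
            p p := by
          refine (eval_Bg T z _ _ _).trans ?_
          congr 1
          · funext i
            rw [eval_C]
          · funext i
            exact hpV i
          · funext i
            exact hpV i
        rw [← h2, h1]
  exact congrFun hpp i

/-- the linear form `B(a, b, ·)` -/
def lf {N : ℕ} (T : Fin N → Fin N → Fin N → ℂ) {K : Type} [Field K] [Algebra ℂ K]
    (a b : Fin N → K) : (Fin N → K) →ₗ[K] K where
  toFun v := Bg T a b v
  map_add' u v := Bg_add3 T a b u v
  map_smul' c v := Bg_smul3 T c a b v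

theorem lf_apply {N : ℕ} (T : Fin N → Fin N → Fin N → ℂ) {K : Type} [Field K] [Algebra ℂ K]
    (a b v : Fin N → K) : lf T a b v = Bg T a b v := rfl

/-- the value of a linear form at the generic point of a span -/
theorem Bg_gv {N : ℕ} {T : Fin N → Fin N → Fin N → ℂ} (hT : SymG T) {I K : Type} [Fintype I]
    [Field K] [Algebra ℂ K] (a b : Fin N → K) (v : I → Fin N → K) :
    Bg T (fun i => (C (a i) : MvPolynomial I K)) (fun i => C (b i)) (gv v) =
      ∑ j, X j * C (Bg T a b (v j)) := by
  classical
  have h0 : gv v = fun i => ∑ j, X j * C (v j i) := rfl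
  rw [h0, Bg_sum3 hT]
  refine Finset.sum_congr rfl fun j _ => ?_
  rw [Bg_smul3]
  congr 1
  have h1 := map_Bg (IsScalarTower.toAlgHom ℂ K (MvPolynomial I K)) T a b (v j)
  exact h1.symm

theorem finrank_ker_ge {K V : Type} [Field K] [AddCommGroup V] [Module K V]
    [FiniteDimensional K V] (φ : V →ₗ[K] K) : finrank K V ≤ finrank K (LinearMap.ker φ) + 1 := by
  have h1 := LinearMap.finrank_range_add_finrank_ker φ
  have h2 : finrank K (LinearMap.range φ) ≤ 1 := by
    have := Submodule.finrank_le (LinearMap.range φ)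
    rwa [Module.finrank_self] at this
  omega

/-- the polynomial part of the argument -/
theorem lemC_poly (hn : 3 ≤ n) (hF : F.IsHomogeneous 3) (hsm : Sm F)
    {T : Fin (n + 2) → Fin (n + 2) → Fin (n + 2) → ℂ} (hT : SymG T) (hFT : F = Bg T X X X)
    {K : Type} [Field K] [Algebra ℂ K] (d c₀ : Fin (n + 2) → K)
    (H : ∀ c, Bg T d d c = 0 → Bg T d c c = 0 → Bg T c c c = 0)
    (hc1 : Bg T d d c₀ = 0) (hc2 : Bg T d c₀ c₀ = 0)
    {m : ℕ} (hm : n ≤ m) (v : Option (Fin m) → Fin (n + 2) → K) (e : Fin (n + 2) → K)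
    (hv : LinearIndependent K v)
    (hspan : Submodule.span K (insert e (Set.range v)) = ⊤)
    (hv1 : ∀ j, Bg T d d (v j) = 0)
    (hv2 : ∀ j, Bg T d c₀ (v j) = if j = none then 1 else 0)
    (hU : ∃ y : Option (Fin m) → K, y none = 0 ∧ Bg T (fun i => ∑ j, y j * v j i)
      (fun i => ∑ j, y j * v j i) (fun i => ∑ j, y j * v j i) ≠ 0) : False := by
  classical
  have : CharZero K := charZero_of_injective_algebraMap (algebraMap ℂ K).injective
  set A := MvPolynomial (Option (Fin m)) K with hA
  let D : Fin (n + 2) → A := fun i => C (d i)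
  let C₀ : Fin (n + 2) → A := fun i => C (c₀ i)
  let V : Fin (n + 2) → A := gv v
  have hCC : ∀ x y u : Fin (n + 2) → K, Bg T (fun i => (C (x i) : A)) (fun i => C (y i))
      (fun i => C (u i)) = C (Bg T x y u) := fun x y u =>
    (map_Bg (IsScalarTower.toAlgHom ℂ K A) T x y u).symm
  -- the polynomials
  set a : A := Bg T D V V with ha
  set g : A := Bg T C₀ V V with hg
  set mm : A := Bg T C₀ C₀ V with hmm
  set FV : A := Bg T V V V with hFV
  set b : A := X none with hb
  have hDC : Bg T D C₀ V = b := by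
    refine (Bg_gv hT d c₀ v).trans ?_
    rw [Finset.sum_eq_single none]
    · rw [hv2, if_pos rfl, map_one, mul_one]
    · intro j _ hj
      rw [hv2, if_neg hj, map_zero, mul_zero]
    · intro h
      exact absurd (Finset.mem_univ _) h
  have hDD : Bg T D D V = 0 := by
    refine (Bg_gv hT d d v).trans ?_
    refine Finset.sum_eq_zero fun j _ => ?_
    rw [hv1, map_zero, mul_zero]
  have hc3 : Bg T c₀ c₀ c₀ = 0 := H c₀ hc1 hc2
  have h000 : Bg T C₀ C₀ C₀ = 0 := by
    change Bg T (fun i => (C (c₀ i) : A)) (fun i => C (c₀ i)) (fun i => C (c₀ i)) = 0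
    rw [hCC, hc3, map_zero]
  have hD00 : Bg T D C₀ C₀ = 0 := by
    change Bg T (fun i => (C (d i) : A)) (fun i => C (c₀ i)) (fun i => C (c₀ i)) = 0
    rw [hCC, hc2, map_zero]
  have hDD0 : Bg T D D C₀ = 0 := by
    change Bg T (fun i => (C (d i) : A)) (fun i => C (d i)) (fun i => C (c₀ i)) = 0
    rw [hCC, hc1, map_zero]
  -- the parametrization
  let W : Fin (n + 2) → A := fun i => a * C₀ i + (-2 * b) * V i
  have hW1 : Bg T D D W = 0 := by
    change Bg T D D (fun i => a * C₀ i + (-2 * b) * V i) = 0
    rw [Bg_add3 T D D (fun i => a * C₀ i) (fun i => (-2 * b) * V i), Bg_smul3, Bg_smul3, hDD0, hDD]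
    ring
  have hlin2 : ∀ x y : Fin (n + 2) → A, Bg T D (fun i => x i + y i) (fun i => x i + y i) =
      Bg T D x x + 2 * Bg T D x y + Bg T D y y := by
    intro x y
    rw [Bg_add2 T D x y, Bg_add3 T D x x y, Bg_add3 T D y x y, Bg_swap23 hT D y x]
    ring
  have hW2 : Bg T D W W = 0 := by
    change Bg T D (fun i => a * C₀ i + (-2 * b) * V i) (fun i => a * C₀ i + (-2 * b) * V i) = 0
    rw [hlin2 (fun i => a * C₀ i) (fun i => (-2 * b) * V i), Bg_smul2, Bg_smul3, Bg_smul2,
      Bg_smul3, Bg_smul2, Bg_smul3, hD00, hDC, ← ha]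
    ring
  have hW3 : Bg T W W W = 0 := by
    apply MvPolynomial.funext
    intro y
    rw [map_zero, eval_Bg]
    have e1 := congrArg (eval y) hW1
    have e2 := congrArg (eval y) hW2
    rw [map_zero, eval_Bg] at e1 e2
    have e3 : (fun i => eval y (D i)) = d := by
      funext i
      exact eval_C _
    rw [e3] at e1 e2
    exact H _ e1 e2
  have hexp := Bg_span3 hT C₀ V V a (-2 * b) 0
  have hWe : (fun i => a * C₀ i + (-2 * b) * V i + 0 * V i) = W := by
    funext i
    change _ = a * C₀ i + (-2 * b) * V i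
    ring
  rw [hWe, hW3, h000, ← hmm, ← hg, ← hFV] at hexp
  have hb0 : b ≠ 0 := X_ne_zero _
  have h2A : (2 : A) ≠ 0 := by
    have : CharZero A := inferInstance
    norm_num
  have key : 3 * a ^ 2 * mm = b * (6 * a * g - 4 * b * FV) := by
    have e1 : (2 * b) * (3 * a ^ 2 * mm - b * (6 * a * g - 4 * b * FV)) = 0 := by
      linear_combination hexp
    have e2 := (mul_eq_zero.1 e1).resolve_left (mul_ne_zero h2A hb0)
    exact sub_eq_zero.1 e2
  have hbp : Prime b := X_prime
  -- `b` does not divide `a`
  have hba : ¬ b ∣ a := by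
    rintro ⟨a', ha'⟩
    obtain ⟨y, hy0, hy⟩ := hU
    apply hy
    have e3 : (fun i => eval y (D i)) = d := by
      funext i
      exact eval_C _
    have e4 : (fun i => eval y (V i)) = fun i => ∑ j, y j * v j i := by
      funext i
      exact eval_gv v y i
    refine H _ ?_ ?_
    · have e1 := congrArg (eval y) hDD
      rw [map_zero, eval_Bg, e3, e4] at e1
      exact e1
    · have e1 := congrArg (eval y) ha'
      rw [ha, eval_Bg, e3, e4, map_mul, hb, eval_X, hy0, zero_mul] at e1
      exact e1
  have h3 : ¬ b ∣ (3 : A) := by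
    rintro ⟨q, hq⟩
    have e1 := congrArg (eval 0) hq
    rw [map_mul, hb, eval_X, map_ofNat] at e1
    simp at e1
  have hbm : b ∣ mm := by
    have e1 : b ∣ 3 * a ^ 2 * mm := ⟨_, key⟩
    rcases hbp.dvd_or_dvd e1 with e2 | e2
    · exfalso
      rcases hbp.dvd_or_dvd e2 with e3 | e3
      · exact h3 e3
      · exact hba (hbp.dvd_of_dvd_pow e3)
    · exact e2
  obtain ⟨κ', hκ'⟩ := hbm
  have key2 : a * (6 * g - 3 * a * κ') = b * (4 * FV) := by
    have e1 : b * (a * (6 * g - 3 * a * κ') - b * (4 * FV)) = 0 := by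
      rw [hκ'] at key
      linear_combination -key
    have e2 := (mul_eq_zero.1 e1).resolve_left hb0
    exact sub_eq_zero.1 e2
  obtain ⟨l₀, hl₀⟩ : b ∣ 6 * g - 3 * a * κ' := by
    have e1 : b ∣ a * (6 * g - 3 * a * κ') := ⟨_, key2⟩
    exact (hbp.dvd_or_dvd e1).resolve_left hba
  have key3 : 4 * FV = a * l₀ := by
    have e1 : b * (4 * FV - a * l₀) = 0 := by
      rw [hl₀] at key2
      linear_combination -key2
    have e2 := (mul_eq_zero.1 e1).resolve_left hb0
    exact sub_eq_zero.1 e2
  -- homogeneity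
  have hVh : ∀ i, (V i).IsHomogeneous 1 := fun i => gv_hom v i
  have hDh : ∀ i, (D i).IsHomogeneous 0 := fun i => isHomogeneous_C _ _
  have hah : a.IsHomogeneous 2 := Bg_hom T D V V 0 1 1 hDh hVh hVh
  have hFVh : FV.IsHomogeneous 3 := Bg_hom T V V V 1 1 1 hVh hVh hVh
  set l : A := homogeneousComponent 1 l₀ with hl
  have hlh : l.IsHomogeneous 1 := homogeneousComponent_isHomogeneous _ _
  have key4 : 4 * FV = a * l := by
    have e1 := congrArg (homogeneousComponent (2 + 1)) key3
    rw [comp_mul hah, ← hl] at e1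
    rw [← e1]
    have e2 : (4 * FV : A).IsHomogeneous 3 := by
      have e3 : (4 : A) = C (4 : K) := by rw [map_ofNat]
      rw [e3]
      exact hFVh.C_mul _
    rw [homogeneousComponent_of_mem e2, if_pos rfl]
  -- a singular point over the algebraic closure
  let κ := AlgebraicClosure K
  let μ : A →ₐ[ℂ] MvPolynomial (Option (Fin m)) κ :=
    mapAlgHom (IsScalarTower.toAlgHom ℂ K κ)
  have hμ : ∀ x : A, μ x = map (algebraMap K κ) x := fun _ => rfl
  let V' : Fin (n + 2) → MvPolynomial (Option (Fin m)) κ := fun i => μ (V i)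
  have hV' : V' = gv (fun j i => algebraMap K κ (v j i)) := by
    funext i
    exact map_gv (algebraMap K κ) v i
  have hV'h : ∀ i, (V' i).IsHomogeneous 1 := by
    intro i
    rw [hV']
    exact gv_hom _ i
  let Ψ : Fin 3 → MvPolynomial (Option (Fin m)) κ :=
    ![μ a, μ l, Bg T (fun i => C (algebraMap K κ (e i))) V' V']
  obtain ⟨z, hz0, hz⟩ := common_zero (κ := κ) (I := Option (Fin m)) (Q := Fin 3) ![2, 1, 2]
    (by
      intro q
      fin_cases q <;> simp) Ψ (by
      intro q
      fin_cases q
      · exact hah.map _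
      · exact hlh.map _
      · have e1 := Bg_hom T (fun i => (C (algebraMap K κ (e i)) :
          MvPolynomial (Option (Fin m)) κ)) V' V' 0 1 1 (fun i => isHomogeneous_C _ _) hV'h hV'h
        exact e1) (by
      rw [Fintype.card_fin, Fintype.card_option, Fintype.card_fin]
      omega)
  have z1 : eval z (μ a) = 0 := hz 0
  have z2 : eval z (μ l) = 0 := hz 1
  have z3 : eval z (Bg T (fun i => C (algebraMap K κ (e i))) V' V') = 0 := hz 2
  set p : Fin (n + 2) → κ := fun i => ∑ j, z j * algebraMap K κ (v j i) with hp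
  have hpV : (fun i => eval z (V' i)) = p := by
    funext i
    rw [hV', eval_gv]
  apply hz0
  refine indep_ext v hv z fun i => ?_
  have hpp : p = 0 := by
    refine smooth_ext hF hsm hT hFT (K := K) (κ := κ) _ hspan p ?_
    rintro s (rfl | ⟨j, rfl⟩)
    · rw [eval_Bg, hpV] at z3
      rw [← z3]
      congr 1
      funext i
      exact (eval_C _).symm
    · -- the derivative
      have e1 := congrArg μ key4
      rw [map_mul, map_mul, map_ofNat] at e1
      have e2 := congrArg (pderiv j) e1
      have e3 : μ FV = Bg T V' V' V' := map_Bg μ T V V V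
      let Dj : Derivation ℂ (MvPolynomial (Option (Fin m)) κ) (MvPolynomial (Option (Fin m)) κ) :=
        (pderiv j).restrictScalars ℂ
      have e4 : pderiv j (μ FV) = 3 * Bg T (fun i => C (algebraMap K κ (v j i))) V' V' := by
        rw [e3]
        have e5 := Bg_der T Dj V' V' V'
        have e6 : (fun i => Dj (V' i)) = fun i => C (algebraMap K κ (v j i)) := by
          funext i
          change pderiv j (V' i) = _
          rw [hV', pderiv_gv]
        rw [e6] at e5
        have e7 : Dj (Bg T V' V' V') = pderiv j (Bg T V' V' V') := rfl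
        rw [← e7, e5, Bg_swap12 hT V' _ V', Bg_swap23 hT V' V', Bg_swap12 hT V' _ V']
        ring
      rw [Derivation.leibniz, Derivation.leibniz, e4] at e2
      have e5 := congrArg (eval z) e2
      have e8 : pderiv j (4 : MvPolynomial (Option (Fin m)) κ) = 0 := by
        have e9 : (4 : MvPolynomial (Option (Fin m)) κ) = C 4 := by rw [map_ofNat]
        rw [e9, pderiv_C]
      rw [e8] at e5
      simp only [smul_eq_mul, map_add, map_mul, mul_zero, add_zero, map_ofNat, z1, z2,
        zero_mul] at e5
      rw [eval_Bg, hpV] at e5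
      have e10 : (fun i => eval z (C (algebraMap K κ (v j i)))) = fun i => algebraMap K κ (v j i) := by
        funext i
        exact eval_C _
      rw [e10] at e5
      have e11 : (4 : κ) * 3 ≠ 0 := by
        have : CharZero κ := charZero_of_injective_algebraMap (algebraMap K κ).injective
        norm_num
      rw [← mul_assoc] at e5
      exact (mul_eq_zero.1 e5).resolve_left e11
  exact congrFun hpp i

/-- **The auxiliary point.** -/
theorem lemC (hn : 3 ≤ n) (hF : F.IsHomogeneous 3) (hsm : Sm F)
    {T : Fin (n + 2) → Fin (n + 2) → Fin (n + 2) → ℂ} (hT : SymG T) (hFT : F = Bg T X X X)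
    {K : Type} [Field K] [Algebra ℂ K] (htr : Algebra.trdeg ℂ K ≤ 1)
    (hpl : ∀ R : Submodule K (Fin (n + 2) → K), (∀ v ∈ R, Bg T v v v = 0) →
      finrank K R + 2 ≤ n)
    (d : Fin (n + 2) → K) (hd : d ≠ 0) :
    ∃ c, Bg T d d c = 0 ∧ Bg T d c c = 0 ∧ Bg T c c c ≠ 0 := by
  classical
  by_contra H'
  push Not at H'
  have H : ∀ c, Bg T d d c = 0 → Bg T d c c = 0 → Bg T c c c = 0 := H'
  have : CharZero K := charZero_of_injective_algebraMap (algebraMap ℂ K).injective
  set φ := lf T d d with hφ
  have hφ0 : φ ≠ 0 := by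
    intro h0
    apply hd
    refine smooth_ext hF hsm hT hFT (K := K) (κ := K) Set.univ (Submodule.span_univ) d ?_
    intro s _
    have h1 := LinearMap.congr_fun h0 s
    rw [hφ, lf_apply, LinearMap.zero_apply] at h1
    rw [Bg_swap12 hT, Bg_swap23 hT]
    exact h1
  set U₁ := LinearMap.ker φ with hU₁
  have hU₁d : finrank K (Fin (n + 2) → K) ≤ finrank K U₁ + 1 := finrank_ker_ge φ
  rw [Module.finrank_fin_fun] at hU₁d
  -- the radical
  let Rad : Submodule K (Fin (n + 2) → K) :=
    { carrier := {u | Bg T d d u = 0 ∧ ∀ v, Bg T d d v = 0 → Bg T d u v = 0}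
      add_mem' := by
        rintro a b ⟨ha1, ha2⟩ ⟨hb1, hb2⟩
        refine ⟨?_, fun v hv => ?_⟩
        · have := Bg_add3 T d d a b
          rw [ha1, hb1, add_zero] at this
          exact this
        · have := Bg_add2 T d a b v
          rw [ha2 v hv, hb2 v hv, add_zero] at this
          exact this
      zero_mem' := by
        refine ⟨(lf T d d).map_zero, fun v hv => ?_⟩
        rw [Bg_swap23 hT]
        exact (lf T d v).map_zero
      smul_mem' := by
        rintro c a ⟨ha1, ha2⟩
        refine ⟨?_, fun v hv => ?_⟩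
        · have := Bg_smul3 T c d d a
          rw [ha1, mul_zero] at this
          exact this
        · have := Bg_smul2 T c d a v
          rw [ha2 v hv, mul_zero] at this
          exact this }
  have hRad : ∀ u, u ∈ Rad ↔ (Bg T d d u = 0 ∧ ∀ v, Bg T d d v = 0 → Bg T d u v = 0) :=
    fun u => Iff.rfl
  have hRadd : finrank K Rad + 2 ≤ n := by
    apply hpl
    intro v hv
    rw [hRad] at hv
    exact H v hv.1 (hv.2 v hv.1)
  obtain ⟨Cc, hCc⟩ := Submodule.exists_isCompl Rad
  have hCcd := Submodule.finrank_add_eq_of_isCompl hCc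
  rw [Module.finrank_fin_fun] at hCcd
  set S := Cc ⊓ U₁ with hS
  have hSd : 3 ≤ finrank K S := by
    have h1 := Submodule.finrank_sup_add_finrank_inf_eq Cc U₁
    have h2 := Submodule.finrank_le (Cc ⊔ U₁)
    rw [Module.finrank_fin_fun] at h2
    rw [← hS] at h1
    omega
  -- the isotropic vector
  obtain ⟨c₀, hc₀S, hc₀0, hc2⟩ : ∃ c₀ ∈ S, c₀ ≠ 0 ∧ Bg T d c₀ c₀ = 0 := by
    let s := Module.finBasis K S
    let s' : Fin (finrank K S) → Fin (n + 2) → K := fun j => (s j : Fin (n + 2) → K)
    obtain ⟨y, hy0, hy⟩ := Pool.Agent.N230.FC.quad_zero (k := ℂ) (F := K) 1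
      (by exact_mod_cast htr) (I := Fin (finrank K S))
      (Bg T (fun i => (C (d i) : MvPolynomial (Fin (finrank K S)) K)) (gv s') (gv s')) (by
        have e1 := Bg_hom T (fun i => (C (d i) : MvPolynomial (Fin (finrank K S)) K)) (gv s')
          (gv s') 0 1 1 (fun i => isHomogeneous_C _ _) (fun i => gv_hom _ i) (fun i => gv_hom _ i)
        exact e1) (by
        rw [Fintype.card_fin]
        omega)
    refine ⟨∑ j, y j • s' j, ?_, ?_, ?_⟩
    · exact S.sum_mem fun j _ => S.smul_mem _ (s j).2
    · intro h0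
      apply hy0
      funext j
      have h1 := s.linearIndependent
      rw [Fintype.linearIndependent_iff] at h1
      refine h1 y ?_ j
      apply Subtype.ext
      rw [AddSubmonoidClass.coe_finsetSum]
      simpa using h0
    · rw [eval_Bg] at hy
      have e1 : (fun i => eval y (gv s' i)) = ∑ j, y j • s' j := by
        funext i
        rw [eval_gv, Finset.sum_apply]
        rfl
      have e2 : (fun i => eval y (C (d i))) = d := by
        funext i
        exact eval_C _
      rw [e1, e2] at hy
      exact hy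
  have hc1 : Bg T d d c₀ = 0 := hc₀S.2
  have hc₀R : c₀ ∉ Rad := by
    intro h
    apply hc₀0
    have h1 := hCc.disjoint.le_bot (show c₀ ∈ Rad ⊓ Cc from ⟨h, hc₀S.1⟩)
    exact (Submodule.mem_bot K).1 h1
  obtain ⟨v₁, hv₁, hv₁'⟩ : ∃ v₁, Bg T d d v₁ = 0 ∧ Bg T d c₀ v₁ ≠ 0 := by
    by_contra hcon
    push Not at hcon
    exact hc₀R ((hRad c₀).2 ⟨hc1, hcon⟩)
  set ψ := lf T d c₀ with hψ
  set U := U₁ ⊓ LinearMap.ker ψ with hU
  have hUd : n ≤ finrank K U := by
    have h1 := Submodule.finrank_sup_add_finrank_inf_eq U₁ (LinearMap.ker ψ)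
    have h2 := Submodule.finrank_le (U₁ ⊔ LinearMap.ker ψ)
    have h3 := finrank_ker_ge ψ
    rw [Module.finrank_fin_fun] at h2 h3
    rw [← hU] at h1
    omega
  -- vectors
  obtain ⟨e₁, he₁⟩ : ∃ e₁, φ e₁ ≠ 0 := by
    by_contra hcon
    push Not at hcon
    exact hφ0 (LinearMap.ext hcon)
  let v₀ : Fin (n + 2) → K := fun i => (Bg T d c₀ v₁)⁻¹ * v₁ i
  have hv₀1 : Bg T d d v₀ = 0 := by
    change Bg T d d (fun i => (Bg T d c₀ v₁)⁻¹ * v₁ i) = 0
    rw [Bg_smul3, hv₁, mul_zero]
  have hv₀2 : Bg T d c₀ v₀ = 1 := by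
    change Bg T d c₀ (fun i => (Bg T d c₀ v₁)⁻¹ * v₁ i) = 1
    rw [Bg_smul3, inv_mul_cancel₀ hv₁']
  let u := Module.finBasis K U
  let v : Option (Fin (finrank K U)) → Fin (n + 2) → K := fun o =>
    o.elim v₀ fun j => (u j : Fin (n + 2) → K)
  have hu1 : ∀ j, Bg T d d (u j : Fin (n + 2) → K) = 0 := fun j => (u j).2.1
  have hu2 : ∀ j, Bg T d c₀ (u j : Fin (n + 2) → K) = 0 := fun j => (u j).2.2
  have huspan : Submodule.span K (Set.range fun j => (u j : Fin (n + 2) → K)) = U := by
    have e2 : (Set.range fun j => (u j : Fin (n + 2) → K)) = U.subtype '' Set.range u := by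
      rw [← Set.range_comp]
      rfl
    rw [e2, ← Submodule.map_span, u.span_eq, Submodule.map_top, Submodule.range_subtype]
  refine lemC_poly hn hF hsm hT hFT d c₀ H hc1 hc2 hUd v e₁ ?_ ?_ ?_ ?_ ?_
  · -- independence
    rw [Fintype.linearIndependent_iff]
    intro g hg
    rw [Fintype.sum_option] at hg
    have h0 : g none = 0 := by
      have e1 := congrArg ψ hg
      rw [map_add, map_smul, map_sum, map_zero] at e1
      rw [Finset.sum_eq_zero (fun j _ => by
        rw [map_smul]
        change g (some j) • Bg T d c₀ (u j : Fin (n + 2) → K) = 0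
        rw [hu2, smul_zero]), add_zero] at e1
      change g none • Bg T d c₀ v₀ = 0 at e1
      rwa [hv₀2, smul_eq_mul, mul_one] at e1
    rw [h0, zero_smul, zero_add] at hg
    have h1 := u.linearIndependent
    rw [Fintype.linearIndependent_iff] at h1
    have h2 := h1 (fun j => g (some j)) (by
      apply Subtype.ext
      rw [AddSubmonoidClass.coe_finsetSum]
      exact hg)
    intro o
    rcases o with _ | j
    · exact h0
    · exact h2 j
  · -- spanning
    rw [eq_top_iff]
    intro x _
    set x₁ := x - (φ x / φ e₁) • e₁ with hx₁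
    have e1 : φ x₁ = 0 := by
      rw [hx₁, map_sub, map_smul, smul_eq_mul, div_mul_cancel₀ _ he₁, sub_self]
    set x₂ := x₁ - (ψ x₁) • v₀ with hx₂
    have e2 : x₂ ∈ U := by
      refine ⟨?_, ?_⟩
      · change φ x₂ = 0
        rw [hx₂, map_sub, map_smul, e1]
        change 0 - ψ x₁ • Bg T d d v₀ = 0
        rw [hv₀1, smul_zero, sub_zero]
      · change ψ x₂ = 0
        rw [hx₂, map_sub, map_smul]
        change ψ x₁ - ψ x₁ • Bg T d c₀ v₀ = 0
        rw [hv₀2, smul_eq_mul, mul_one, sub_self]
    have e3 : x = x₂ + (ψ x₁) • v₀ + (φ x / φ e₁) • e₁ := by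
      rw [hx₂, hx₁]
      abel
    rw [e3]
    refine Submodule.add_mem _ (Submodule.add_mem _ ?_ ?_) ?_
    · rw [← huspan] at e2
      refine Submodule.span_mono ?_ e2
      rintro _ ⟨j, rfl⟩
      exact Set.mem_insert_of_mem _ ⟨some j, rfl⟩
    · exact Submodule.smul_mem _ _ (Submodule.subset_span (Set.mem_insert_of_mem _ ⟨none, rfl⟩))
    · exact Submodule.smul_mem _ _ (Submodule.subset_span (Set.mem_insert _ _))
  · intro o
    rcases o with _ | j
    · exact hv₀1
    · exact hu1 j
  · intro o
    rcases o with _ | j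
    · rw [if_pos rfl]
      exact hv₀2
    · rw [if_neg (by simp)]
      exact hu2 j
  · -- not contained in the cubic
    by_contra hcon
    push Not at hcon
    have h1 := hpl U (by
      intro x hx
      have e1 : x = fun i => ∑ j, (Option.elim · 0 (fun j => u.repr ⟨x, hx⟩ j) :
          Option (Fin (finrank K U)) → K) j * v j i := by
        funext i
        rw [Fintype.sum_option]
        change x i = 0 * _ + ∑ j, u.repr ⟨x, hx⟩ j * (u j : Fin (n + 2) → K) i
        rw [zero_mul, zero_add]
        have e2 := congrArg (fun y : U => (y : Fin (n + 2) → K) i) (u.sum_repr ⟨x, hx⟩)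
        simp only at e2
        rw [AddSubmonoidClass.coe_finsetSum, Finset.sum_apply] at e2
        exact e2.symm
      rw [e1]
      exact hcon _ rfl)
    omega

end

end Pool.Agent.K9h4
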