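import Mathlib
import Pool.Agent.K9h4.Ns

/-! # Points of curves: places -/

set_option autoImplicit false

namespace Pool.Agent.K9h4

open MvPolynomial Pool.Agent.TH314.PD Module FF IntermediateField Pool.Agent.Y201.C3
open Pool.Agent.R845.T2 Pool.Agent.R845.E3 Pool.Agent.N122

noncomputable section

theorem mem_range_of_algebraic {L : Type} [Field L] [Algebra ℂ L] (z : L)
    (hz : IsAlgebraic ℂ z) : ∃ u : ℂ, algebraMap ℂ L u = z := by
  have h1 := minpoly.irreducible hz.isIntegral
  have h2 := IsAlgClosed.degree_eq_one_of_irreducible ℂ h1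
  exact minpoly.mem_range_of_degree_eq_one ℂ z h2

/-- residues of a field of transcendence degree one at a place which is not trivial on it -/
theorem kap_const {K L : Type} [Field K] [Field L] [Algebra ℂ K] [Algebra K L] [Algebra ℂ L]
    [IsScalarTower ℂ K L] (htr : Algebra.trdeg ℂ K ≤ 1) (w : Place ℂ L)
    (hw : ∃ k : K, k ≠ 0 ∧ w.ord (algebraMap K L k) ≠ 0) (z : w.RF) (hz : z ∈ NT.kap K w) :
    ∃ u : ℂ, algebraMap ℂ w.RF u = z := by
  obtain ⟨k, hk, hwk⟩ := hw
  refine mem_range_of_algebraic z ?_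
  by_contra htz
  apply hwk
  refine NT.trivial_of_indep w (fun _ : Unit => z) ?_ (fun _ => ?_) ?_ k hk
  · exact (algebraicIndependent_singleton_iff ()).2 htz
  · exact isAlgebraic_algebraMap (⟨z, hz⟩ : NT.kap K w)
  · simpa using htr

variable {n : ℕ} {F : MvPolynomial (Fin (n + 2)) ℂ}

/-- the case of a place which is not trivial on the field of definition of the line -/
theorem case_nontrivial (hn : 4 ≤ n) (hsm : Sm F)
    {T : Fin (n + 2) → Fin (n + 2) → Fin (n + 2) → ℂ} (hT : SymG T) (hFT : F = Bg T X X X)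
    {K L : Type} [Field K] [Field L] [Algebra ℂ K] [Algebra K L] [Algebra ℂ L]
    [IsScalarTower ℂ K L] (htr : Algebra.trdeg ℂ K ≤ 1) (w : Place ℂ L)
    (hw : ∃ k : K, k ≠ 0 ∧ w.ord (algebraMap K L k) ≠ 0)
    (d c : Fin (n + 2) → K) (hdc : LinearIndependent K ![d, c])
    (P W : Fin (n + 2) → L) (hP : ∀ i, w.Reg (P i)) (hgen : Gen fun i => w.red (P i))
    (hodd : Odd (finrank (ratioField fun i => w.red (P i)) w.RF))
    (α β : L) (hW : ∀ i, W i = α * algebraMap K L (d i) + β * algebraMap K L (c i))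
    (hWreg : ∀ i, w.Reg (W i)) (hPW : Bg T (fun i => P i - W i) (fun i => P i - W i)
      (fun i => P i - W i) = 0) (hord : 0 < w.ord (Bg T W W W)) : False := by
  classical
  obtain ⟨-, i₀, j₀, hD, hmin⟩ := NT.exists_minor w hdc
  have hq : ∀ k l : Fin (n + 2), w.Reg (algebraMap K L
      ((d k * c l - d l * c k) / (d i₀ * c j₀ - d j₀ * c i₀))) := by
    intro k l
    by_cases h0 : d k * c l - d l * c k = 0
    · rw [h0, zero_div, map_zero]; exact w.reg_zero
    · right
      rw [map_div₀, w.ord_div ((map_ne_zero _).2 h0) ((map_ne_zero _).2 hD)]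
      have := hmin k l h0
      omega
  have hU : ∀ k : Fin (n + 2), ∃ u : ℂ, algebraMap ℂ w.RF u = w.red (algebraMap K L
      ((d k * c j₀ - d j₀ * c k) / (d i₀ * c j₀ - d j₀ * c i₀))) := fun k =>
    kap_const htr w hw _ (NT.mem_kap w (hq _ _))
  have hV : ∀ k : Fin (n + 2), ∃ u : ℂ, algebraMap ℂ w.RF u = w.red (algebraMap K L
      ((d i₀ * c k - d k * c i₀) / (d i₀ * c j₀ - d j₀ * c i₀))) := fun k =>
    kap_const htr w hw _ (NT.mem_kap w (hq _ _))
  choose U hU using hU
  choose V hV using hV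
  set z : Fin (n + 2) → w.RF := fun i => w.red (W i) with hz
  have hzk : ∀ k, z k = ∑ l, (![z i₀, z j₀] : Fin 2 → w.RF) l *
      algebraMap ℂ w.RF ((![U, V] : Fin 2 → Fin (n + 2) → ℂ) l k) := by
    intro k
    rw [Fin.sum_univ_two]
    simp only [Matrix.cons_val_zero, Matrix.cons_val_one]
    have h1 : W k = W i₀ * algebraMap K L
        ((d k * c j₀ - d j₀ * c k) / (d i₀ * c j₀ - d j₀ * c i₀)) + W j₀ * algebraMap K L
        ((d i₀ * c k - d k * c i₀) / (d i₀ * c j₀ - d j₀ * c i₀)) := by
      have h2 : algebraMap K L (d i₀ * c j₀ - d j₀ * c i₀) ≠ 0 := (map_ne_zero _).2 hD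
      rw [map_div₀, map_div₀, hW k, hW i₀, hW j₀]
      simp only [map_sub, map_mul] at h2 ⊢
      rw [mul_div_assoc', mul_div_assoc', ← add_div, eq_div_iff h2]
      ring
    rw [hU, hV, hz]
    simp only
    conv_lhs => rw [h1]
    rw [w.red_add (w.reg_mul (hWreg _) (hq _ _)) (w.reg_mul (hWreg _) (hq _ _)),
      w.red_mul (hWreg _) (hq _ _), w.red_mul (hWreg _) (hq _ _)]
  have hz' : z = fun k => ∑ l, (![z i₀, z j₀] : Fin 2 → w.RF) l *
      algebraMap ℂ w.RF ((![U, V] : Fin 2 → Fin (n + 2) → ℂ) l k) := funext hzk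
  have hsize := size_span (![U, V] : Fin 2 → Fin (n + 2) → ℂ) (![z i₀, z j₀] : Fin 2 → w.RF)
  rw [← hz'] at hsize
  obtain ⟨z0, ψ, b, b0, hψ, hc0, e1, e2, e3⟩ := exists_pt hT z (by omega)
  have hzz := red_Bg w T W W W hWreg hWreg hWreg
  have hzzz : Bg T z z z = 0 := by
    rw [← hzz.2, w.red_eq_zero_iff hzz.1]
    exact Or.inr hord
  refine odd1 hsm hT hFT (fun i => w.red (P i)) hgen hodd z0 ψ b b0 hψ z hc0 hzzz e1 e2 e3
    (-1) ?_
  have hPWreg : ∀ i, w.Reg (P i - W i) := by
    intro i
    rw [sub_eq_add_neg]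
    exact w.reg_add (hP i) (w.reg_neg (hWreg i))
  have h5 := (red_Bg w T _ _ _ hPWreg hPWreg hPWreg).2
  rw [hPW, w.red_zero] at h5
  have h6 : (fun i => w.red (P i) + -1 * z i) = fun i => w.red (P i - W i) := by
    funext i
    rw [w.red_sub (hP i) (hWreg i), hz]
    ring
  rw [h6]
  conv_lhs => rw [hFT]
  rw [aeval_frmG]
  exact h5.symm

/-- the case of a place which is trivial on the field of definition of the line -/
theorem case_trivial {T : Fin (n + 2) → Fin (n + 2) → Fin (n + 2) → ℂ} (hT : SymG T)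
    {K E : Type} [Field K] [Field E] [Algebra ℂ K] [Algebra K E] [Algebra ℂ E]
    [IsScalarTower ℂ K E] (p₀ : Fin (n + 2) → E) (hgen₀ : Gen p₀)
    (hfd : FiniteDimensional (ratioField p₀) E)
    (d c : Fin (n + 2) → K)
    (h1 : Bg T d d d = 0) (h2 : Bg T d d c = 0) (h3 : Bg T d c c = 0) (h4 : Bg T c c c ≠ 0)
    (w : Place ℂ (LF E)) (hw : ∀ k : K, k ≠ 0 → w.ord (algebraMap K (LF E) k) = 0)
    (P W : Fin (n + 2) → LF E) (q α : LF E) (hq : q ≠ 0)
    (hPe : ∀ i, P i = (algebraMap E (LF E) (p₀ i) +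
      algebraMap (Polynomial E) (LF E) Polynomial.X * algebraMap K (LF E) (c i)) / q)
    (hP0 : P 0 = 1) (hP : ∀ i, w.Reg (P i)) (hgen : Gen fun i => w.red (P i))
    (hW : ∀ i, W i = α * algebraMap K (LF E) (d i) +
      (algebraMap (Polynomial E) (LF E) Polynomial.X / q) * algebraMap K (LF E) (c i))
    (hord : 0 < w.ord (Bg T W W W)) : w = wc (0 : E) := by
  classical
  set lam : LF E := algebraMap (Polynomial E) (LF E) Polynomial.X with hlam
  set β : LF E := lam / q with hβ
  have hlam0 : lam ≠ 0 := by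
    rw [hlam, Ne, map_eq_zero_iff _ inj_LF]
    exact Polynomial.X_ne_zero
  have hβ0 : β ≠ 0 := div_ne_zero hlam0 hq
  have hKreg : ∀ k : K, w.Reg (algebraMap K (LF E) k) := by
    intro k
    by_cases hk : k = 0
    · rw [hk, map_zero]
      exact w.reg_zero
    · exact Or.inr (hw k hk).ge
  -- the value of the cubic form
  have hmap : ∀ u v x : Fin (n + 2) → K, Bg T (fun i => algebraMap K (LF E) (u i))
      (fun i => algebraMap K (LF E) (v i)) (fun i => algebraMap K (LF E) (x i)) =
      algebraMap K (LF E) (Bg T u v x) := fun u v x =>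
    (map_Bg (IsScalarTower.toAlgHom ℂ K (LF E)) T u v x).symm
  have hf : Bg T W W W = β ^ 3 * algebraMap K (LF E) (Bg T c c c) := by
    have e1 := Bg_span3 hT (fun i => algebraMap K (LF E) (d i))
      (fun i => algebraMap K (LF E) (c i)) (fun i => algebraMap K (LF E) (c i)) α β 0
    have e2 : (fun i => α * algebraMap K (LF E) (d i) + β * algebraMap K (LF E) (c i) +
        0 * algebraMap K (LF E) (c i)) = W := by
      funext i
      rw [hW]
      ring
    rw [e2, hmap, hmap, hmap, hmap, h1, h2, h3] at e1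
    rw [e1]
    simp only [map_zero]
    ring
  have hc0 : algebraMap K (LF E) (Bg T c c c) ≠ 0 := (map_ne_zero _).2 h4
  have hβord : 0 < w.ord β := by
    rw [hf, w.ord_mul (pow_ne_zero _ hβ0) hc0, w.ord_pow, hw _ h4] at hord
    push_cast at hord
    omega
  have hβreg : w.Reg β := Or.inr hβord.le
  have hβred : w.red β = 0 := (w.red_eq_zero_iff hβreg).2 (Or.inr hβord)
  -- the coordinates of the point
  set Q : Fin (n + 2) → LF E := fun i => algebraMap E (LF E) (p₀ i) / q with hQ
  have hQP : ∀ i, Q i = P i - β * algebraMap K (LF E) (c i) := by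
    intro i
    rw [hPe, hQ, hβ]
    field_simp
    ring
  have hQreg : ∀ i, w.Reg (Q i) := by
    intro i
    rw [hQP, sub_eq_add_neg]
    exact w.reg_add (hP i) (w.reg_neg (w.reg_mul hβreg (hKreg _)))
  have hQred : ∀ i, w.red (Q i) = w.red (P i) := by
    intro i
    rw [hQP, w.red_sub (hP i) (w.reg_mul hβreg (hKreg _)), w.red_mul hβreg (hKreg _), hβred,
      zero_mul, sub_zero]
  have hQ0 : w.red (Q 0) = 1 := by rw [hQred, hP0, w.red_one]
  have hQ0' : w.red (Q 0) ≠ 0 := by rw [hQ0]; exact one_ne_zero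
  obtain ⟨hinv, hinvr⟩ := NT.reg_inv w hQ0' (hQreg 0)
  have hp0 : p₀ 0 ≠ 0 := gen_ne hgen₀ 0
  have hp0' : algebraMap E (LF E) (p₀ 0) ≠ 0 := (map_ne_zero _).2 hp0
  have hrat : ∀ i, algebraMap E (LF E) (p₀ i / p₀ 0) = Q i * (Q 0)⁻¹ := by
    intro i
    rw [map_div₀, hQ]
    field_simp
  have hratreg : ∀ i, w.Reg (algebraMap E (LF E) (p₀ i / p₀ 0)) := by
    intro i
    rw [hrat]
    exact w.reg_mul (hQreg i) hinv
  have hratred : ∀ i, w.red (algebraMap E (LF E) (p₀ i / p₀ 0)) = w.red (P i) := by
    intro i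
    rw [hrat, w.red_mul (hQreg i) hinv, hinvr, hQ0, inv_one, mul_one, hQred]
  -- the place is trivial on `E`
  have hind := ((gen_iff _).1 hgen).2
  have htriv : ∀ e : E, e ≠ 0 → w.ord (algebraMap E (LF E) e) = 0 := by
    intro e he
    refine NT.trivial_of_indep w (fun j : Fin (n + 1) => w.red (P j.succ)) ?_ ?_ ?_ e he
    · convert hind using 1
      funext j
      rw [hP0, w.red_one, div_one]
    · intro j
      have h5 : w.red (P j.succ) ∈ NT.kap E w := ⟨_, hratreg j.succ, hratred j.succ⟩
      exact isAlgebraic_algebraMap (⟨_, h5⟩ : NT.kap E w)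
    · have h6 := trdeg_le_gen p₀ hgen₀
      simpa using h6
  have hqord : w.ord q = 0 := by
    have h5 : w.ord (Q 0) = 0 := by
      have h6 : ¬ (Q 0 = 0 ∨ 0 < w.ord (Q 0)) := fun h => hQ0' ((w.red_eq_zero_iff (hQreg 0)).2 h)
      push Not at h6
      have h7 := (w.reg_iff h6.1).1 (hQreg 0)
      omega
    rw [hQ] at h5
    simp only at h5
    rw [w.ord_div hp0' hq, htriv _ hp0] at h5
    omega
  have hlamord : 0 < w.ord lam := by
    rw [hβ, w.ord_div hlam0 hq, hqord] at hβord
    omega
  refine eq_wc 0 w (fun e he => htriv e he) ?_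
  rw [Polynomial.C_0, sub_zero]
  exact hlamord

/-- **The main lemma on points of curves.** -/
theorem ns1 (hn : 4 ≤ n) (hF : F.IsHomogeneous 3) (hsm : Sm F)
    {T : Fin (n + 2) → Fin (n + 2) → Fin (n + 2) → ℂ} (hT : SymG T) (hFT : F = Bg T X X X)
    {K E : Type} [Field K] [Field E] [Algebra ℂ K] [Algebra K E] [Algebra ℂ E]
    [IsScalarTower ℂ K E] (htr : Algebra.trdeg ℂ K ≤ 1)
    (p₀ : Fin (n + 2) → E) (hgen₀ : Gen p₀) (hodd : Odd (finrank (ratioField p₀) E))
    (d c : Fin (n + 2) → K) (hd : d ≠ 0)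
    (h1 : Bg T d d d = 0) (h2 : Bg T d d c = 0) (h3 : Bg T d c c = 0) (h4 : Bg T c c c ≠ 0)
    (a : E) (ha : Bg T (fun i => p₀ i - a * algebraMap K E (d i))
      (fun i => p₀ i - a * algebraMap K E (d i)) (fun i => p₀ i - a * algebraMap K E (d i)) = 0) :
    False := by
  classical
  have hfd : FiniteDimensional (ratioField p₀) E := FiniteDimensional.of_finrank_pos hodd.pos
  have hp0 : p₀ 0 ≠ 0 := gen_ne hgen₀ 0
  -- linear independence
  have hdc : LinearIndependent K ![d, c] := by
    rw [LinearIndependent.pair_iff]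
    intro u v huv
    have hv : v = 0 := by
      by_contra hv
      apply h4
      have e1 : c = fun i => (-(u / v)) * d i := by
        funext i
        have e2 := congrFun huv i
        simp only [Pi.add_apply, Pi.smul_apply, smul_eq_mul, Pi.zero_apply] at e2
        field_simp
        linear_combination e2
      rw [e1, Bg_smul1, Bg_smul2, Bg_smul3, h1]
      ring
    rw [hv, zero_smul, add_zero] at huv
    exact ⟨(smul_eq_zero.1 huv).resolve_right hd, hv⟩
  set lam : LF E := algebraMap (Polynomial E) (LF E) Polynomial.X with hlam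
  have hlam0 : lam ≠ 0 := by
    rw [hlam, Ne, map_eq_zero_iff _ inj_LF]
    exact Polynomial.X_ne_zero
  let Y : Fin (n + 2) → Polynomial E := fun i =>
    Polynomial.C (p₀ i) + Polynomial.X * Polynomial.C (algebraMap K E (c i))
  have hY0 : (Y 0).eval 0 ≠ 0 := by
    change Polynomial.eval 0 (Polynomial.C (p₀ 0) +
      Polynomial.X * Polynomial.C (algebraMap K E (c 0))) ≠ 0
    rw [Polynomial.eval_add, Polynomial.eval_mul, Polynomial.eval_C, Polynomial.eval_X, zero_mul,
      add_zero]
    exact hp0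
  have hYe : ∀ i, (Y i).eval 0 = p₀ i := by
    intro i
    change Polynomial.eval 0 (Polynomial.C (p₀ i) +
      Polynomial.X * Polynomial.C (algebraMap K E (c i))) = _
    rw [Polynomial.eval_add, Polynomial.eval_mul, Polynomial.eval_C, Polynomial.eval_X, zero_mul,
      add_zero]
  set q : LF E := algebraMap (Polynomial E) (LF E) (Y 0) with hq
  have hq0 : q ≠ 0 := by
    intro h
    have e1 : Y 0 = 0 := inj_LF (h.trans (map_zero _).symm)
    rw [e1, Polynomial.eval_zero] at hY0
    exact hY0 rfl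
  have hKE : ∀ k : K, algebraMap K (LF E) k = algebraMap (Polynomial E) (LF E)
      (Polynomial.C (algebraMap K E k)) := by
    intro k
    rw [IsScalarTower.algebraMap_apply K E (LF E), IsScalarTower.algebraMap_apply E
      (Polynomial E) (LF E)]
    rfl
  have hEL : ∀ e : E, algebraMap E (LF E) e = algebraMap (Polynomial E) (LF E)
      (Polynomial.C e) := by
    intro e
    rw [IsScalarTower.algebraMap_apply E (Polynomial E) (LF E)]
    rfl
  set P : Fin (n + 2) → LF E := fun i => algebraMap (Polynomial E) (LF E) (Y i) / q with hPdef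
  have hPe : ∀ i, P i = (algebraMap E (LF E) (p₀ i) + lam * algebraMap K (LF E) (c i)) / q := by
    intro i
    rw [hPdef]
    simp only
    congr 1
    change algebraMap (Polynomial E) (LF E) (Polynomial.C (p₀ i) +
      Polynomial.X * Polynomial.C (algebraMap K E (c i))) = _
    rw [map_add, map_mul, hEL, hKE]
  have hP0 : P 0 = 1 := div_self hq0
  set α : LF E := algebraMap E (LF E) a / q with hα
  set W : Fin (n + 2) → LF E := fun i => α * algebraMap K (LF E) (d i) +
    (lam / q) * algebraMap K (LF E) (c i) with hW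
  set f : LF E := Bg T W W W with hf
  have hmap : ∀ u v x : Fin (n + 2) → K, Bg T (fun i => algebraMap K (LF E) (u i))
      (fun i => algebraMap K (LF E) (v i)) (fun i => algebraMap K (LF E) (x i)) =
      algebraMap K (LF E) (Bg T u v x) := fun u v x =>
    (map_Bg (IsScalarTower.toAlgHom ℂ K (LF E)) T u v x).symm
  have hfe : f = (lam / q) ^ 3 * algebraMap K (LF E) (Bg T c c c) := by
    have e1 := Bg_span3 hT (fun i => algebraMap K (LF E) (d i))
      (fun i => algebraMap K (LF E) (c i)) (fun i => algebraMap K (LF E) (c i)) α (lam / q) 0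
    have e2 : (fun i => α * algebraMap K (LF E) (d i) + (lam / q) * algebraMap K (LF E) (c i) +
        0 * algebraMap K (LF E) (c i)) = W := by
      funext i
      rw [hW]
      ring
    rw [e2, hmap, hmap, hmap, hmap, h1, h2, h3] at e1
    rw [hf, e1]
    simp only [map_zero]
    ring
  have hc0 : algebraMap K (LF E) (Bg T c c c) ≠ 0 := (map_ne_zero _).2 h4
  have hf0 : f ≠ 0 := by
    rw [hfe]
    exact mul_ne_zero (pow_ne_zero _ (div_ne_zero hlam0 hq0)) hc0
  -- the point of the cubic
  have hPW : ∀ i, P i - W i = q⁻¹ * algebraMap E (LF E) (p₀ i - a * algebraMap K E (d i)) := by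
    intro i
    rw [hPe, hW, hα, map_sub, map_mul, ← IsScalarTower.algebraMap_apply K E (LF E)]
    field_simp
    ring
  have hXX : Bg T (fun i => P i - W i) (fun i => P i - W i) (fun i => P i - W i) = 0 := by
    have e1 : (fun i => P i - W i) = fun i => q⁻¹ * algebraMap E (LF E)
      (p₀ i - a * algebraMap K E (d i)) := funext hPW
    rw [e1, Bg_smul1, Bg_smul2, Bg_smul3]
    have e2 := map_Bg (IsScalarTower.toAlgHom ℂ E (LF E)) T
      (fun i => p₀ i - a * algebraMap K E (d i)) (fun i => p₀ i - a * algebraMap K E (d i))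
      (fun i => p₀ i - a * algebraMap K E (d i))
    rw [ha, map_zero] at e2
    have e3 : Bg T (fun i => algebraMap E (LF E) (p₀ i - a * algebraMap K E (d i)))
      (fun i => algebraMap E (LF E) (p₀ i - a * algebraMap K E (d i)))
      (fun i => algebraMap E (LF E) (p₀ i - a * algebraMap K E (d i))) = 0 := e2.symm
    rw [e3, mul_zero, mul_zero, mul_zero]
  -- the place at the origin
  obtain ⟨hw0reg, hw0red⟩ := wc_line Y (0 : E) hY0
  have hind₀ : AlgebraicIndependent ℂ (fun j : Fin (n + 1) => (wc (0 : E)).red (P j.succ)) := by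
    have e1 := ((gen_iff p₀).1 hgen₀).2
    have e2 := e1.map' (f := (evc (0 : E) : E →ₐ[ℂ] (wc (0 : E)).RF)) (evc_bij (0 : E)).1
    convert e2 using 1
    funext j
    change (wc (0 : E)).red (algebraMap (Polynomial E) (LF E) (Y j.succ) / q) = _
    rw [hw0red, hYe, hYe]
    rfl
  have hw0reg' : ∀ j : Fin (n + 1), (wc (0 : E)).Reg (P j.succ) := fun j => hw0reg j.succ
  have hw0ord : (wc (0 : E)).ord f = 3 := by
    have e1 : (wc (0 : E)).ord lam = 1 := by
      have := wc_ord_X (0 : E)
      rwa [Polynomial.C_0, sub_zero] at this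
    have e2 : (wc (0 : E)).ord q = 0 := wc_ord_of_eval hY0
    have e3 : (wc (0 : E)).ord (algebraMap K (LF E) (Bg T c c c)) = 0 := by
      rw [hKE]
      refine wc_ord_of_eval ?_
      rw [Polynomial.eval_C]
      exact (map_ne_zero _).2 h4
    rw [hfe, Place.ord_mul _ (pow_ne_zero _ (div_ne_zero hlam0 hq0)) hc0, Place.ord_pow,
      Place.ord_div _ hlam0 hq0, e1, e2, e3]
    norm_num
  have hy : AlgebraicIndependent ℂ (fun j : Fin (n + 1) => P j.succ) :=
    indep_of_red (wc (0 : E)) _ hw0reg' hind₀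
  have htrf : Transcendental (adjoin ℂ (Set.range fun j : Fin (n + 1) => P j.succ)) f :=
    transc_of_red (wc (0 : E)) _ hw0reg' hind₀ f (by rw [hw0ord]; norm_num)
  have htrf' : Transcendental (adjoin ℂ (Set.range fun j : Fin (n + 1) => P j.succ)) f⁻¹ :=
    transc_of_red (wc (0 : E)) _ hw0reg' hind₀ f⁻¹ (by rw [Place.ord_inv, hw0ord]; norm_num)
  -- finiteness
  have hadj : adjoin ℂ (insert f⁻¹ (Set.range fun j : Fin (n + 1) => P j.succ)) =
      adjoin ℂ (insert f (Set.range fun j : Fin (n + 1) => P j.succ)) := by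
    apply le_antisymm
    · rw [adjoin_le_iff]
      rintro z (rfl | hz)
      · exact inv_mem (subset_adjoin _ _ (Set.mem_insert _ _))
      · exact subset_adjoin _ _ (Set.mem_insert_of_mem _ hz)
    · rw [adjoin_le_iff]
      rintro z (hz | hz)
      · have := inv_mem (subset_adjoin ℂ (insert f⁻¹ (Set.range fun j : Fin (n + 1) => P j.succ))
          (Set.mem_insert _ _))
        rw [inv_inv] at this
        rw [hz]
        exact this
      · exact subset_adjoin _ _ (Set.mem_insert_of_mem _ hz)
  have hfin : FiniteDimensional (adjoin ℂ (insert f (Set.range fun j : Fin (n + 1) =>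
      P j.succ))) (LF E) := by
    let z : Option (Fin (n + 1)) → LF E := fun o => o.elim f fun j => P j.succ
    have hz : AlgebraicIndependent ℂ z := by
      refine (hy.option_iff_transcendental f).2 ?_
      intro halg
      exact htrf (halg.tower_top_of_subalgebra_le
        (IntermediateField.algebra_adjoin_le_adjoin ℂ _))
    have hzr : Set.range z = insert f (Set.range fun j : Fin (n + 1) => P j.succ) := by
      ext t
      constructor
      · rintro ⟨o, rfl⟩
        rcases o with _ | j
        · exact Set.mem_insert _ _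
        · exact Set.mem_insert_of_mem _ ⟨j, rfl⟩
      · rintro (rfl | ⟨j, rfl⟩)
        · exact ⟨none, rfl⟩
        · exact ⟨some j, rfl⟩
    rw [← hzr]
    exact fd_line p₀ hgen₀ hfd z (by simp) hz
  have hfin' : FiniteDimensional (adjoin ℂ (insert f⁻¹ (Set.range fun j : Fin (n + 1) =>
      P j.succ))) (LF E) := by
    rw [hadj]
    exact hfin
  obtain ⟨S, hS, hsum⟩ := dv (fun j : Fin (n + 1) => P j.succ) f htrf hy hfin
  obtain ⟨S', hS', hsum'⟩ := dv (fun j : Fin (n + 1) => P j.succ) f⁻¹ htrf' hy hfin'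
  rw [hadj] at hsum'
  -- facts for all places
  have hPreg : ∀ w : Place ℂ (LF E), (∀ j : Fin (n + 1), w.Reg (P j.succ)) → ∀ i, w.Reg (P i) := by
    intro w hw i
    refine Fin.cases ?_ (fun j => hw j) i
    rw [hP0]
    exact w.reg_one
  have hPgen : ∀ w : Place ℂ (LF E),
      AlgebraicIndependent ℂ (fun j : Fin (n + 1) => w.red (P j.succ)) →
      Gen fun i => w.red (P i) := by
    intro w hw
    rw [gen_iff]
    refine ⟨by rw [hP0, w.red_one]; exact one_ne_zero, ?_⟩
    convert hw using 1
    funext j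
    rw [hP0, w.red_one, div_one]
  have hPfin : ∀ w : Place ℂ (LF E), finrank (ratioField fun i => w.red (P i)) w.RF =
      finrank (adjoin ℂ (Set.range fun j : Fin (n + 1) => w.red (P j.succ))) w.RF := by
    intro w
    rw [ratioField_eq _ (by rw [hP0, w.red_one]; exact one_ne_zero)]
    have e1 : (fun j : Fin (n + 1) => w.red (P j.succ) / w.red (P 0)) =
        fun j => w.red (P j.succ) := by
      funext j
      rw [hP0, w.red_one, div_one]
    rw [e1]
  have hPWW : (fun i => P i - (P i - W i)) = W := by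
    funext i
    ring
  -- poles
  have heven : Even (finrank (adjoin ℂ (insert f (Set.range fun j : Fin (n + 1) => P j.succ)))
      (LF E)) := by
    rw [← hsum']
    refine Finset.even_sum _ fun w hw => ?_
    obtain ⟨e1, e2, e3⟩ := (hS' w).1 hw
    have e4 : ∃ i, ¬ w.Reg (P i - W i) := by
      by_contra hcon
      push Not at hcon
      have e5 := hPreg w e2
      have e6 : ∀ i, w.Reg (W i) := by
        intro i
        have e7 : W i = P i - (P i - W i) := by ring
        rw [e7, sub_eq_add_neg]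
        exact w.reg_add (e5 i) (w.reg_neg (hcon i))
      have e8 := (w.reg_iff hf0).1 (red_Bg w T W W W e6 e6 e6).1
      rw [Place.ord_inv] at e1
      omega
    rcases pole_alt hF hsm hT hFT w P (fun i => P i - W i) (hPreg w e2) (hPgen w e3) hXX e4
      with e5 | ⟨e5, e6⟩
    · rw [hPfin] at e5
      exact e5.mul_left _
    · rw [hPWW] at e5
      refine Even.mul_right ?_ _
      have e7 : ((w.ord f⁻¹).toNat : ℤ) = - w.ord f := by
        rw [Int.toNat_of_nonneg e1.le, Place.ord_inv]
      have e8 : Even ((w.ord f⁻¹).toNat : ℤ) := by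
        rw [e7]
        exact e5.neg
      exact_mod_cast e8
  -- zeros
  have hwc : wc (0 : E) ∈ S := (hS _).2 ⟨by rw [hw0ord]; norm_num, hw0reg', hind₀⟩
  have hodd' : Odd (finrank (adjoin ℂ (insert f (Set.range fun j : Fin (n + 1) => P j.succ)))
      (LF E)) := by
    rw [← hsum, ← Finset.add_sum_erase S _ hwc]
    refine Odd.add_even ?_ ?_
    · rw [← hPfin, hw0ord]
      have e1 := wc_line_rel Y (0 : E) hY0
      have e2 : (fun i => Polynomial.eval 0 (Y i)) = p₀ := funext hYe
      rw [e2] at e1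
      have e3 : finrank (ratioField fun i => (wc (0 : E)).red (P i)) (wc (0 : E)).RF =
          finrank (ratioField p₀) E := e1
      rw [e3]
      have e4 : Odd (3 : ℤ).toNat := by decide
      exact e4.mul hodd
    · refine Finset.even_sum _ fun w hw => ?_
      obtain ⟨hwne, hwS⟩ := Finset.mem_erase.1 hw
      obtain ⟨e1, e2, e3⟩ := (hS w).1 hwS
      by_contra hcon
      rw [Nat.even_mul, not_or] at hcon
      obtain ⟨-, hne⟩ := hcon
      rw [← hPfin] at hne
      have e5 := hPreg w e2
      have e6 : ∀ i, w.Reg (P i - W i) := by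
        by_contra hc
        push Not at hc
        rcases pole_alt hF hsm hT hFT w P (fun i => P i - W i) e5 (hPgen w e3) hXX hc
          with e7 | ⟨e7, e8⟩
        · exact hne e7
        · rw [hPWW, ← hf] at e8
          omega
      have e7 : ∀ i, w.Reg (W i) := by
        intro i
        have e8 : W i = P i - (P i - W i) := by ring
        rw [e8, sub_eq_add_neg]
        exact w.reg_add (e5 i) (w.reg_neg (e6 i))
      by_cases htrv : ∃ k : K, k ≠ 0 ∧ w.ord (algebraMap K (LF E) k) ≠ 0
      · exact case_nontrivial hn hsm hT hFT htr w htrv d c hdc P W e5 (hPgen w e3)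
          (Nat.not_even_iff_odd.1 hne) α (lam / q) (fun i => rfl) e7 hXX e1
      · push Not at htrv
        exact hwne (case_trivial hT p₀ hgen₀ hfd d c h1 h2 h3 h4 w htrv P W q α hq0 hPe hP0 e5
          (hPgen w e3) (fun i => rfl) e1)
  exact (Nat.not_even_iff_odd.2 hodd') heven

end

end Pool.Agent.K9h4
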