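import Mathlib
import Pool.Agent.K9h4.LemC
import Pool.Agent.K9h4.Ns1
import Pool.Agent.K9h4.Chd

/-! # Chords through points of curves -/

set_option autoImplicit false

namespace Pool.Agent.K9h4

open MvPolynomial Pool.Agent.TH314.PD Module Pool.Agent.Y201.C3 IntermediateField
open Pool.Agent.R845.T2 Pool.Agent.R845.E3 Pool.Agent.N122

noncomputable section

variable {n : ℕ} {F : MvPolynomial (Fin (n + 2)) ℂ}

/-- linear subspaces over extension fields specialize to linear subspaces -/
theorem no_plane_ext {T : Fin (n + 2) → Fin (n + 2) → Fin (n + 2) → ℂ} (hT : SymG T)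
    (hFT : F = Bg T X X X) (r : ℕ) (hpl : ∀ A : Fin r → Fin (n + 2) → ℂ, LinearIndependent ℂ A →
      ¬ ∀ a : Fin r → ℂ, eval (fun i => ∑ l, a l * A l i) F = 0)
    {K : Type} [Field K] [Algebra ℂ K] (R : Submodule K (Fin (n + 2) → K))
    (hR : ∀ v ∈ R, Bg T v v v = 0) : finrank K R < r := by
  classical
  by_contra hcon
  push Not at hcon
  let b := Module.finBasis K R
  let v : Fin r → Fin (n + 2) → K := fun j => (b (Fin.castLE hcon j) : Fin (n + 2) → K)
  have hv : LinearIndependent K v := by
    have h1 := b.linearIndependent.map' R.subtype (Submodule.ker_subtype R)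
    exact h1.comp _ (Fin.castLE_injective hcon)
  obtain ⟨g, hg⟩ := LinearMap.exists_leftInverse_of_injective (Fintype.linearCombination K v)
    (LinearMap.ker_eq_bot.2 hv.fintypeLinearCombination_injective)
  let G : Fin r → Fin (n + 2) → K := fun l i => g (Pi.single i 1) l
  have hG : ∀ l j, ∑ i, G l i * v j i = if l = j then 1 else 0 := by
    intro l j
    have h2 : g (v j) = Pi.single j 1 := by
      have h3 := LinearMap.congr_fun hg (Pi.single j 1)
      rw [LinearMap.comp_apply, Fintype.linearCombination_apply_single, one_smul,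
        LinearMap.id_apply] at h3
      exact h3
    have h4 : g (v j) = ∑ i, v j i • g (Pi.single i 1) := by
      conv_lhs => rw [← Finset.univ_sum_single (v j)]
      rw [map_sum]
      refine Finset.sum_congr rfl fun i _ => ?_
      rw [← map_smul]
      congr 1
      rw [← Pi.single_smul]
      simp
    have h5 := congrFun (h4.symm.trans h2) l
    rw [Finset.sum_apply] at h5
    rw [Pi.single_apply] at h5
    rw [← h5]
    refine Finset.sum_congr rfl fun i _ => ?_
    rw [Pi.smul_apply, smul_eq_mul, mul_comm]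
  -- the algebra of the coordinates
  let Z : Finset K := (Finset.univ.image fun x : Fin r × Fin (n + 2) => v x.1 x.2) ∪
    (Finset.univ.image fun x : Fin r × Fin (n + 2) => G x.1 x.2)
  let A := Algebra.adjoin ℂ (Z : Set K)
  have hvA : ∀ j i, v j i ∈ A := by
    intro j i
    refine Algebra.subset_adjoin ?_
    simp only [Z, Finset.coe_union, Set.mem_union, Finset.mem_coe, Finset.mem_image,
      Finset.mem_univ, true_and]
    exact Or.inl ⟨(j, i), rfl⟩
  have hGA : ∀ j i, G j i ∈ A := by
    intro j i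
    refine Algebra.subset_adjoin ?_
    simp only [Z, Finset.coe_union, Set.mem_union, Finset.mem_coe, Finset.mem_image,
      Finset.mem_univ, true_and]
    exact Or.inr ⟨(j, i), rfl⟩
  have hft : Algebra.FiniteType ℂ A :=
    (Subalgebra.fg_iff_finiteType A).1 ⟨Z, rfl⟩
  obtain ⟨ψ⟩ := exists_point A
  let v₁ : Fin r → Fin (n + 2) → A := fun j i => ⟨v j i, hvA j i⟩
  let G₁ : Fin r → Fin (n + 2) → A := fun j i => ⟨G j i, hGA j i⟩
  have hG₁ : ∀ l j, ∑ i, G₁ l i * v₁ j i = if l = j then 1 else 0 := by
    intro l j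
    apply Subtype.ext
    have h1 := hG l j
    rw [AddSubmonoidClass.coe_finsetSum]
    change ∑ i, G l i * v j i = _
    rw [h1]
    by_cases hlj : l = j
    · rw [if_pos hlj, if_pos hlj]
      rfl
    · rw [if_neg hlj, if_neg hlj]
      rfl
  have hB₁ : ∀ j k l, Bg T (v₁ j) (v₁ k) (v₁ l) = 0 := by
    intro j k l
    apply Subtype.ext
    have h1 := map_Bg A.val T (v₁ j) (v₁ k) (v₁ l)
    change A.val (Bg T (v₁ j) (v₁ k) (v₁ l)) = 0
    rw [h1]
    exact polar_zero hT R hR _ _ _ (b (Fin.castLE hcon j)).2 (b (Fin.castLE hcon k)).2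
      (b (Fin.castLE hcon l)).2
  let v₂ : Fin r → Fin (n + 2) → ℂ := fun j i => ψ (v₁ j i)
  have hB₂ : ∀ j k l, Bg T (v₂ j) (v₂ k) (v₂ l) = 0 := by
    intro j k l
    have h1 := map_Bg ψ T (v₁ j) (v₁ k) (v₁ l)
    rw [hB₁, map_zero] at h1
    exact h1.symm
  refine hpl v₂ ?_ ?_
  · rw [Fintype.linearIndependent_iff]
    intro y hy l
    have h1 : ∀ j, ∑ i, ψ (G₁ l i) * v₂ j i = if l = j then 1 else 0 := by
      intro j
      have h2 := congrArg ψ (hG₁ l j)
      rw [map_sum] at h2
      simp only [map_mul] at h2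
      rw [h2]
      by_cases hlj : l = j
      · rw [if_pos hlj, if_pos hlj, map_one]
      · rw [if_neg hlj, if_neg hlj, map_zero]
    have h2 : ∑ i, ψ (G₁ l i) * (∑ j, y j • v₂ j) i = 0 := by
      rw [hy]
      simp
    have h3 : ∀ i, ψ (G₁ l i) * (∑ j, y j • v₂ j) i = ∑ j, y j * (ψ (G₁ l i) * v₂ j i) := by
      intro i
      rw [Finset.sum_apply, Finset.mul_sum]
      refine Finset.sum_congr rfl fun j _ => ?_
      rw [Pi.smul_apply, smul_eq_mul]
      ring
    rw [Finset.sum_congr rfl fun i _ => h3 i, Finset.sum_comm] at h2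
    simp only [← Finset.mul_sum, h1] at h2
    simpa using h2
  · intro a
    have h1 : eval (fun i => ∑ l, a l * v₂ l i) F = Bg T (fun i => ∑ l, a l * v₂ l i)
        (fun i => ∑ l, a l * v₂ l i) (fun i => ∑ l, a l * v₂ l i) := by
      rw [← coe_aeval_eq_eval, RingHom.coe_coe]
      conv_lhs => rw [hFT]
      exact aeval_frmG T _
    rw [h1, Bg_sum3 hT]
    refine Finset.sum_eq_zero fun j _ => ?_
    rw [Bg_smul3, Bg_sum2 hT, Finset.sum_eq_zero, mul_zero]
    intro k _
    rw [Bg_smul2, Bg_sum1, Finset.sum_eq_zero, mul_zero]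
    intro l _
    rw [Bg_smul1, hB₂, mul_zero]

variable {M : Type} [Field M] [Algebra ℂ M]

/-- **The generic point of a chord through a point of a curve is not of odd degree.** -/
theorem curve_not_special (hn : 4 ≤ n) (hF : F.IsHomogeneous 3) (hsm : Sm F)
    (hplane : n = 4 → ∀ A : Fin 3 → Fin (n + 2) → ℂ, LinearIndependent ℂ A →
      ¬ ∀ a : Fin 3 → ℂ, eval (fun i => ∑ l, a l * A l i) F = 0)
    (x c : Fin (n + 2) → M) (hx : aeval x F = 0) (hc : c ≠ 0) (hcF : aeval c F = 0)
    (htr : Algebra.trdeg ℂ (ratioField c) ≤ 1) : ¬ Special x c := by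
  classical
  rintro ⟨hgen, hodd⟩
  obtain ⟨T, hT, hFT⟩ := exists_tri F hF
  have hev : ∀ {R : Type} [CommRing R] [Algebra ℂ R] (v : Fin (n + 2) → R),
      aeval v F = Bg T v v v := by
    intro R _ _ v
    conv_lhs => rw [hFT]
    exact aeval_frmG T v
  obtain ⟨i₀, hi₀⟩ := Function.ne_iff.1 hc
  rw [Pi.zero_apply] at hi₀
  let d : Fin (n + 2) → ratioField c := fun i => ⟨c i / c i₀, subset_adjoin _ _ ⟨i, i₀, rfl⟩⟩
  have hd : d ≠ 0 := by
    intro h
    have h1 := congrArg Subtype.val (congrFun h i₀)
    change c i₀ / c i₀ = 0 at h1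
    rw [div_self hi₀] at h1
    exact one_ne_zero h1
  have hdd : Bg T d d d = 0 := by
    apply Subtype.ext
    have h1 := map_Bg (ratioField c).val T d d d
    change (ratioField c).val (Bg T d d d) = 0
    rw [h1]
    have h2 : (fun i => (ratioField c).val (d i)) = fun i => (c i₀)⁻¹ * c i := by
      funext i
      change c i / c i₀ = _
      rw [div_eq_inv_mul]
    rw [h2, Bg_smul1, Bg_smul2, Bg_smul3, ← hev, hcF]
    ring
  obtain ⟨c', h2, h3, h4⟩ := lemC (by omega) hF hsm hT hFT htr (by
    intro R hR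
    rcases Nat.lt_or_ge 4 n with h5 | h5
    · have h6 := lin_bound hF hsm hT hFT R hR
      omega
    · have h6 := no_plane_ext hT hFT 3 (hplane (by omega)) R hR
      omega) d hd
  refine ns1 (K := ratioField c) (E := FractionRing (Polynomial M)) hn hF hsm hT hFT htr
    (gl x c) hgen hodd d c' hd hdd h2 h3 h4
    (algebraMap (Polynomial M) (FractionRing (Polynomial M))
      (Polynomial.X * Polynomial.C (c i₀))) ?_
  let f : M →ₐ[ℂ] FractionRing (Polynomial M) := (IsScalarTower.toAlgHom ℂ (Polynomial M)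
      (FractionRing (Polynomial M))).comp (Polynomial.CAlgHom : M →ₐ[ℂ] Polynomial M)
  have h5 : (fun i => gl x c i - algebraMap (Polynomial M) (FractionRing (Polynomial M))
      (Polynomial.X * Polynomial.C (c i₀)) * algebraMap (ratioField c)
        (FractionRing (Polynomial M)) (d i)) = fun i => f (x i) := by
    funext i
    have h6 : algebraMap (ratioField c) (FractionRing (Polynomial M)) (d i) =
        algebraMap (Polynomial M) (FractionRing (Polynomial M)) (Polynomial.C (c i / c i₀)) := by
      rw [IsScalarTower.algebraMap_apply (ratioField c) M (FractionRing (Polynomial M)),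
        IsScalarTower.algebraMap_apply M (Polynomial M) (FractionRing (Polynomial M))]
      rfl
    rw [h6, ← map_mul]
    unfold gl
    rw [← map_sub]
    change _ = algebraMap (Polynomial M) (FractionRing (Polynomial M)) (Polynomial.C (x i))
    congr 1
    rw [mul_assoc, ← Polynomial.C_mul, mul_div_cancel₀ _ hi₀]
    ring
  rw [h5, ← map_Bg f, ← hev, hx, map_zero]

/-- the function field of the cubic has transcendence degree `n` -/
theorem gp_trdeg (hF : F.IsHomogeneous 3) (hF0 : F ≠ 0) (c : Fin (n + 2) → M) (hc : Gp F c) :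
    (n : Cardinal) ≤ Algebra.trdeg ℂ (ratioField c) := by
  obtain ⟨u, hu, hul⟩ := exists_indep hF (by norm_num) hF0 hc.2
  have hmem : ∀ l, u l ∈ ratioField c := by
    intro l
    obtain ⟨a, b, h⟩ := hul l
    rw [h]
    exact subset_adjoin _ _ ⟨a, b, rfl⟩
  let u' : Fin n → ratioField c := fun l => ⟨u l, hmem l⟩
  have hu' : AlgebraicIndependent ℂ u' := by
    refine (AlgHom.algebraicIndependent_iff (ratioField c).val Subtype.val_injective).1 ?_
    exact hu
  have h1 := hu'.cardinalMk_le_trdeg
  simpa using h1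

theorem not_gp_of_trdeg (hn : 4 ≤ n) (hF : F.IsHomogeneous 3) (hsm : Sm F)
    (c : Fin (n + 2) → M) (htr : Algebra.trdeg ℂ (ratioField c) ≤ 1) : ¬ Gp F c := by
  intro h
  have h1 := (gp_trdeg hF (ne_zero_of_smooth (m := n + 1) hsm) c h).trans htr
  have h2 : n ≤ 1 := by exact_mod_cast h1
  omega

theorem indep_of_not_gp (hF : F.IsHomogeneous 3) (x c : Fin (n + 2) → M) (hG : Gp F x)
    (hodd : Odd (finrank (ratioField x) M)) (hc : c ≠ 0) (hpn : ¬ Gp F c) :
    LinearIndependent M ![x, c] := by
  rw [LinearIndependent.pair_iff]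
  intro u v huv
  have hx0 : x 0 ≠ 0 := coord_ne_zero hF (by norm_num) x hG.2 0
  have hu : u = 0 := by
    by_contra hu
    have hv : v ≠ 0 := by
      rintro rfl
      have h1 := congrFun huv 0
      simp only [Pi.add_apply, Pi.smul_apply, smul_eq_mul, zero_mul, add_zero,
        Pi.zero_apply] at h1
      exact (mul_ne_zero hu hx0) h1
    apply hpn
    have h1 : c = fun i => (-(u / v)) * x i := by
      funext i
      have h2 := congrFun huv i
      simp only [Pi.add_apply, Pi.smul_apply, smul_eq_mul, Pi.zero_apply] at h2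
      field_simp
      linear_combination h2
    rw [h1]
    exact (gscale hF x _ (neg_ne_zero.2 (div_ne_zero hu hv)) hG hodd).1
  rw [hu, zero_smul, zero_add] at huv
  exact ⟨hu, (smul_eq_zero.1 huv).resolve_right hc⟩

/-- **Chords through points of curves.** -/
theorem curve_chord (hn : 4 ≤ n) (hF : F.IsHomogeneous 3) (hsm : Sm F)
    (hplane : n = 4 → ∀ A : Fin 3 → Fin (n + 2) → ℂ, LinearIndependent ℂ A →
      ¬ ∀ a : Fin 3 → ℂ, eval (fun i => ∑ l, a l * A l i) F = 0)
    (x c : Fin (n + 2) → M) (hG : Gp F x) (hodd : Odd (finrank (ratioField x) M))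
    (hc : c ≠ 0) (hcF : aeval c F = 0)
    (htr : Algebra.trdeg ℂ (ratioField c) ≤ 1) (s t : M) (hs : s ≠ 0)
    (hst : aeval (fun j => s * x j + t * c j) F = 0) :
    Gp F (fun j => s * x j + t * c j) ∧
      Odd (finrank (ratioField fun j => s * x j + t * c j) M) := by
  have hpn := not_gp_of_trdeg hn hF hsm c htr
  exact chord_of hF hsm x c hG hodd (indep_of_not_gp hF x c hG hodd hc hpn) hpn hcF
    (curve_not_special hn hF hsm hplane x c hG.1 hc hcF htr) s t hs hst

/-- **Conics through points of curves.** -/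
theorem curve_conic (hn : 4 ≤ n) (hF : F.IsHomogeneous 3) (hsm : Sm F)
    (hplane : n = 4 → ∀ A : Fin 3 → Fin (n + 2) → ℂ, LinearIndependent ℂ A →
      ¬ ∀ a : Fin 3 → ℂ, eval (fun i => ∑ l, a l * A l i) F = 0)
    (x c β : Fin (n + 2) → M) (hG : Gp F x) (hodd : Odd (finrank (ratioField x) M))
    (hc : c ≠ 0) (htr : Algebra.trdeg ℂ (ratioField c) ≤ 1)
    (h : ∀ t : M, aeval (fun j => t ^ 2 * c j + t * β j + x j) F = 0) : False := by
  classical
  have : CharZero M := charZero_of_injective_algebraMap (algebraMap ℂ M).injective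
  obtain ⟨T, hT, hFT⟩ := exists_tri F hF
  have hev : ∀ {R : Type} [CommRing R] [Algebra ℂ R] (v : Fin (n + 2) → R),
      aeval v F = Bg T v v v := by
    intro R _ _ v
    conv_lhs => rw [hFT]
    exact aeval_frmG T v
  have hpn := not_gp_of_trdeg hn hF hsm c htr
  -- the point at infinity of the conic is on the cubic
  have hcF : aeval c F = 0 := by
    have hz := coeffs_zero' (M := M) ![Bg T x x x, 3 * Bg T β x x,
      3 * Bg T c x x + 3 * Bg T β β x, 6 * Bg T c β x + Bg T β β β,
      3 * Bg T c c x + 3 * Bg T c β β, 3 * Bg T c c β, Bg T c c c] (by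
        intro t
        have h1 := Bg_span3 hT c β x (t ^ 2) t (1 : M)
        have h2 : (fun i => t ^ 2 * c i + t * β i + 1 * x i) =
            fun i => t ^ 2 * c i + t * β i + x i := by
          funext i
          ring
        rw [h2, ← hev, h t] at h1
        simp only [Fin.sum_univ_succ, Fin.sum_univ_zero]
        simp
        linear_combination -h1)
    have h6 : Bg T c c c = 0 := hz 6
    rw [hev, h6]
  exact conic_of hF hsm x c β hG hodd (indep_of_not_gp hF x c hG hodd hc hpn) hpn hcF
    (curve_not_special hn hF hsm hplane x c hG.1 hc hcF htr) h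

end

end Pool.Agent.K9h4
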