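import Mathlib
import Pool.Agent.K9h4.Cone
import Pool.Agent.R845.E3.ConP

/-! # The homogeneous coordinate ring of a smooth cubic is normal: the different -/

set_option autoImplicit false

namespace Pool.Agent.K9h4

open MvPolynomial Pool.Agent.R845.E3 Pool.Agent.R845.T2 Pool.Agent.TH314.PD Pool.Agent.Y201.C3

noncomputable section

/-- the derivative multiplies integral elements into the ring generated by a root -/
theorem diff_aux {A K : Type} [CommRing A] [IsDomain A] [IsIntegrallyClosed A] [Field K]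
    [Algebra A K] (hinj : Function.Injective (algebraMap A K)) (w : K) (hw : IsIntegral A w)
    (hgen : ∀ z : K, ∃ p q : Polynomial A, Polynomial.aeval w q ≠ 0 ∧
      z * Polynomial.aeval w q = Polynomial.aeval w p)
    (f : Polynomial A) (hf : Polynomial.aeval w f = 0) (α : K) (hα : IsIntegral A α) :
    ∃ g : Polynomial A, Polynomial.aeval w (Polynomial.derivative f) * α =
      Polynomial.aeval w g := by
  have : FaithfulSMul A K := (faithfulSMul_iff_algebraMap_injective A K).2 hinj
  let L := FractionRing A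
  let _ : Algebra L K := FractionRing.liftAlgebra A K
  have hwL : IsIntegral L w := hw.tower_top
  let φ : Polynomial L →ₐ[A] K := (Polynomial.aeval w : Polynomial L →ₐ[L] K).restrictScalars A
  have hφ : ∀ p : Polynomial A, φ (p.map (algebraMap A L)) = Polynomial.aeval w p := by
    intro p
    change Polynomial.aeval w (p.map (algebraMap A L)) = _
    rw [Polynomial.aeval_map_algebraMap]
  have hsurj : Function.Surjective φ := by
    intro z
    obtain ⟨p, q, hq, hz⟩ := hgen z
    have hmem : ∀ v : K, v ∈ Algebra.adjoin L {w} → ∃ r : Polynomial L, φ r = v := by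
      intro v hv
      rw [Algebra.adjoin_singleton_eq_range_aeval] at hv
      obtain ⟨r, hr⟩ := hv
      exact ⟨r, hr⟩
    apply hmem
    have h1 : ∀ p : Polynomial A, Polynomial.aeval w p ∈ IntermediateField.adjoin L {w} := by
      intro p
      have h2 := IntermediateField.adjoin_simple_toSubalgebra_of_isAlgebraic hwL.isAlgebraic
      rw [← IntermediateField.mem_toSubalgebra, h2, ← hφ,
        Algebra.adjoin_singleton_eq_range_aeval]
      exact ⟨_, rfl⟩
    rw [← IntermediateField.adjoin_simple_toSubalgebra_of_isAlgebraic hwL.isAlgebraic,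
      IntermediateField.mem_toSubalgebra]
    have h3 : z = Polynomial.aeval w p / Polynomial.aeval w q := by
      rw [eq_div_iff hq, hz]
    rw [h3]
    exact div_mem (h1 p) (h1 q)
  have hmin : minpoly L w = (minpoly A w).map (algebraMap A L) :=
    minpoly.isIntegrallyClosed_eq_field_fractions' L hw
  obtain ⟨g, hg, hgi⟩ := exists_derivative_mul_eq_and_isIntegral_coeff (φ := φ) hsurj
    (f := minpoly L w) (minpoly.monic hwL) (by
      intro i
      rw [hmin, Polynomial.coeff_map]
      exact isIntegral_algebraMap) (by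
      have h1 := minpoly.ker_aeval_eq_span_minpoly L w
      ext p
      have h2 : p ∈ RingHom.ker (Polynomial.aeval w : Polynomial L →ₐ[L] K) ↔
          p ∈ Ideal.span {minpoly L w} := by
        rw [h1]
      exact h2) hα
  -- the coefficients are in the ring
  obtain ⟨g0, hg0⟩ : ∃ g0 : Polynomial A, g0.map (algebraMap A L) = g := by
    have h1 : g ∈ Polynomial.lifts (algebraMap A L) := by
      rw [Polynomial.lifts_iff_coeff_lifts]
      intro i
      obtain ⟨a, ha⟩ := IsIntegrallyClosed.isIntegral_iff.1 (hgi i)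
      exact ⟨a, ha⟩
    rw [Polynomial.mem_lifts] at h1
    exact h1
  obtain ⟨q, hq⟩ := minpoly.isIntegrallyClosed_dvd hw hf
  refine ⟨g0 * q, ?_⟩
  rw [← hg0, hφ, hmin, Polynomial.derivative_map, hφ] at hg
  rw [hq, Polynomial.derivative_mul, map_add, map_mul, map_mul, minpoly.aeval, zero_mul,
    add_zero, map_mul, ← hg]
  ring

/-- translation by a vector -/
def shift {N : ℕ} (e : Fin N → ℂ) : MvPolynomial (Fin N) ℂ →ₐ[ℂ] Polynomial (MvPolynomial (Fin N) ℂ) :=
  aeval (fun i => Polynomial.X * algebraMap ℂ _ (e i) + Polynomial.C (X i))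

theorem shift_inj {N : ℕ} (e : Fin N → ℂ) : Function.Injective (shift e) := by
  intro p q hpq
  have h1 : ∀ p : MvPolynomial (Fin N) ℂ, Polynomial.eval 0 (shift e p) = p := by
    intro p
    have h2 := comp_aeval_apply (f := fun i => (Polynomial.X * algebraMap ℂ
      (Polynomial (MvPolynomial (Fin N) ℂ)) (e i) + Polynomial.C (X i)))
      ((Polynomial.aeval (R := MvPolynomial (Fin N) ℂ) (0 : MvPolynomial (Fin N) ℂ)).restrictScalars
        ℂ) p
    have h3 : ((Polynomial.aeval (R := MvPolynomial (Fin N) ℂ)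
        (0 : MvPolynomial (Fin N) ℂ)).restrictScalars ℂ) (shift e p) =
        Polynomial.eval 0 (shift e p) := by
      rw [AlgHom.restrictScalars_apply, Polynomial.coe_aeval_eq_eval]
    rw [← h3]
    unfold shift
    rw [h2]
    have h4 : (fun i => ((Polynomial.aeval (R := MvPolynomial (Fin N) ℂ)
        (0 : MvPolynomial (Fin N) ℂ)).restrictScalars ℂ) (Polynomial.X * algebraMap ℂ
        (Polynomial (MvPolynomial (Fin N) ℂ)) (e i) + Polynomial.C (X i))) = X := by
      funext i
      rw [AlgHom.restrictScalars_apply, map_add, map_mul, Polynomial.aeval_X, zero_mul, zero_add,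
        Polynomial.aeval_C]
      rfl
    rw [h4, aeval_X_left_apply]
  rw [← h1 p, hpq, h1 q]

/-- the shape of a cubic on a line with constant direction -/
theorem line_form {N : ℕ} {T : Fin N → Fin N → Fin N → ℂ} (hT : SymG T) (e : Fin N → ℂ)
    {B : Type} [CommRing B] [Algebra ℂ B] (y : Fin N → B) :
    aeval (fun i => Polynomial.X * algebraMap ℂ (Polynomial B) (e i) + Polynomial.C (y i))
      (Bg T X X X : MvPolynomial (Fin N) ℂ) =
      Polynomial.C (algebraMap ℂ B (Bg T e e e)) * Polynomial.X ^ 3 +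
        Polynomial.C (3 * Bg T (fun i => algebraMap ℂ B (e i)) (fun i => algebraMap ℂ B (e i)) y) *
          Polynomial.X ^ 2 +
        Polynomial.C (3 * Bg T (fun i => algebraMap ℂ B (e i)) y y) * Polynomial.X +
        Polynomial.C (Bg T y y y) := by
  rw [con_taylor hT]
  have h1 : ∀ u v w : Fin N → B, Bg T (fun i => Polynomial.C (u i)) (fun i => Polynomial.C (v i))
      (fun i => Polynomial.C (w i)) = Polynomial.C (Bg T u v w) := fun u v w =>
    (map_Bg (((Polynomial.CAlgHom : B →ₐ[ℂ] Polynomial B))) T u v w).symm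
  have h2 : (fun i => algebraMap ℂ (Polynomial B) (e i)) =
      fun i => Polynomial.C (algebraMap ℂ B (e i)) := rfl
  rw [h2, h1, h1, h1, h1, Bg_alg]
  simp only [map_mul, map_ofNat]
  ring

theorem no_rel {m : ℕ} {F : MvPolynomial (Fin (m + 1)) ℂ} (hF : F.IsHomogeneous 3)
    (e : Fin (m + 1) → ℂ) (j0 : Fin (m + 1)) (he : e j0 = 1) (heF : eval e F ≠ 0)
    (p : MvPolynomial (Fin m) ℂ)
    (hp : F ∣ aeval (fun i => (X (j0.succAbove i) - C (e (j0.succAbove i)) * X j0 :
      MvPolynomial (Fin (m + 1)) ℂ)) p) : p = 0 := by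
  obtain ⟨T, hT, rfl⟩ := exists_tri F hF
  obtain ⟨Q, hQ⟩ := hp
  set P := aeval (fun i => (X (j0.succAbove i) - C (e (j0.succAbove i)) * X j0 :
      MvPolynomial (Fin (m + 1)) ℂ)) p with hP
  have hTe : Bg T e e e ≠ 0 := by
    intro h
    apply heF
    rw [← coe_aeval_eq_eval, RingHom.coe_coe, aeval_frmG, h]
  have hPs : shift e P = Polynomial.C P := by
    have h1 := comp_aeval_apply (f := (fun i => (X (j0.succAbove i) -
      C (e (j0.succAbove i)) * X j0 : MvPolynomial (Fin (m + 1)) ℂ))) (shift e) p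
    have h2 := comp_aeval_apply (f := (fun i => (X (j0.succAbove i) -
      C (e (j0.succAbove i)) * X j0 : MvPolynomial (Fin (m + 1)) ℂ)))
      (Polynomial.CAlgHom : _ →ₐ[ℂ] Polynomial (MvPolynomial (Fin (m + 1)) ℂ)) p
    rw [← hP] at h1 h2
    rw [h1]
    refine Eq.trans ?_ h2.symm
    congr 2
    funext i
    have h3 : ∀ j, shift e (X j) = Polynomial.X * algebraMap ℂ _ (e j) + Polynomial.C (X j) := by
      intro j
      unfold shift
      rw [aeval_X]
    have h4 : ∀ a : ℂ, shift e (C a) = algebraMap ℂ _ a := by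
      intro a
      rw [← algebraMap_eq, AlgHom.commutes]
    rw [map_sub, map_mul, h3, h3, h4, he, map_one, mul_one]
    change _ = Polynomial.C _
    rw [map_sub, map_mul]
    change _ = Polynomial.C (X (j0.succAbove i)) - algebraMap ℂ _ (e (j0.succAbove i)) *
      Polynomial.C (X j0)
    ring
  have hP0 : P = 0 := by
    by_contra hP0
    have hQ0 : Q ≠ 0 := by
      rintro rfl
      rw [mul_zero] at hQ
      exact hP0 hQ
    have h1 := congrArg (shift e) hQ
    rw [map_mul, hPs] at h1
    have h2 := congrArg Polynomial.natDegree h1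
    have h3 : shift e (Bg T X X X) ≠ 0 := by
      intro h
      rw [h, zero_mul, Polynomial.C_eq_zero] at h1
      exact hP0 h1
    have h4 : shift e Q ≠ 0 := fun h => hQ0 (shift_inj e (h.trans (map_zero _).symm))
    rw [Polynomial.natDegree_C, Polynomial.natDegree_mul h3 h4] at h2
    have h5 : (shift e (Bg T X X X)).coeff 3 ≠ 0 := by
      unfold shift
      rw [line_form hT]
      simp only [Polynomial.coeff_add, Polynomial.coeff_C_mul, Polynomial.coeff_X_pow,
        Polynomial.coeff_X, Polynomial.coeff_C]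
      norm_num
      exact hTe
    have h6 := Polynomial.le_natDegree_of_ne_zero h5
    omega
  have h1 := congrArg (aeval (j0.insertNth 0 X : Fin (m + 1) → MvPolynomial (Fin m) ℂ)) hP0
  rw [hP, comp_aeval_apply, map_zero] at h1
  have h2 : (fun i => aeval (j0.insertNth 0 X : Fin (m + 1) → MvPolynomial (Fin m) ℂ)
      (X (j0.succAbove i) - C (e (j0.succAbove i)) * X j0)) = X := by
    funext i
    rw [map_sub, map_mul, aeval_X, aeval_X, Fin.insertNth_apply_same, mul_zero, sub_zero,
      Fin.insertNth_apply_succAbove]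
  rw [h2, aeval_X_left_apply] at h1
  exact h1

section Dir

variable {m : ℕ} {T : Fin (m + 1) → Fin (m + 1) → Fin (m + 1) → ℂ} {S : Type} [CommRing S]
  [IsDomain S] [Algebra ℂ S] {K : Type} [Field K] [Algebra S K] [IsFractionRing S K]

theorem diff_dir (hT : SymG T) (hF : (Bg T X X X : MvPolynomial (Fin (m + 1)) ℂ).IsHomogeneous 3)
    (x : Fin (m + 1) → S)
    (hsurj : Function.Surjective (aeval x : MvPolynomial (Fin (m + 1)) ℂ →ₐ[ℂ] S))
    (hFx : aeval x (Bg T X X X : MvPolynomial (Fin (m + 1)) ℂ) = 0)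
    (hker : ∀ H : MvPolynomial (Fin (m + 1)) ℂ, aeval x H = 0 → Bg T X X X ∣ H)
    (e : Fin (m + 1) → ℂ) (j0 : Fin (m + 1)) (he : e j0 = 1)
    (heF : eval e (Bg T X X X : MvPolynomial (Fin (m + 1)) ℂ) ≠ 0) (α : K)
    (hα : IsIntegral S α) :
    ∃ s : S, algebraMap S K (3 * Bg T (fun i => algebraMap ℂ S (e i)) x x) * α =
      algebraMap S K s := by
  let A := MvPolynomial (Fin m) ℂ
  let ρ : A →ₐ[ℂ] S := aeval (fun i => x (j0.succAbove i) -
    algebraMap ℂ S (e (j0.succAbove i)) * x j0)
  have hρ : Function.Injective ρ := by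
    rw [injective_iff_map_eq_zero]
    intro p hp
    refine no_rel hF e j0 he heF p (hker _ ?_)
    rw [comp_aeval_apply, ← hp]
    change _ = aeval _ p
    congr 2
    funext i
    rw [map_sub, map_mul, aeval_X, aeval_X, aeval_C]
  let _ : Algebra A S := ρ.toRingHom.toAlgebra
  let _ : Algebra A K := ((algebraMap S K).comp ρ.toRingHom).toAlgebra
  have hAS : ∀ a : A, algebraMap A S a = ρ a := fun _ => rfl
  have : IsScalarTower A S K := IsScalarTower.of_algebraMap_eq' rfl
  have : IsScalarTower ℂ A S := IsScalarTower.of_algebraMap_eq' ρ.comp_algebraMap.symm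
  have hinj : Function.Injective (algebraMap A K) := (IsFractionRing.injective S K).comp hρ
  let yv : Fin (m + 1) → A := j0.insertNth 0 X
  have hy : ∀ j, ρ (yv j) = x j - algebraMap ℂ S (e j) * x j0 := by
    intro j
    by_cases hj : j = j0
    · rw [hj]
      simp only [yv, Fin.insertNth_apply_same, map_zero, he, map_one, one_mul, sub_self]
    · obtain ⟨i, rfl⟩ := Fin.exists_succAbove_eq hj
      simp only [yv, Fin.insertNth_apply_succAbove]
      exact aeval_X _ _
  let Φ : MvPolynomial (Fin (m + 1)) ℂ →ₐ[ℂ] Polynomial A :=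
    aeval (fun i => Polynomial.X * algebraMap ℂ (Polynomial A) (e i) + Polynomial.C (yv i))
  let ev : Polynomial A →ₐ[ℂ] S := (Polynomial.aeval (x j0) : Polynomial A →ₐ[A] S).restrictScalars ℂ
  have hev : ∀ H, ev (Φ H) = aeval x H := by
    intro H
    change ev (aeval _ H) = _
    rw [comp_aeval_apply]
    congr 2
    funext i
    change Polynomial.aeval (x j0) (Polynomial.X * Polynomial.C (algebraMap ℂ A (e i)) +
      Polynomial.C (yv i)) = _
    rw [map_add, map_mul, Polynomial.aeval_X, Polynomial.aeval_C, Polynomial.aeval_C, hAS, hAS,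
      hy, AlgHom.commutes]
    ring
  have hform := line_form hT e yv
  set f : Polynomial A := Φ (Bg T X X X) with hf
  change f = _ at hform
  have hf0 : Polynomial.aeval (x j0) f = 0 := (hev _).trans hFx
  set c : ℂ := Bg T e e e with hc
  have hc0 : c ≠ 0 := by
    intro h
    apply heF
    rw [← coe_aeval_eq_eval, RingHom.coe_coe, aeval_frmG, ← hc, h]
  -- the derivative
  have hder : Polynomial.aeval (x j0) (Polynomial.derivative f) =
      3 * Bg T (fun i => algebraMap ℂ S (e i)) x x := by
    have h0 : ∀ (c3 c2 c1 c0 : A) (w : S), Polynomial.aeval w (Polynomial.derivative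
        (Polynomial.C c3 * Polynomial.X ^ 3 + Polynomial.C c2 * Polynomial.X ^ 2 +
          Polynomial.C c1 * Polynomial.X + Polynomial.C c0)) =
        3 * ρ c3 * w ^ 2 + 2 * ρ c2 * w + ρ c1 := by
      intro c3 c2 c1 c0 w
      simp only [Polynomial.derivative_mul, Polynomial.derivative_C,
        Polynomial.derivative_X_pow, Polynomial.derivative_X, map_add, map_mul, map_pow,
        Polynomial.aeval_X, Polynomial.aeval_C, map_natCast, zero_mul, zero_add, mul_one,
        add_zero, hAS, Nat.add_one_sub_one, pow_one]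
      push_cast
      ring
    have h1 : ∀ u v w : Fin (m + 1) → A, ρ (Bg T u v w) = Bg T (fun i => ρ (u i))
      (fun i => ρ (v i)) (fun i => ρ (w i)) := fun u v w => map_Bg ρ T u v w
    have h2 : (fun i => ρ (algebraMap ℂ A (e i))) = fun i => algebraMap ℂ S (e i) := by
      funext i
      exact ρ.commutes _
    have h3 : (fun i => ρ (yv i)) = fun i => x i + (-x j0) * algebraMap ℂ S (e i) := by
      funext i
      rw [hy]
      ring
    rw [hform, h0, map_mul, map_mul, map_ofNat, AlgHom.commutes, h1, h1, h2, h3, Bg_add2, Bg_add3,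
      Bg_add3, Bg_add3, Bg_smul2, Bg_smul2, Bg_smul3, Bg_smul3,
      Bg_swap23 hT (fun i => algebraMap ℂ S (e i)) x (fun i => algebraMap ℂ S (e i)), hc,
      ← Bg_alg]
    ring
  -- integrality
  have hw : IsIntegral A (x j0) := by
    refine ⟨Polynomial.X ^ 3 + (Polynomial.C (algebraMap ℂ A c⁻¹ * (3 * Bg T
      (fun i => algebraMap ℂ A (e i)) (fun i => algebraMap ℂ A (e i)) yv)) * Polynomial.X ^ 2 +
      Polynomial.C (algebraMap ℂ A c⁻¹ * (3 * Bg T (fun i => algebraMap ℂ A (e i)) yv yv)) *
      Polynomial.X + Polynomial.C (algebraMap ℂ A c⁻¹ * Bg T yv yv yv)), ?_, ?_⟩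
    · apply Polynomial.monic_X_pow_add
      compute_degree!
    · have h1 : Polynomial.X ^ 3 + (Polynomial.C (algebraMap ℂ A c⁻¹ * (3 * Bg T
        (fun i => algebraMap ℂ A (e i)) (fun i => algebraMap ℂ A (e i)) yv)) * Polynomial.X ^ 2 +
        Polynomial.C (algebraMap ℂ A c⁻¹ * (3 * Bg T (fun i => algebraMap ℂ A (e i)) yv yv)) *
        Polynomial.X + Polynomial.C (algebraMap ℂ A c⁻¹ * Bg T yv yv yv)) =
          Polynomial.C (algebraMap ℂ A c⁻¹) * f := by
        rw [hform]
        have h2 : (Polynomial.C (algebraMap ℂ A c⁻¹) : Polynomial A) *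
            Polynomial.C (algebraMap ℂ A c) = 1 := by
          rw [← map_mul, ← map_mul, inv_mul_cancel₀ hc0, map_one, map_one]
        simp only [map_mul]
        linear_combination -Polynomial.X ^ 3 * h2
      rw [h1, ← Polynomial.aeval_def, map_mul, hf0, mul_zero]
  have hint : Algebra.IsIntegral A S := by
    refine ⟨fun s => ?_⟩
    obtain ⟨H, rfl⟩ := hsurj s
    induction H using MvPolynomial.induction_on with
    | C a =>
      rw [aeval_C, IsScalarTower.algebraMap_apply ℂ A S]
      exact isIntegral_algebraMap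
    | add p q hp hq =>
      rw [map_add]
      exact hp.add hq
    | mul_X p j hp =>
      rw [map_mul, aeval_X]
      refine hp.mul ?_
      have h1 : x j = algebraMap A S (yv j) + algebraMap A S (algebraMap ℂ A (e j)) * x j0 := by
        rw [hAS, hAS, hy, AlgHom.commutes]
        ring
      rw [h1]
      exact isIntegral_algebraMap.add (isIntegral_algebraMap.mul hw)
  have hαA : IsIntegral A α := isIntegral_trans α hα
  have hsur2 : ∀ s : S, ∃ p : Polynomial A, Polynomial.aeval (algebraMap S K (x j0)) p =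
      algebraMap S K s := by
    intro s
    obtain ⟨H, rfl⟩ := hsurj s
    refine ⟨Φ H, ?_⟩
    rw [Polynomial.aeval_algebraMap_apply]
    exact congrArg _ (hev H)
  obtain ⟨g, hg⟩ := diff_aux hinj (algebraMap S K (x j0)) (hw.algebraMap) (by
    intro z
    obtain ⟨s, t, ht, hz⟩ := IsFractionRing.div_surjective (A := S) z
    obtain ⟨p, hp⟩ := hsur2 s
    obtain ⟨q, hq⟩ := hsur2 t
    have ht0 : algebraMap S K t ≠ 0 := by
      rw [Ne, ← map_zero (algebraMap S K), (IsFractionRing.injective S K).eq_iff]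
      exact nonZeroDivisors.ne_zero ht
    refine ⟨p, q, ?_, ?_⟩
    · rw [hq]
      exact ht0
    · rw [hp, hq, ← hz]
      field_simp) f (by
    rw [Polynomial.aeval_algebraMap_apply, hf0, map_zero]) α hαA
  refine ⟨Polynomial.aeval (x j0) g, ?_⟩
  rw [← Polynomial.aeval_algebraMap_apply, ← hg, Polynomial.aeval_algebraMap_apply, hder]

theorem diff_dir' (hT : SymG T) (hF : (Bg T X X X : MvPolynomial (Fin (m + 1)) ℂ).IsHomogeneous 3)
    (x : Fin (m + 1) → S)
    (hsurj : Function.Surjective (aeval x : MvPolynomial (Fin (m + 1)) ℂ →ₐ[ℂ] S))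
    (hFx : aeval x (Bg T X X X : MvPolynomial (Fin (m + 1)) ℂ) = 0)
    (hker : ∀ H : MvPolynomial (Fin (m + 1)) ℂ, aeval x H = 0 → Bg T X X X ∣ H)
    (e : Fin (m + 1) → ℂ) (heF : Bg T e e e ≠ 0) (α : K) (hα : IsIntegral S α) :
    ∃ s : S, algebraMap S K (3 * Bg T (fun i => algebraMap ℂ S (e i)) x x) * α =
      algebraMap S K s := by
  have he0 : e ≠ 0 := by
    rintro rfl
    exact heF (Bg_zero1 T _ _)
  obtain ⟨j0, hj0⟩ := Function.ne_iff.1 he0
  rw [Pi.zero_apply] at hj0
  obtain ⟨s, hs⟩ := diff_dir hT hF x hsurj hFx hker (fun i => (e j0)⁻¹ * e i) j0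
    (inv_mul_cancel₀ hj0) (by
      rw [← coe_aeval_eq_eval, RingHom.coe_coe, aeval_frmG, Bg_smul1, Bg_smul2, Bg_smul3]
      exact mul_ne_zero (inv_ne_zero hj0) (mul_ne_zero (inv_ne_zero hj0)
        (mul_ne_zero (inv_ne_zero hj0) heF))) α hα
  refine ⟨algebraMap ℂ S (e j0) * s, ?_⟩
  have h1 : (fun i => algebraMap ℂ S ((e j0)⁻¹ * e i)) =
      fun i => algebraMap ℂ S (e j0)⁻¹ * algebraMap ℂ S (e i) := by
    funext i
    rw [map_mul]
  have h2 : algebraMap S K (algebraMap ℂ S (e j0)) * algebraMap S K (algebraMap ℂ S (e j0)⁻¹) =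
      1 := by
    rw [← map_mul, ← map_mul, mul_inv_cancel₀ hj0, map_one, map_one]
  rw [h1, Bg_smul1] at hs
  rw [map_mul (algebraMap S K) (algebraMap ℂ S (e j0)) s, ← hs]
  simp only [map_mul]
  linear_combination -(algebraMap S K 3 * algebraMap S K (Bg T (fun i => algebraMap ℂ S (e i)) x x)
    * α) * h2

/-- the partial derivatives multiply integral elements into the ring -/
theorem diff_mem {F : MvPolynomial (Fin (m + 1)) ℂ} (hF : F.IsHomogeneous 3) (hF0 : F ≠ 0)
    (x : Fin (m + 1) → S)
    (hsurj : Function.Surjective (aeval x : MvPolynomial (Fin (m + 1)) ℂ →ₐ[ℂ] S))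
    (hFx : aeval x F = 0)
    (hker : ∀ H : MvPolynomial (Fin (m + 1)) ℂ, aeval x H = 0 → F ∣ H)
    (α : K) (hα : IsIntegral S α) (c : Fin (m + 1)) :
    ∃ s : S, algebraMap S K (aeval x (pderiv c F)) * α = algebraMap S K s := by
  obtain ⟨T, hT, rfl⟩ := exists_tri F hF
  obtain ⟨e, he⟩ : ∃ e : Fin (m + 1) → ℂ, eval e (Bg T X X X : MvPolynomial _ ℂ) ≠ 0 := by
    by_contra hcon
    push Not at hcon
    exact hF0 (MvPolynomial.funext fun v => by rw [hcon v, map_zero])
  have hev : ∀ e : Fin (m + 1) → ℂ, eval e (Bg T X X X : MvPolynomial _ ℂ) = Bg T e e e := by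
    intro e
    rw [← coe_aeval_eq_eval, RingHom.coe_coe, aeval_frmG]
  rw [hev] at he
  -- another direction
  obtain ⟨t, ht0, ht⟩ : ∃ t : ℂ, t ≠ 0 ∧ Bg T (fun i => t * (if i = c then 1 else 0) + e i)
      (fun i => t * (if i = c then 1 else 0) + e i)
      (fun i => t * (if i = c then 1 else 0) + e i) ≠ 0 := by
    by_contra hcon
    push Not at hcon
    set d : Fin (m + 1) → ℂ := fun i => if i = c then 1 else 0 with hd
    have h1 : ∀ t : ℂ, t * (t ^ 3 * Bg T d d d + t ^ 2 * (3 * Bg T d d e) +
        t * (3 * Bg T d e e) + Bg T e e e) = 0 := by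
      intro t
      by_cases ht : t = 0
      · rw [ht, zero_mul]
      have h2 := con_taylor hT t d e
      rw [aeval_frmG, hcon t ht] at h2
      rw [← h2, mul_zero]
    have h2 : (Polynomial.X * (Polynomial.C (Bg T d d d) * Polynomial.X ^ 3 +
        Polynomial.C (3 * Bg T d d e) * Polynomial.X ^ 2 +
        Polynomial.C (3 * Bg T d e e) * Polynomial.X + Polynomial.C (Bg T e e e)) :
          Polynomial ℂ) = 0 := by
      apply Polynomial.funext
      intro t
      rw [Polynomial.eval_zero, ← h1 t]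
      simp only [Polynomial.eval_mul, Polynomial.eval_add, Polynomial.eval_X, Polynomial.eval_C,
        Polynomial.eval_pow]
      ring
    have h3 := (mul_eq_zero.1 h2).resolve_left Polynomial.X_ne_zero
    have h4 := congrArg (Polynomial.eval 0) h3
    simp only [Polynomial.eval_mul, Polynomial.eval_add, Polynomial.eval_X, Polynomial.eval_C,
      Polynomial.eval_pow, Polynomial.eval_zero] at h4
    apply he
    linear_combination h4
  obtain ⟨s1, hs1⟩ := diff_dir' hT hF x hsurj hFx hker e he α hα
  obtain ⟨s2, hs2⟩ := diff_dir' hT hF x hsurj hFx hker _ ht α hα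
  refine ⟨algebraMap ℂ S t⁻¹ * (s2 - s1), ?_⟩
  have h1 : (fun i => algebraMap ℂ S (t * (if i = c then 1 else 0) + e i)) =
      fun i => algebraMap ℂ S t * (if i = c then 1 else 0) + algebraMap ℂ S (e i) := by
    funext i
    rw [map_add, map_mul]
    congr 2
    split_ifs
    · rw [map_one]
    · rw [map_zero]
  rw [h1, Bg_add1, Bg_smul1] at hs2
  have h2 : algebraMap S K (algebraMap ℂ S t⁻¹) * algebraMap S K (algebraMap ℂ S t) = 1 := by
    rw [← map_mul, ← map_mul, inv_mul_cancel₀ ht0, map_one, map_one]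
  rw [pderiv_frmG hT, map_mul (algebraMap S K) (algebraMap ℂ S t⁻¹) (s2 - s1), map_sub, ← hs1,
    ← hs2]
  simp only [map_mul, map_add]
  linear_combination -(algebraMap S K 3 * algebraMap S K
    (Bg T (fun i => if i = c then 1 else 0) x x) * α) * h2

end Dir

end

end Pool.Agent.K9h4
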