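import Mathlib

/-! # Derivations extend to fraction fields -/

set_option autoImplicit false

namespace Pool.Agent.K9h4

noncomputable section

variable {A K : Type} [CommRing A] [IsDomain A] [Field K] [Algebra ℂ A] [Algebra A K]
  [Algebra ℂ K] [IsScalarTower ℂ A K] [IsFractionRing A K]

/-- the ring map `a ↦ a + ε d(a)` -/
def eHom (d : Derivation ℂ A A) : A →+* TrivSqZeroExt K K where
  toFun a := (algebraMap A K a, algebraMap A K (d a))
  map_one' := by
    ext
    · exact map_one _
    · change algebraMap A K (d 1) = 0
      rw [Derivation.map_one_eq_zero, map_zero]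
  map_mul' a b := by
    ext
    · exact map_mul _ _ _
    · change algebraMap A K (d (a * b)) = algebraMap A K a * algebraMap A K (d b) +
        algebraMap A K (d a) * algebraMap A K b
      rw [Derivation.leibniz, map_add, smul_eq_mul, smul_eq_mul, map_mul, map_mul,
        mul_comm (algebraMap A K b)]
  map_zero' := by
    ext
    · exact map_zero _
    · change algebraMap A K (d 0) = 0
      rw [map_zero, map_zero]
  map_add' a b := by
    ext
    · exact map_add _ _ _
    · change algebraMap A K (d (a + b)) = algebraMap A K (d a) + algebraMap A K (d b)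
      rw [map_add, map_add]

theorem eHom_unit (d : Derivation ℂ A A) (y : nonZeroDivisors A) :
    IsUnit (eHom (K := K) d y) := by
  rw [TrivSqZeroExt.isUnit_iff_isUnit_fst]
  change IsUnit (algebraMap A K y)
  exact IsLocalization.map_units K y

/-- the extension of this ring map -/
def eLift (d : Derivation ℂ A A) : K →+* TrivSqZeroExt K K :=
  IsLocalization.lift (M := nonZeroDivisors A) (g := eHom (K := K) d) (eHom_unit d)

theorem eLift_alg (d : Derivation ℂ A A) (a : A) :
    eLift d (algebraMap A K a) = eHom (K := K) d a := IsLocalization.lift_eq _ _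

theorem eLift_fst (d : Derivation ℂ A A) (z : K) : (eLift d z).fst = z := by
  have h : (TrivSqZeroExt.fstHom K K K : TrivSqZeroExt K K →+* K).comp (eLift d)
      = RingHom.id K := by
    apply IsLocalization.ringHom_ext (nonZeroDivisors A)
    ext a
    change (eLift d (algebraMap A K a)).fst = algebraMap A K a
    rw [eLift_alg]; rfl
  exact RingHom.congr_fun h z

/-- derivations extend to the fraction field -/
theorem exists_ext (d : Derivation ℂ A A) :
    ∃ D : Derivation ℂ K K, ∀ a, D (algebraMap A K a) = algebraMap A K (d a) := by
  refine ⟨Derivation.mk'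
    { toFun := fun z => (eLift d z).snd
      map_add' := fun z w => by rw [map_add]; rfl
      map_smul' := fun c z => by
        rw [Algebra.smul_def, map_mul, TrivSqZeroExt.snd_mul, IsScalarTower.algebraMap_apply ℂ A K,
          eLift_alg]
        change algebraMap A K (algebraMap ℂ A c) • (eLift d z).snd +
          MulOpposite.op (eLift d z).fst • algebraMap A K (d (algebraMap ℂ A c)) = _
        rw [d.map_algebraMap, map_zero, smul_zero, add_zero,
          ← IsScalarTower.algebraMap_apply ℂ A K, algebraMap_smul]
        rfl }
    (fun a b => by
      change (eLift d (a * b)).snd = a • (eLift d b).snd + b • (eLift d a).snd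
      rw [map_mul, TrivSqZeroExt.snd_mul, eLift_fst, eLift_fst, op_smul_eq_smul]), fun a => ?_⟩
  change (eLift d (algebraMap A K a)).snd = _
  rw [eLift_alg]; rfl

end

end Pool.Agent.K9h4
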