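import Mathlib
import Pool.Agent.K9h4.Diff

/-! # Discrete valuations of the field of a smooth cubic at elements with poles -/

set_option autoImplicit false

namespace Pool.Agent.K9h4

open MvPolynomial Pool.Agent.R845.E3 Pool.Agent.R845.T2 Pool.Agent.TH314.PD Pool.Agent.Y201.C3

noncomputable section

/-- a prime ideal of denominators -/
theorem exists_assoc {S : Type} [CommRing S] [IsDomain S] [IsNoetherianRing S] {K : Type}
    [Field K] [Algebra S K] (h : K) (hh : ∀ s : S, algebraMap S K s ≠ h) :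
    ∃ (P : Ideal S) (h' : K), P.IsPrime ∧
      (∀ s, s ∈ P ↔ ∃ t : S, algebraMap S K s * h' = algebraMap S K t) ∧
      ∀ s t : S, algebraMap S K s * h = algebraMap S K t → s ∈ P := by
  let N : Submodule S K := LinearMap.range (Algebra.linearMap S K)
  have hN : ∀ z : K, z ∈ N ↔ ∃ t : S, algebraMap S K t = z := fun z => Iff.rfl
  have hne : N.mkQ h ≠ 0 := by
    intro h0
    rw [Submodule.mkQ_apply, Submodule.Quotient.mk_eq_zero, hN] at h0
    obtain ⟨t, ht⟩ := h0
    exact hh t ht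
  obtain ⟨P, hP, hle⟩ := exists_le_isAssociatedPrime_of_isNoetherianRing S (N.mkQ h) hne
  obtain ⟨hprime, y, hy⟩ := isAssociatedPrime_iff.1 hP
  obtain ⟨h', rfl⟩ := N.mkQ_surjective y
  refine ⟨P, h', hprime, fun s => ?_, fun s t hst => ?_⟩
  · rw [hy, Submodule.mem_colon_singleton, ← map_smul, Submodule.mem_bot, Submodule.mkQ_apply,
      Submodule.Quotient.mk_eq_zero, hN, Algebra.smul_def]
    constructor
    · rintro ⟨t, ht⟩
      exact ⟨t, ht.symm⟩
    · rintro ⟨t, ht⟩
      exact ⟨t, ht.symm⟩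
  · apply hle
    rw [Submodule.mem_colon_singleton, ← map_smul, Submodule.mem_bot, Submodule.mkQ_apply,
      Submodule.Quotient.mk_eq_zero, hN, Algebra.smul_def]
    exact ⟨t, hst.symm⟩

/-- a locally principal prime ideal gives a discrete valuation ring -/
theorem exists_dvr {S : Type} [CommRing S] [IsDomain S] [IsNoetherianRing S] {K : Type}
    [Field K] [Algebra S K] [IsFractionRing S K] (P : Ideal S) [hPp : P.IsPrime] (p t : S)
    (hp : p ∈ P) (hp0 : p ≠ 0) (ht : t ∉ P) (h : ∀ q ∈ P, ∃ q', t * q = p * q') :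
    ∃ (O : Subalgebra S K) (mm : Ideal O), mm.IsPrime ∧
      (∀ y : O, y ∈ mm ↔ (y : K) = 0 ∨ (y : K)⁻¹ ∉ O) ∧
      (algebraMap S K p)⁻¹ ∉ O ∧
      (∀ y : K, y ≠ 0 → ∃ k : ℤ, y * (algebraMap S K p) ^ (-k) ∈ O ∧
        (y * (algebraMap S K p) ^ (-k))⁻¹ ∈ O) ∧
      (∀ y : K, y ∈ O ↔ ∃ a s : S, s ∉ P ∧ y = algebraMap S K a * (algebraMap S K s)⁻¹) := by
  have hle : P.primeCompl ≤ nonZeroDivisors S := P.primeCompl_le_nonZeroDivisors
  let O : Subalgebra S K := Localization.subalgebra.ofField K P.primeCompl hle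
  have hO : ∀ y : K, y ∈ O ↔ ∃ a s : S, s ∉ P ∧ y = algebraMap S K a * (algebraMap S K s)⁻¹ := by
    intro y
    constructor
    · rintro ⟨a, s, hs, hy⟩
      exact ⟨a, s, hs, hy⟩
    · rintro ⟨a, s, hs, hy⟩
      exact ⟨a, s, hs, hy⟩
  have : IsLocalization.AtPrime O P := Localization.subalgebra.isLocalization_ofField K
    P.primeCompl hle
  have : IsLocalRing O := IsLocalization.AtPrime.isLocalRing O P
  have : IsNoetherianRing O := IsLocalization.isNoetherianRing P.primeCompl O inferInstance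
  have hmax : P.map (algebraMap S O) = IsLocalRing.maximalIdeal O :=
    IsLocalization.AtPrime.map_eq_maximalIdeal P O
  have hinj : Function.Injective (algebraMap S O) := fun a b hab =>
    IsFractionRing.injective S K (congrArg (fun z : O => (z : K)) hab)
  have hspan : IsLocalRing.maximalIdeal O = Ideal.span {algebraMap S O p} := by
    apply le_antisymm
    · rw [← hmax, Ideal.map_le_iff_le_comap]
      intro q hq
      rw [Ideal.mem_comap, Ideal.mem_span_singleton]
      obtain ⟨q', hq'⟩ := h q hq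
      have hu : IsUnit (algebraMap S O t) :=
        IsLocalization.map_units O (⟨t, ht⟩ : P.primeCompl)
      obtain ⟨u, hu⟩ := hu
      refine ⟨algebraMap S O q' * (↑u⁻¹ : O), ?_⟩
      have h1 := congrArg (algebraMap S O) hq'
      rw [map_mul, map_mul, ← hu] at h1
      rw [← mul_assoc, ← h1, mul_comm (u : O), mul_assoc, Units.mul_inv, mul_one]
    · rw [Ideal.span_singleton_le_iff_mem, ← hmax]
      exact Ideal.mem_map_of_mem _ hp
  have hnf : ¬ IsField O := by
    intro hf
    have h1 := IsLocalRing.isField_iff_maximalIdeal_eq.1 hf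
    rw [hspan, Ideal.span_singleton_eq_bot] at h1
    exact hp0 (hinj (h1.trans (map_zero _).symm))
  have hprin : (IsLocalRing.maximalIdeal O).IsPrincipal := ⟨⟨algebraMap S O p, hspan⟩⟩
  have htf := (IsDiscreteValuationRing.TFAE O hnf).out 4 0
  have : IsDiscreteValuationRing O := htf.1 hprin
  have hirr : Irreducible (algebraMap S O p) :=
    (IsDiscreteValuationRing.irreducible_iff_uniformizer _).2 hspan
  have hval : ∀ s : S, ((algebraMap S O s : O) : K) = algebraMap S K s := fun s => rfl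
  have hunit : ∀ y : O, IsUnit y ↔ (y : K) ≠ 0 ∧ (y : K)⁻¹ ∈ O := by
    intro y
    constructor
    · rintro ⟨u, rfl⟩
      have h1 : ((u : O) : K) * ((↑u⁻¹ : O) : K) = 1 := by
        rw [← MulMemClass.coe_mul, Units.mul_inv]
        rfl
      have h2 : ((u : O) : K) ≠ 0 := left_ne_zero_of_mul_eq_one h1
      refine ⟨h2, ?_⟩
      rw [← eq_inv_of_mul_eq_one_right h1]
      exact (↑u⁻¹ : O).2
    · rintro ⟨h1, h2⟩
      exact IsUnit.of_mul_eq_one ⟨(y : K)⁻¹, h2⟩ (Subtype.ext (mul_inv_cancel₀ h1))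
  refine ⟨O, IsLocalRing.maximalIdeal O, inferInstance, fun y => ?_, ?_, fun y hy => ?_, hO⟩
  · rw [IsLocalRing.mem_maximalIdeal, mem_nonunits_iff, hunit]
    tauto
  · intro h1
    apply hirr.not_isUnit
    rw [hunit, hval]
    refine ⟨?_, h1⟩
    rw [Ne, ← map_zero (algebraMap S K), (IsFractionRing.injective S K).eq_iff]
    exact hp0
  · obtain ⟨a, s, hs, hy'⟩ := IsFractionRing.div_surjective (A := S) y
    have hs0 : s ≠ 0 := nonZeroDivisors.ne_zero hs
    have ha0 : a ≠ 0 := by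
      rintro rfl
      rw [map_zero, zero_div] at hy'
      exact hy hy'.symm
    obtain ⟨m, u, hu⟩ := IsDiscreteValuationRing.eq_unit_mul_pow_irreducible
      (fun h0 => ha0 (hinj (h0.trans (map_zero _).symm))) hirr (x := algebraMap S O a)
    obtain ⟨n, v, hv⟩ := IsDiscreteValuationRing.eq_unit_mul_pow_irreducible
      (fun h0 => hs0 (hinj (h0.trans (map_zero _).symm))) hirr (x := algebraMap S O s)
    have hu' := congrArg (fun z : O => (z : K)) hu
    have hv' := congrArg (fun z : O => (z : K)) hv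
    simp only [MulMemClass.coe_mul, SubmonoidClass.coe_pow, hval] at hu' hv'
    have hπ0 : algebraMap S K p ≠ 0 := by
      rw [Ne, ← map_zero (algebraMap S K), (IsFractionRing.injective S K).eq_iff]
      exact hp0
    have hu0 : ((u : O) : K) ≠ 0 := ((hunit _).1 u.isUnit).1
    have hv0 : ((v : O) : K) ≠ 0 := ((hunit _).1 v.isUnit).1
    have hk : y * (algebraMap S K p) ^ (-((m : ℤ) - n)) = ((u : O) : K) * ((v : O) : K)⁻¹ := by
      rw [← hy', hu', hv', neg_sub, zpow_sub₀ hπ0, zpow_natCast, zpow_natCast]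
      field_simp
    refine ⟨(m : ℤ) - n, ?_, ?_⟩
    · rw [hk]
      exact O.mul_mem (u : O).2 ((hunit _).1 v.isUnit).2
    · rw [hk, mul_inv, inv_inv]
      exact O.mul_mem ((hunit _).1 u.isUnit).2 (v : O).2

section Main

variable {m : ℕ} {F : MvPolynomial (Fin (m + 1)) ℂ} {S : Type} [CommRing S] [IsDomain S]
  [IsNoetherianRing S] [Algebra ℂ S] {K : Type} [Field K] [Algebra S K] [IsFractionRing S K]
  [Algebra ℂ K]

/-- elements which are not regular have a pole at a discrete valuation -/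
theorem exists_val (hm : 4 ≤ m) (hF : F.IsHomogeneous 3)
    (hsm : ∀ z : Fin (m + 1) → ℂ, (∀ i, eval z (pderiv i F) = 0) → z = 0)
    (x : Fin (m + 1) → S)
    (hsurj : Function.Surjective (aeval x : MvPolynomial (Fin (m + 1)) ℂ →ₐ[ℂ] S))
    (hFx : aeval x F = 0)
    (hker : ∀ H : MvPolynomial (Fin (m + 1)) ℂ, aeval x H = 0 → F ∣ H)
    (h : K) (hh : ∀ s : S, algebraMap S K s ≠ h) :
    ∃ (O : Subalgebra S K) (mm : Ideal O) (π : K), mm.IsPrime ∧
      (∀ y : O, y ∈ mm ↔ (y : K) = 0 ∨ (y : K)⁻¹ ∉ O) ∧ π ∈ O ∧ π ≠ 0 ∧ π⁻¹ ∉ O ∧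
      (∀ y : K, y ≠ 0 → ∃ k : ℤ, y * π ^ (-k) ∈ O ∧ (y * π ^ (-k))⁻¹ ∈ O) ∧ h ∉ O ∧
      (∀ D : Derivation ℂ K K, (∀ s, D (algebraMap S K s) ∈ O) → ∀ y ∈ O, D y ∈ O) ∧
      ∃ c b, c ≠ b ∧ (algebraMap S K (aeval x (pderiv c F)))⁻¹ ∈ O ∧
        aeval x (pderiv c F) ≠ 0 ∧ (algebraMap S K (x b))⁻¹ ∈ O := by
  classical
  have hF0 : F ≠ 0 := ne_zero_of_smooth (m := m) hsm
  have hinj := IsFractionRing.injective S K
  obtain ⟨P, h', hP, hmem, hden⟩ := exists_assoc h hh
  have hone : (1 : S) ∉ P := fun h1 => hP.ne_top ((Ideal.eq_top_iff_one _).2 h1)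
  have hnot : ∀ s : S, algebraMap S K s ≠ h' := fun s hs => hone ((hmem 1).2 ⟨s, by
    rw [map_one, one_mul, hs]⟩)
  -- some variable is not in the ideal
  have hvar : ¬ ∀ i, x i ∈ P := by
    intro hall
    obtain ⟨s, hs⟩ := depth_two (by omega) hF hF0 x hsurj hFx hker h' fun i => (hmem _).1 (hall i)
    exact hnot s hs
  have hder : ¬ ∀ c, aeval x (pderiv c F) ∈ P := fun hall => hvar (var_mem hsm x P hall)
  obtain ⟨c, hc⟩ := not_forall.1 hder
  obtain ⟨b, hbc, hb⟩ : ∃ b, b ≠ c ∧ x b ∉ P := by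
    by_contra hcon
    push Not at hcon
    apply hvar
    intro i
    by_cases hi : i = c
    · have h1 := congrArg (aeval x) hF.sum_X_mul_pderiv
      rw [map_sum, map_nsmul, hFx, smul_zero] at h1
      simp only [map_mul, aeval_X] at h1
      rw [← Finset.add_sum_erase _ _ (Finset.mem_univ c)] at h1
      have h2 : x c * aeval x (pderiv c F) ∈ P := by
        rw [eq_neg_of_add_eq_zero_left h1]
        refine P.neg_mem (P.sum_mem fun j hj => ?_)
        exact P.mul_mem_right _ (hcon j (Finset.ne_of_mem_erase hj))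
      rw [hi]
      exact (hP.mem_or_mem h2).resolve_right hc
    · exact hcon i hi
  -- the ideal is not zero
  have hPne : ∃ p ∈ P, p ≠ 0 := by
    obtain ⟨a, s, hs, has⟩ := IsFractionRing.div_surjective (A := S) h'
    have hs0 : s ≠ 0 := nonZeroDivisors.ne_zero hs
    refine ⟨s, (hmem s).2 ⟨a, ?_⟩, hs0⟩
    rw [← has]
    have : algebraMap S K s ≠ 0 := by
      rw [Ne, ← map_zero (algebraMap S K), hinj.eq_iff]
      exact hs0
    field_simp
  -- a uniformizer
  obtain ⟨p, t, hpP, hpt, htP⟩ : ∃ p t : S, p ∈ P ∧ algebraMap S K p * h' = algebraMap S K t ∧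
      t ∉ P := by
    by_contra hcon
    push Not at hcon
    have hint : IsIntegral S h' := by
      refine isIntegral_of_smul_mem_submodule (M := K)
        (Submodule.map (Algebra.linearMap S K) P) ?_
        ((IsNoetherian.noetherian P).map _) h' ?_
      · intro hbot
        obtain ⟨p, hp, hp0⟩ := hPne
        have h1 : Algebra.linearMap S K p ∈ Submodule.map (Algebra.linearMap S K) P :=
          Submodule.mem_map_of_mem hp
        rw [hbot, Submodule.mem_bot] at h1
        exact hp0 (hinj (h1.trans (map_zero _).symm))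
      · rintro _ ⟨p, hp, rfl⟩
        obtain ⟨t, ht⟩ := (hmem p).1 hp
        refine ⟨t, hcon p t hp ht, ?_⟩
        change algebraMap S K t = h' * algebraMap S K p
        rw [← ht, mul_comm]
    apply hder
    intro c
    exact (hmem _).2 (diff_mem hF hF0 x hsurj hFx hker h' hint c)
  have hp0 : p ≠ 0 := by
    rintro rfl
    rw [map_zero, zero_mul] at hpt
    apply htP
    rw [hinj (hpt.symm.trans (map_zero _).symm)]
    exact P.zero_mem
  obtain ⟨O, mm, h1, h2, h3, h4, h5⟩ := exists_dvr (K := K) P p t hpP hp0 htP (by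
    intro q hq
    obtain ⟨q', hq'⟩ := (hmem q).1 hq
    refine ⟨q', hinj ?_⟩
    rw [map_mul, map_mul, ← hpt, ← hq']
    ring)
  have hSO : ∀ s : S, algebraMap S K s ∈ O := fun s => O.algebraMap_mem s
  have hinv : ∀ s : S, s ∉ P → (algebraMap S K s)⁻¹ ∈ O := by
    intro s hs
    rw [h5]
    exact ⟨1, s, hs, by rw [map_one, one_mul]⟩
  refine ⟨O, mm, algebraMap S K p, h1, h2, hSO p, ?_, h3, h4, ?_, ?_, c, b, hbc.symm, hinv _ hc,
    ?_, hinv _ hb⟩
  · rw [Ne, ← map_zero (algebraMap S K), hinj.eq_iff]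
    exact hp0
  · intro hO
    obtain ⟨a, s, hs, has⟩ := (h5 h).1 hO
    have hs0 : algebraMap S K s ≠ 0 := by
      rw [Ne, ← map_zero (algebraMap S K), hinj.eq_iff]
      rintro rfl
      exact hs P.zero_mem
    apply hs
    refine hden s a ?_
    rw [has]
    field_simp
  · intro D hD y hy
    obtain ⟨a, s, hs, rfl⟩ := (h5 y).1 hy
    have hs0 : algebraMap S K s ≠ 0 := by
      rw [Ne, ← map_zero (algebraMap S K), hinj.eq_iff]
      rintro rfl
      exact hs P.zero_mem
    rw [Derivation.leibniz, Derivation.leibniz_inv, smul_eq_mul, smul_eq_mul, smul_eq_mul]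
    refine O.add_mem (O.mul_mem (hSO a) ?_) (O.mul_mem (hinv s hs) (hD a))
    rw [neg_mul]
    exact O.neg_mem (O.mul_mem (by rw [pow_two]; exact O.mul_mem (hinv s hs) (hinv s hs)) (hD s))
  · intro h0
    exact hc (by rw [h0]; exact P.zero_mem)

end Main

end

end Pool.Agent.K9h4
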