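import Mathlib
import Pool.Agent.K9h4.ExtD
import Pool.Agent.K9h4.Val

/-! # Jacobians of maps from projective spaces to cubics -/

set_option autoImplicit false

namespace Pool.Agent.K9h4

open MvPolynomial Pool.Agent.R845.E3 Pool.Agent.R845.T2 Pool.Agent.TH314.PD Pool.Agent.Y201.C3

noncomputable section

section Der

variable {m : ℕ} {F : MvPolynomial (Fin (m + 1)) ℂ} {S : Type} [CommRing S] [IsDomain S]
  [Algebra ℂ S] {K : Type} [Field K] [Algebra S K] [IsFractionRing S K]
  [Algebra ℂ K] [IsScalarTower ℂ S K]

omit [IsDomain S] in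
/-- a derivation of the polynomial ring respecting the cubic descends -/
theorem exists_desc (x : Fin (m + 1) → S)
    (hsurj : Function.Surjective (aeval x : MvPolynomial (Fin (m + 1)) ℂ →ₐ[ℂ] S))
    (hFx : aeval x F = 0)
    (hker : ∀ H : MvPolynomial (Fin (m + 1)) ℂ, aeval x H = 0 → F ∣ H)
    (D : Derivation ℂ (MvPolynomial (Fin (m + 1)) ℂ) (MvPolynomial (Fin (m + 1)) ℂ))
    (hD : D F = 0) :
    ∃ E : Derivation ℂ S S, ∀ H, E (aeval x H) = aeval x (D H) := by
  have hwd : ∀ H H' : MvPolynomial (Fin (m + 1)) ℂ, aeval x H = aeval x H' →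
      aeval x (D H) = aeval x (D H') := by
    intro H H' h
    obtain ⟨Q, hQ⟩ := hker (H - H') (by rw [map_sub, h, sub_self])
    have h1 := congrArg D hQ
    rw [map_sub, Derivation.leibniz, hD, smul_zero, add_zero, smul_eq_mul] at h1
    have h2 := congrArg (aeval x) h1
    rw [map_sub, map_mul, hFx, zero_mul, sub_eq_zero] at h2
    exact h2
  let g := Function.surjInv hsurj
  have hg : ∀ s, aeval x (g s) = s := Function.surjInv_eq hsurj
  have hE : ∀ H, aeval x (D (g (aeval x H))) = aeval x (D H) := fun H => hwd _ _ (hg _)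
  refine ⟨Derivation.mk' (R := ℂ)
    { toFun := fun s => aeval x (D (g s))
      map_add' := fun s t => by
        rw [← map_add, ← map_add]
        exact hwd _ _ (by rw [hg, map_add, hg, hg])
      map_smul' := fun c s => by
        rw [RingHom.id_apply, ← map_smul, ← Derivation.map_smul]
        exact hwd _ _ (by rw [hg, map_smul, hg]) } (fun s t => ?_), fun H => hE H⟩
  change aeval x (D (g (s * t))) = s • aeval x (D (g t)) + t • aeval x (D (g s))
  rw [hwd (g (s * t)) (g s * g t) (by rw [hg, map_mul, hg, hg]), Derivation.leibniz, map_add,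
    smul_eq_mul, smul_eq_mul, smul_eq_mul, smul_eq_mul, map_mul, map_mul, hg, hg]

/-- the tangent derivations -/
theorem exists_tan (x : Fin (m + 1) → S)
    (hsurj : Function.Surjective (aeval x : MvPolynomial (Fin (m + 1)) ℂ →ₐ[ℂ] S))
    (hFx : aeval x F = 0)
    (hker : ∀ H : MvPolynomial (Fin (m + 1)) ℂ, aeval x H = 0 → F ∣ H) (b c : Fin (m + 1)) :
    ∃ E : Derivation ℂ K K, ∀ H, E (algebraMap S K (aeval x H)) =
      algebraMap S K (aeval x (pderiv c F * pderiv b H - pderiv b F * pderiv c H)) := by
  obtain ⟨E, hE⟩ := exists_desc x hsurj hFx hker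
    ((pderiv c F : MvPolynomial (Fin (m + 1)) ℂ) • pderiv b -
      (pderiv b F : MvPolynomial (Fin (m + 1)) ℂ) • pderiv c) (by
      simp only [Derivation.sub_apply, Derivation.smul_apply, smul_eq_mul]
      ring)
  obtain ⟨D, hD⟩ := exists_ext (K := K) E
  refine ⟨D, fun H => ?_⟩
  rw [hD, hE]
  simp only [Derivation.sub_apply, Derivation.smul_apply, smul_eq_mul]

end Der

section Det

variable {K : Type} [Field K] [Algebra ℂ K] {m : ℕ}

/-- the determinant of a scalar matrix plus a matrix of rank one, one column replaced -/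
theorem det_frame (a T : K) (hT : T ≠ 0) (v w : Fin m → K) (k0 : Fin m) :
    (Matrix.of fun i k => if k = k0 then 3 * T * v i else (if i = k then a else 0) + v i * w k).det
      = a ^ (m - 1) * (3 * T * v k0) := by
  have h3 : (3 : K) * T ≠ 0 := by
    have : CharZero K := charZero_of_injective_algebraMap (algebraMap ℂ K).injective
    exact mul_ne_zero (by norm_num) hT
  have h0 : (Matrix.of fun i k => if k = k0 then 3 * T * v i else (if i = k then a else 0) +
      v i * w k).det = (Matrix.of fun i k => if k = k0 then 3 * T * v i else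
        (if i = k then a else 0)).det := by
    rw [← Matrix.det_transpose, ← Matrix.det_transpose (Matrix.of fun i k => if k = k0 then
      3 * T * v i else (if i = k then a else 0))]
    refine Matrix.det_eq_of_forall_row_eq_smul_add_const
      (fun k => if k = k0 then 0 else w k / (3 * T)) k0 (by simp) ?_
    intro j i
    simp only [Matrix.transpose_apply, Matrix.of_apply, if_true]
    by_cases hj : j = k0
    · simp only [if_pos hj, zero_mul, add_zero]
    · simp only [if_neg hj]
      have h4 : w j / (3 * T) * (3 * T * v i) = v i * w j := by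
        rw [div_mul_eq_mul_div, div_eq_iff h3]
        ring
      rw [h4]
  rw [h0]
  have h1 : (Matrix.of fun i k => if k = k0 then 3 * T * v i else (if i = k then a else 0)) =
      (a • (1 : Matrix (Fin m) (Fin m) K)).updateCol k0 (fun i => 3 * T * v i) := by
    ext i k
    by_cases hk : k = k0
    · rw [hk, Matrix.updateCol_self]
      simp
    · rw [Matrix.updateCol_ne hk]
      simp [hk, Matrix.one_apply]
  rw [h1, ← Matrix.cramer_apply, Matrix.cramer_smul, Matrix.cramer_one, Fintype.card_fin]
  simp [smul_eq_mul]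

/-- the Jacobian relation -/
theorem jac_rel (G : Fin (m + 1) → MvPolynomial (Fin m) ℂ) (hG : ∀ i, (G i).IsHomogeneous 3)
    (y : Fin (m + 1) → K) (z : Fin m → K) (T : K) (hT : T ≠ 0)
    (hGz : ∀ i, aeval z (G i) = T * y i) (c : Fin (m + 1)) (f : K)
    (E : Fin m → Derivation ℂ K K)
    (hE : ∀ k i, E k (y (c.succAbove i)) = if i = k then f else 0) (k0 : Fin m) :
    (Matrix.of fun i l => aeval z (pderiv l (G (c.succAbove i)))).det *
      (Matrix.of fun l k => if k = k0 then z l else E k (z l)).det =
      (T * f) ^ (m - 1) * (3 * T * y (c.succAbove k0)) := by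
  rw [← Matrix.det_mul, ← det_frame (T * f) T hT (fun i => y (c.succAbove i)) (fun k => E k T) k0]
  congr 1
  ext i k
  rw [Matrix.mul_apply]
  simp only [Matrix.of_apply]
  by_cases hk : k = k0
  · simp only [if_pos hk]
    have h1 := congrArg (aeval z) (hG (c.succAbove i)).sum_X_mul_pderiv
    rw [map_sum, map_nsmul, hGz] at h1
    simp only [map_mul, aeval_X] at h1
    rw [nsmul_eq_mul] at h1
    push_cast at h1
    rw [mul_assoc, ← h1]
    exact Finset.sum_congr rfl fun l _ => mul_comm _ _
  · simp only [if_neg hk]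
    have h1 := chain_rule (E k) z (G (c.succAbove i))
    rw [hGz, Derivation.leibniz, hE, smul_eq_mul, smul_eq_mul] at h1
    rw [← h1]
    split_ifs <;> ring

/-- the relation between the minors -/
theorem minor_rel {F : MvPolynomial (Fin (m + 1)) ℂ} (hF : F.IsHomogeneous 3)
    (G : Fin (m + 1) → MvPolynomial (Fin m) ℂ)
    (hFG : aeval G F = 0)
    (y : Fin (m + 1) → K) (z : Fin m → K) (T : K) (hT : T ≠ 0)
    (hGz : ∀ i, aeval z (G i) = T * y i)
    (hy : ∀ j, aeval y (pderiv j F) ≠ 0) (c c' : Fin (m + 1)) :
    ∃ s : K, s * s = 1 ∧ aeval y (pderiv c' F) *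
      (Matrix.of fun i l => aeval z (pderiv l (G (c.succAbove i)))).det =
      s * (aeval y (pderiv c F) *
        (Matrix.of fun i l => aeval z (pderiv l (G (c'.succAbove i)))).det) := by
  have h1 : ∀ l, ∑ j, aeval y (pderiv j F) * aeval z (pderiv l (G j)) = 0 := by
    intro l
    have h2 := chain_rule (pderiv l) G F
    rw [hFG, map_zero] at h2
    have h3 := congrArg (aeval z) h2
    rw [map_zero, map_sum] at h3
    have h4 : ∀ j, aeval z (aeval G (pderiv j F) * pderiv l (G j)) =
        T ^ 2 * (aeval y (pderiv j F) * aeval z (pderiv l (G j))) := by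
      intro j
      rw [map_mul, comp_aeval_apply]
      have h5 : (fun i => aeval z (G i)) = fun i => T * y i := funext hGz
      have h6 : (pderiv j F).IsHomogeneous 2 := hF.pderiv
      rw [h5, aeval_smul_form h6]
      ring
    rw [Finset.sum_congr rfl fun j _ => h4 j, ← Finset.mul_sum] at h3
    exact (mul_eq_zero.1 h3.symm).resolve_left (pow_ne_zero _ hT)
  let M : Matrix (Fin (m + 1)) (Fin m) K := Matrix.of fun j l =>
    aeval y (pderiv j F) * aeval z (pderiv l (G j))
  have h2 : ∑ j, M j = 0 := by
    funext l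
    exact (Finset.sum_apply l Finset.univ (fun j => (M j : Fin m → K))).trans (h1 l)
  have h3 := Matrix.submatrix_succAbove_det_eq_negOnePow_submatrix_succAbove_det M h2 c c'
  have h4 : ∀ c : Fin (m + 1), (M.submatrix c.succAbove id).det =
      (∏ i, aeval y (pderiv (c.succAbove i) F)) *
        (Matrix.of fun i l => aeval z (pderiv l (G (c.succAbove i)))).det := by
    intro c
    rw [← Matrix.det_mul_column]
    rfl
  have h5 : ∀ c : Fin (m + 1), aeval y (pderiv c F) *
      ∏ i, aeval y (pderiv (c.succAbove i) F) = ∏ j, aeval y (pderiv j F) := fun c =>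
    (Fin.prod_univ_succAbove (fun j => aeval y (pderiv j F)) c).symm
  have hpr : ∏ j, aeval y (pderiv j F) ≠ 0 := Finset.prod_ne_zero_iff.2 fun j _ => hy j
  rw [h4, h4] at h3
  have key : ∀ s : K, (∏ i, aeval y (pderiv (c.succAbove i) F)) *
        (Matrix.of fun i l => aeval z (pderiv l (G (c.succAbove i)))).det =
      s * ((∏ i, aeval y (pderiv (c'.succAbove i) F)) *
        (Matrix.of fun i l => aeval z (pderiv l (G (c'.succAbove i)))).det) →
      aeval y (pderiv c' F) *
      (Matrix.of fun i l => aeval z (pderiv l (G (c.succAbove i)))).det =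
      s * (aeval y (pderiv c F) *
        (Matrix.of fun i l => aeval z (pderiv l (G (c'.succAbove i)))).det) := by
    intro s hs
    apply mul_left_cancel₀ hpr
    have h6 := congrArg (fun v => aeval y (pderiv c F) * aeval y (pderiv c' F) * v) hs
    have e1 := h5 c
    have e2 := h5 c'
    generalize (Matrix.of fun i l => aeval z (pderiv l (G (c.succAbove i)))).det = d1 at *
    generalize (Matrix.of fun i l => aeval z (pderiv l (G (c'.succAbove i)))).det = d2 at *
    calc (∏ j, aeval y (pderiv j F)) * (aeval y (pderiv c' F) * d1) =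
        aeval y (pderiv c F) * aeval y (pderiv c' F) *
          ((∏ i, aeval y (pderiv (c.succAbove i) F)) * d1) := by
          rw [← e1]
          ring
      _ = aeval y (pderiv c F) * aeval y (pderiv c' F) *
          (s * ((∏ i, aeval y (pderiv (c'.succAbove i) F)) * d2)) := h6
      _ = (∏ j, aeval y (pderiv j F)) * (s * (aeval y (pderiv c F) * d2)) := by
          rw [← e2]
          ring
  rcases Int.units_eq_one_or (Int.negOnePow (c - c')) with h | h
  · rw [h, one_smul] at h3
    exact ⟨1, one_mul 1, key 1 (by rw [h3, one_mul])⟩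
  · rw [h, Units.neg_smul, one_smul] at h3
    exact ⟨-1, by ring, key (-1) (by rw [h3]; ring)⟩

end Det

end

end Pool.Agent.K9h4
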