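import Mathlib
import Pool.Agent.K9h4.Jac

/-! # Jacobians at a discrete valuation -/

set_option autoImplicit false

namespace Pool.Agent.K9h4

open MvPolynomial Pool.Agent.R845.E3 Pool.Agent.R845.T2 Pool.Agent.TH314.PD Pool.Agent.Y201.C3

noncomputable section

variable {S : Type} [CommRing S] {K : Type} [Field K] [Algebra S K]

theorem det_mem (O : Subalgebra S K) {ι : Type} [Fintype ι] [DecidableEq ι] (M : Matrix ι ι K)
    (hM : ∀ i j, M i j ∈ O) : M.det ∈ O := by
  rw [Matrix.det_apply']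
  exact O.sum_mem fun σ _ => O.mul_mem (intCast_mem O _) (O.prod_mem fun i _ => hM _ _)

/-- logarithmic derivatives times the uniformizer are regular -/
theorem log_der [Algebra ℂ K] (O : Subalgebra S K) (π : K) (hπ : π ∈ O) (hπ0 : π ≠ 0)
    (hdec : ∀ y : K, y ≠ 0 → ∃ k : ℤ, y * π ^ (-k) ∈ O ∧ (y * π ^ (-k))⁻¹ ∈ O)
    (D : Derivation ℂ K K) (hD : ∀ y ∈ O, D y ∈ O) (T : K) (hT : T ≠ 0) :
    ∃ w ∈ O, π * D T = T * w := by
  obtain ⟨k, h1, h2⟩ := hdec T hT
  set u := T * π ^ (-k) with hu
  have hk : π ^ (-k) ≠ 0 := zpow_ne_zero _ hπ0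
  have hu0 : u ≠ 0 := mul_ne_zero hT hk
  have hTu : T = u * π ^ k := by
    rw [hu, mul_assoc, ← zpow_add₀ hπ0, neg_add_cancel, zpow_zero, mul_one]
  refine ⟨(k : K) * D π + π * (D u * u⁻¹), O.add_mem (O.mul_mem (intCast_mem O _) (hD π hπ))
    (O.mul_mem hπ (O.mul_mem (hD u h1) h2)), ?_⟩
  conv_lhs => rw [hTu]
  rw [Derivation.leibniz, Derivation.leibniz_zpow, hTu, smul_eq_mul, smul_eq_mul, smul_eq_mul,
    zsmul_eq_mul, zpow_sub_one₀ hπ0]
  field_simp

/-- the minors of the Jacobian matrix and the Jacobian determinant of the inverse -/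
theorem minor_div [Algebra ℂ K] {m : ℕ} (O : Subalgebra S K) (π T : K) (hπ : π ∈ O) (hT : T ≠ 0)
    (G : Fin (m + 1) → MvPolynomial (Fin m) ℂ) (hG : ∀ i, (G i).IsHomogeneous 3)
    (y : Fin (m + 1) → K) (z : Fin m → K) (hGz : ∀ i, aeval z (G i) = T * y i)
    (E : Fin m → Derivation ℂ K K) (k0 : Fin m)
    (hz : ∀ l, z l ∈ O) (hy : ∀ i, y i ∈ O) (hEz : ∀ k l, E k (z l) ∈ O)
    (hEy : ∀ k i, E k (y i) ∈ O) (hw : ∀ k, ∃ w ∈ O, π * E k T = T * w)
    (r : Fin 3 → Fin (m + 1)) (q : Fin 3 → Fin m) (hq : Function.Injective q) :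
    ∃ Y ∈ O, π * ((Matrix.of fun a b => aeval z (pderiv (q b) (G (r a)))).det *
      (Matrix.of fun l k => if k = k0 then z l else E k (z l)).det) = T ^ 3 * Y := by
  classical
  choose w hwO hw using hw
  let τ := {k : Fin m // k ∉ Set.range q}
  let σ : Fin 3 ⊕ τ ≃ Fin m := ((Equiv.ofInjective q hq).sumCongr (Equiv.refl _)).trans
    (Equiv.Set.sumCompl (Set.range q))
  have hσ1 : ∀ a, σ (Sum.inl a) = q a := fun a => rfl
  have hσ2 : ∀ t : τ, σ (Sum.inr t) = t.1 := fun t => rfl
  let Z : Matrix (Fin m) (Fin m) K := Matrix.of fun l k => if k = k0 then z l else E k (z l)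
  let A : Matrix (Fin 3) (Fin 3) K := Matrix.of fun a b => aeval z (pderiv (q b) (G (r a)))
  let N : Matrix (Fin 3 ⊕ τ) (Fin 3 ⊕ τ) K := Matrix.fromBlocks A
    (Matrix.of fun a t => aeval z (pderiv t.1 (G (r a)))) 0 1
  have hN : N.det = A.det := by
    rw [Matrix.det_fromBlocks_zero₂₁, Matrix.det_one, mul_one]
  let Z' : Matrix (Fin 3 ⊕ τ) (Fin 3 ⊕ τ) K := Z.submatrix σ σ
  have hZ' : Z'.det = Z.det := Matrix.det_submatrix_equiv_self σ Z
  let C : Matrix (Fin 3 ⊕ τ) Unit K := Matrix.of fun j _ => Sum.elim (fun a => y (r a)) (fun _ => 0) j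
  let a0 : Fin 3 → Fin 3 ⊕ τ → K := fun a k => if σ k = k0 then 3 * y (r a) else E (σ k) (y (r a))
  let B : Matrix Unit (Fin 3 ⊕ τ) K := Matrix.of fun _ k => if σ k = k0 then 0 else - E (σ k) T
  let D : Matrix (Fin 3 ⊕ τ) (Fin 3 ⊕ τ) K := Matrix.of fun j k =>
    Sum.elim (fun a => T * a0 a k) (fun t => Z t.1 (σ k)) j
  have hprod : N * Z' = D - C * B := by
    ext j k
    rw [Matrix.mul_apply, Matrix.sub_apply, Matrix.mul_apply]
    rcases j with a | t
    · have h1 : ∑ j, N (Sum.inl a) j * Z' j k = ∑ l, aeval z (pderiv l (G (r a))) * Z l (σ k) := by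
        rw [← σ.sum_comp]
        refine Finset.sum_congr rfl fun j _ => ?_
        rcases j with b | t
        · rfl
        · rfl
      rw [h1]
      simp only [D, C, B, a0, Z, Matrix.of_apply, Sum.elim_inl, Finset.univ_unique,
        Finset.sum_singleton]
      by_cases hk : σ k = k0
      · simp only [if_pos hk, mul_zero, sub_zero]
        have h2 := congrArg (aeval z) (hG (r a)).sum_X_mul_pderiv
        rw [map_sum, map_nsmul, hGz] at h2
        simp only [map_mul, aeval_X] at h2
        rw [nsmul_eq_mul] at h2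
        push_cast at h2
        rw [show T * (3 * y (r a)) = 3 * (T * y (r a)) by ring, ← h2]
        exact Finset.sum_congr rfl fun l _ => mul_comm _ _
      · simp only [if_neg hk]
        have h2 := chain_rule (E (σ k)) z (G (r a))
        rw [hGz, Derivation.leibniz, smul_eq_mul, smul_eq_mul] at h2
        rw [← h2]
        ring
    · have h1 : ∑ j, N (Sum.inr t) j * Z' j k = Z t.1 (σ k) := by
        rw [Finset.sum_eq_single (Sum.inr t)]
        · simp only [N, Z', Matrix.fromBlocks_apply₂₂, Matrix.one_apply_eq, one_mul,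
            Matrix.submatrix_apply, hσ2]
        · intro j _ hj
          rcases j with b | t'
          · simp only [N, Matrix.fromBlocks_apply₂₁, Matrix.zero_apply, zero_mul]
          · rw [show N (Sum.inr t) (Sum.inr t') = (1 : Matrix τ τ K) t t' from rfl,
              Matrix.one_apply_ne (fun h => hj (by rw [h])), zero_mul]
        · intro h
          exact absurd (Finset.mem_univ _) h
      rw [h1]
      simp only [D, C, Matrix.of_apply, Sum.elim_inr, Finset.univ_unique, Finset.sum_singleton,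
        zero_mul, sub_zero]
  let M1 : Matrix (Unit ⊕ (Fin 3 ⊕ τ)) (Unit ⊕ (Fin 3 ⊕ τ)) K := Matrix.fromBlocks 1 B C D
  have hM1 : M1.det = A.det * Z.det := by
    rw [Matrix.det_fromBlocks_one₁₁, ← hprod, Matrix.det_mul, hN, hZ']
  let B' : Matrix Unit (Fin 3 ⊕ τ) K := Matrix.of fun _ k => if σ k = k0 then 0 else - w (σ k)
  let D' : Matrix (Fin 3 ⊕ τ) (Fin 3 ⊕ τ) K := Matrix.of fun j k =>
    Sum.elim (fun a => a0 a k) (fun t => Z t.1 (σ k)) j
  let Y : Matrix (Unit ⊕ (Fin 3 ⊕ τ)) (Unit ⊕ (Fin 3 ⊕ τ)) K :=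
    Matrix.fromBlocks (π • 1) B' C D'
  let u : Unit ⊕ (Fin 3 ⊕ τ) → K := Sum.elim (fun _ => π) (fun _ => 1)
  let v : Unit ⊕ (Fin 3 ⊕ τ) → K := Sum.elim (fun _ => T) (fun _ => 1)
  let u' : Unit ⊕ (Fin 3 ⊕ τ) → K := Sum.elim (fun _ => T) (Sum.elim (fun _ => T) (fun _ => 1))
  have hmat : Matrix.diagonal u * M1 * Matrix.diagonal v = Matrix.diagonal u' * Y := by
    ext i j
    rw [Matrix.mul_diagonal, Matrix.diagonal_mul, Matrix.diagonal_mul]
    rcases i with i | a | t
    · rcases j with j | k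
      · simp only [M1, Y, u, v, u', Sum.elim_inl, Matrix.fromBlocks_apply₁₁, Matrix.one_apply_eq,
          Matrix.smul_apply, smul_eq_mul]
        ring
      · simp only [M1, Y, u, v, u', Sum.elim_inl, Sum.elim_inr, Matrix.fromBlocks_apply₁₂, B, B',
          Matrix.of_apply]
        split_ifs
        · ring
        · linear_combination - hw (σ k)
    · rcases j with j | k
      · simp only [M1, Y, u, v, u', Sum.elim_inl, Sum.elim_inr, Matrix.fromBlocks_apply₂₁]
        ring
      · simp only [M1, Y, u, v, u', Sum.elim_inl, Sum.elim_inr, Matrix.fromBlocks_apply₂₂, D, D',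
          Matrix.of_apply]
        ring
    · rcases j with j | k
      · simp only [M1, Y, u, v, u', C, Sum.elim_inl, Sum.elim_inr, Matrix.fromBlocks_apply₂₁,
          Matrix.of_apply]
        ring
      · simp only [M1, Y, u, v, u', Sum.elim_inl, Sum.elim_inr, Matrix.fromBlocks_apply₂₂, D, D',
          Matrix.of_apply]
        ring
  have hdet := congrArg Matrix.det hmat
  rw [Matrix.det_mul, Matrix.det_mul, Matrix.det_mul, Matrix.det_diagonal, Matrix.det_diagonal,
    Matrix.det_diagonal, hM1] at hdet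
  have hu : ∏ i, u i = π := by
    rw [Fintype.prod_sum_type]
    simp [u]
  have hv : ∏ i, v i = T := by
    rw [Fintype.prod_sum_type]
    simp [v]
  have hu' : ∏ i, u' i = T ^ 4 := by
    rw [Fintype.prod_sum_type, Fintype.prod_sum_type]
    simp [u']
    ring
  rw [hu, hv, hu'] at hdet
  have hZO : ∀ l k, Z l k ∈ O := by
    intro l k
    simp only [Z, Matrix.of_apply]
    split_ifs
    · exact hz l
    · exact hEz k l
  refine ⟨Y.det, det_mem O Y ?_, ?_⟩
  · intro i j
    have ha0 : ∀ a k, a0 a k ∈ O := by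
      intro a k
      simp only [a0]
      split_ifs
      · exact O.mul_mem (ofNat_mem O 3) (hy _)
      · exact hEy _ _
    rcases i with i | a | t
    · rcases j with j | k
      · simp only [Y, Matrix.fromBlocks_apply₁₁, Matrix.smul_apply, smul_eq_mul,
          Matrix.one_apply_eq, mul_one]
        exact hπ
      · simp only [Y, Matrix.fromBlocks_apply₁₂, B', Matrix.of_apply]
        split_ifs
        · exact O.zero_mem
        · exact O.neg_mem (hwO _)
    · rcases j with j | k
      · simp only [Y, Matrix.fromBlocks_apply₂₁, C, Matrix.of_apply, Sum.elim_inl]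
        exact hy _
      · simp only [Y, Matrix.fromBlocks_apply₂₂, D', Matrix.of_apply, Sum.elim_inl]
        exact ha0 _ _
    · rcases j with j | k
      · simp only [Y, Matrix.fromBlocks_apply₂₁, C, Matrix.of_apply, Sum.elim_inr]
        exact O.zero_mem
      · simp only [Y, Matrix.fromBlocks_apply₂₂, D', Matrix.of_apply, Sum.elim_inr]
        exact hZO _ _
  · apply mul_left_cancel₀ hT
    change T * (π * (A.det * Z.det)) = T * (T ^ 3 * Y.det)
    linear_combination hdet

end

end Pool.Agent.K9h4
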