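import Mathlib
import Pool.Agent.K9h4.Loc

/-! # Base points of birational cubic maps onto smooth cubic fourfolds -/

set_option autoImplicit false

namespace Pool.Agent.K9h4

open MvPolynomial Pool.Agent.R845.E3 Pool.Agent.R845.T2 Pool.Agent.TH314.PD Pool.Agent.Y201.C3

noncomputable section

theorem hc_mul_zero {σ : Type} (H B : MvPolynomial σ ℂ) {a b : ℕ} (hB : B.IsHomogeneous b)
    (hab : a < b) : homogeneousComponent a (H * B) = 0 := by
  conv_lhs => rw [← sum_homogeneousComponent H, Finset.sum_mul, map_sum]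
  refine Finset.sum_eq_zero fun i _ => ?_
  have h2 : (homogeneousComponent i H * B).IsHomogeneous (i + b) :=
    (homogeneousComponent_isHomogeneous i H).mul hB
  rw [homogeneousComponent_of_mem h2, if_neg (by omega)]

theorem det_hom {σ ι : Type} [Fintype ι] [DecidableEq ι] {d : ℕ}
    (M : Matrix ι ι (MvPolynomial σ ℂ)) (hM : ∀ i j, (M i j).IsHomogeneous d) :
    M.det.IsHomogeneous (Fintype.card ι * d) := by
  rw [Matrix.det_apply']
  refine IsHomogeneous.sum _ _ _ fun τ _ => ?_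
  have h1 : (∏ i, M (τ i) i).IsHomogeneous (∑ _i : ι, d) :=
    IsHomogeneous.prod _ _ _ fun i _ => hM _ _
  rw [Finset.sum_const, Finset.card_univ, smul_eq_mul] at h1
  have h2 := (isHomogeneous_C σ ((Equiv.Perm.sign τ : ℤ) : ℂ)).mul h1
  rw [zero_add] at h2
  convert h2 using 2
  simp

/-- values of polynomials at regular points are regular -/
theorem aeval_mem' {S K : Type} [CommRing S] [Algebra ℂ S] [Field K] [Algebra S K] [Algebra ℂ K]
    [IsScalarTower ℂ S K] (O : Subalgebra S K) {N : ℕ} (z : Fin N → K) (hz : ∀ l, z l ∈ O)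
    (H : MvPolynomial (Fin N) ℂ) : aeval z H ∈ O := by
  induction H using MvPolynomial.induction_on with
  | C a =>
    rw [aeval_C, IsScalarTower.algebraMap_apply ℂ S K]
    exact O.algebraMap_mem _
  | add p q hp hq =>
    rw [map_add]
    exact O.add_mem hp hq
  | mul_X p i hp =>
    rw [map_mul, aeval_X]
    exact O.mul_mem hp (hz i)

/-- a coordinate of minimal order -/
theorem exists_min {S K : Type} [CommRing S] [Field K] [Algebra S K] (O : Subalgebra S K) (π : K)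
    (hπ : π ∈ O) (hπ0 : π ≠ 0)
    (hdec : ∀ y : K, y ≠ 0 → ∃ k : ℤ, y * π ^ (-k) ∈ O ∧ (y * π ^ (-k))⁻¹ ∈ O)
    {N : ℕ} (p : Fin N → K) (hp : p ≠ 0) : ∃ l0, p l0 ≠ 0 ∧ ∀ l, p l / p l0 ∈ O := by
  classical
  choose k hk hk' using fun y : {y : K // y ≠ 0} => hdec y.1 y.2
  let κ : Fin N → ℤ := fun l => if h : p l ≠ 0 then k ⟨p l, h⟩ else 0
  have hκ : ∀ l, p l ≠ 0 → p l * π ^ (-κ l) ∈ O ∧ (p l * π ^ (-κ l))⁻¹ ∈ O := by
    intro l hl
    have h1 : κ l = k ⟨p l, hl⟩ := dif_pos hl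
    rw [h1]
    exact ⟨hk ⟨p l, hl⟩, hk' ⟨p l, hl⟩⟩
  obtain ⟨j, hj⟩ := Function.ne_iff.1 hp
  obtain ⟨l0, hl0, hmin⟩ := Finset.exists_min_image (Finset.univ.filter fun l => p l ≠ 0) κ
    ⟨j, Finset.mem_filter.2 ⟨Finset.mem_univ _, hj⟩⟩
  rw [Finset.mem_filter] at hl0
  refine ⟨l0, hl0.2, fun l => ?_⟩
  by_cases hl : p l = 0
  · rw [hl, zero_div]
    exact O.zero_mem
  have h1 := hmin l (Finset.mem_filter.2 ⟨Finset.mem_univ _, hl⟩)
  obtain ⟨n, hn⟩ := Int.eq_ofNat_of_zero_le (sub_nonneg.2 h1)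
  have h2 : p l / p l0 = (p l * π ^ (-κ l)) * (p l0 * π ^ (-κ l0))⁻¹ * π ^ n := by
    have h3 : π ^ n = π ^ (κ l) * (π ^ (κ l0))⁻¹ := by
      rw [← zpow_natCast, ← hn, zpow_sub₀ hπ0, div_eq_mul_inv]
    have h4 : π ^ (κ l) ≠ 0 := zpow_ne_zero _ hπ0
    have h5 : π ^ (κ l0) ≠ 0 := zpow_ne_zero _ hπ0
    rw [h3, zpow_neg, zpow_neg]
    field_simp
  rw [h2]
  exact O.mul_mem (O.mul_mem (hκ l hl).1 (hκ l0 hl0.2).2) (O.pow_mem hπ n)

theorem deg_arg {F : MvPolynomial (Fin 6) ℂ} (hF : F.IsHomogeneous 3) (hprime : Prime F) {e : ℕ}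
    (A0 D0 Δ H : MvPolynomial (Fin 6) ℂ) (hA0 : A0.IsHomogeneous (e * 3))
    (hD0 : D0.IsHomogeneous 2) (hΔ : Δ.IsHomogeneous (5 * (e * 2))) (hA : ¬ F ∣ A0)
    (hD : ¬ F ∣ D0) : ¬ F ∣ A0 ^ 10 * D0 ^ 3 - H * (X 0 ^ 10 * Δ ^ 3) := by
  rintro ⟨Q, hQ⟩
  have h1 := congrArg (homogeneousComponent (30 * e + 6)) hQ
  have h2 : (A0 ^ 10 * D0 ^ 3).IsHomogeneous (30 * e + 6) := by
    have h3 := (hA0.pow 10).mul (hD0.pow 3)
    convert h3 using 1
    ring
  have h3 : (X 0 ^ 10 * Δ ^ 3 : MvPolynomial (Fin 6) ℂ).IsHomogeneous (30 * e + 10) := by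
    have h3 := ((isHomogeneous_X ℂ (0 : Fin 6)).pow 10).mul (hΔ.pow 3)
    convert h3 using 1
    ring
  rw [map_sub, hc_mul_zero H _ h3 (by omega), sub_zero, homogeneousComponent_of_mem h2,
    if_pos rfl, mul_comm F Q, hc_mul Q F hF (by omega)] at h1
  have h4 : F ∣ A0 ^ 10 * D0 ^ 3 := ⟨_, by rw [h1, mul_comm]⟩
  rcases hprime.dvd_or_dvd h4 with h | h
  · exact hA (hprime.dvd_of_dvd_pow h)
  · exact hD (hprime.dvd_of_dvd_pow h)

theorem aeval_zero_form' {N : ℕ} {M : Type} [Field M] [Algebra ℂ M] {P : MvPolynomial (Fin N) ℂ}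
    (hP : P.IsHomogeneous 3) : aeval (0 : Fin N → M) P = 0 := by
  have h2 := aeval_smul_form hP (0 : M) (0 : Fin N → M)
  have h3 : (fun i => (0 : M) * (0 : Fin N → M) i) = 0 := by
    funext i
    simp
  rw [h3] at h2
  rw [h2]
  simp

/-- specialization of a point over a local ring -/
theorem spec_val {S K : Type} [CommRing S] [Algebra ℂ S] [Field K] [Algebra S K] [Algebra ℂ K]
    [IsScalarTower ℂ S K] (O : Subalgebra S K) (mm : Ideal O) (hmm : mm.IsPrime) {N : ℕ}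
    (z : Fin N → K) (hzO : ∀ l, z l ∈ O) (l0 : Fin N) (hzl0 : z l0 = 1) :
    ∃ b : Fin N → ℂ, b l0 ≠ 0 ∧ ∀ H : MvPolynomial (Fin N) ℂ,
      (∀ hH : aeval z H ∈ O, (⟨_, hH⟩ : O) ∈ mm) → eval b H = 0 := by
  let κ := FractionRing (O ⧸ mm)
  let φ : O →ₐ[ℂ] κ := (IsScalarTower.toAlgHom ℂ (O ⧸ mm) κ).comp (Ideal.Quotient.mkₐ ℂ mm)
  have hφ : ∀ v : O, φ v = 0 ↔ v ∈ mm := by
    intro v
    change algebraMap (O ⧸ mm) κ (Ideal.Quotient.mk mm v) = 0 ↔ _
    rw [← map_zero (algebraMap (O ⧸ mm) κ), (IsFractionRing.injective (O ⧸ mm) κ).eq_iff,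
      Ideal.Quotient.eq_zero_iff_mem]
  let zO : Fin N → O := fun l => ⟨z l, hzO l⟩
  have hzOev : ∀ H : MvPolynomial (Fin N) ℂ, ((aeval zO H : O) : K) = aeval z H := by
    intro H
    exact comp_aeval_apply (f := zO) (O.val.restrictScalars ℂ) H
  obtain ⟨b, hb, hbH⟩ := exists_spec (fun l => φ (zO l)) l0 (by
    have h1 : zO l0 = 1 := Subtype.ext hzl0
    rw [h1, map_one]
    exact one_ne_zero)
  refine ⟨b, hb, fun H hH => hbH _ ?_⟩
  have h1 := comp_aeval_apply (f := zO) φ H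
  rw [← h1, hφ]
  have h2 : aeval zO H = ⟨aeval z H, aeval_mem' O z hzO H⟩ := Subtype.ext (hzOev H)
  rw [h2]
  exact hH _

theorem alg1 {K : Type} [Field K] [CharZero K] (T' l f d d' s W yb D0 T : K) (hT' : T' ≠ 0)
    (hl : l ≠ 0) (hf : f ≠ 0) (hd : d ≠ 0) (hd' : d' ≠ 0) (hW : W ≠ 0) (hyb : yb ≠ 0)
    (hs : s * s = 1) (e1 : T = T' * l ^ 3) (e2 : D0 * d' = s * (f * d))
    (e3 : d' * W = (T' * f) ^ 4 * (3 * T' * yb)) :
    T ^ 10 * D0 ^ 3 / (l ^ 10 * d) ^ 3 =
      s * (27 : K)⁻¹ * (f⁻¹) ^ 9 * (yb⁻¹) ^ 3 * (W ^ 3 / T' ^ 5) := by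
  have e2' : D0 = s * (f * d) / d' := by rw [eq_div_iff hd', e2]
  have e3' : d' = (T' * f) ^ 4 * (3 * T' * yb) / W := by rw [eq_div_iff hW, e3]
  have e4 : s ^ 3 = s := by
    calc s ^ 3 = s * (s * s) := by ring
      _ = s := by rw [hs, mul_one]
  rw [e2', e1, e3']
  field_simp
  rw [e4]
  ring

theorem alg2 {K : Type} [Field K] (T π : K) (hπ : π ≠ 0) (k : ℤ) (n : ℕ) (hk : k = n + 1) :
    T = π * ((T * π ^ (-k)) * π ^ n) := by
  rw [hk, zpow_neg, zpow_add_one₀ hπ, zpow_natCast]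
  field_simp

theorem alg3 {K : Type} [Field K] (π W T Y μ : K) (hμ : μ ≠ 0) (h : π * (μ * W) = T ^ 3 * Y) :
    π * W = T ^ 3 * (Y * μ⁻¹) := by
  rw [← mul_assoc, ← h]
  field_simp

/-- **Base points.** A birational map given by cubic forms from projective four-space to a smooth
cubic fourfold has a base point at which the Jacobian matrix has rank at most two. -/
theorem base_rank_two {F : MvPolynomial (Fin 6) ℂ} (hF : F.IsHomogeneous 3)
    (hsm : ∀ z : Fin 6 → ℂ, (∀ i, eval z (pderiv i F) = 0) → z = 0)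
    (G : Fin 6 → MvPolynomial (Fin 5) ℂ) (hG : ∀ i, (G i).IsHomogeneous 3)
    (hFG : aeval G F = 0) (e : ℕ) (P : Fin 5 → MvPolynomial (Fin 6) ℂ)
    (hP : ∀ l, (P l).IsHomogeneous e)
    (hGP : ∀ i j, F ∣ aeval P (G i) * X j - aeval P (G j) * X i)
    (hne : ¬ F ∣ aeval P (G 0)) :
    ∃ b : Fin 5 → ℂ, b ≠ 0 ∧ (∀ i, eval b (G i) = 0) ∧
      ∀ (r : Fin 3 → Fin 6) (q : Fin 3 → Fin 5),
        (Matrix.of fun a c => eval b (pderiv (q c) (G (r a)))).det = 0 := by
  classical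
  have hF0 : F ≠ 0 := ne_zero_of_smooth (m := 5) hsm
  have hirr : Irreducible F := Pool.Agent.R845.irreducible_of_smooth (by norm_num) (by norm_num)
    hF hF0 hsm
  have hprime : Prime F := hirr.prime
  let I : Ideal (MvPolynomial (Fin 6) ℂ) := Ideal.span {F}
  have hI : I.IsPrime := (Ideal.span_singleton_prime hF0).2 hprime
  let S := MvPolynomial (Fin 6) ℂ ⧸ I
  have : IsNoetherianRing S := inferInstance
  let K := FractionRing S
  have hinj : Function.Injective (algebraMap S K) := IsFractionRing.injective S K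
  let x : Fin 6 → S := fun i => Ideal.Quotient.mk I (X i)
  have hx : ∀ H : MvPolynomial (Fin 6) ℂ, aeval x H = Ideal.Quotient.mk I H := by
    intro H
    have h1 : (aeval x : MvPolynomial (Fin 6) ℂ →ₐ[ℂ] S) = Ideal.Quotient.mkₐ ℂ I := by
      apply MvPolynomial.algHom_ext
      intro i
      rw [aeval_X]
      rfl
    rw [h1]
    rfl
  have hsurj : Function.Surjective (aeval x : MvPolynomial (Fin 6) ℂ →ₐ[ℂ] S) := by
    intro s
    obtain ⟨H, rfl⟩ := Ideal.Quotient.mk_surjective s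
    exact ⟨H, hx H⟩
  have hker' : ∀ H : MvPolynomial (Fin 6) ℂ, aeval x H = 0 ↔ F ∣ H := by
    intro H
    rw [hx, Ideal.Quotient.eq_zero_iff_mem, Ideal.mem_span_singleton]
  have hker : ∀ H : MvPolynomial (Fin 6) ℂ, aeval x H = 0 → F ∣ H := fun H => (hker' H).1
  have hFx : aeval x F = 0 := (hker' F).2 dvd_rfl
  -- everything in the field
  let y : Fin 6 → K := fun i => algebraMap S K (x i)
  have hyev : ∀ H : MvPolynomial (Fin 6) ℂ, aeval y H = algebraMap S K (aeval x H) := by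
    intro H
    exact (comp_aeval_apply (f := x) (IsScalarTower.toAlgHom ℂ S K) H).symm
  have hyz : ∀ H : MvPolynomial (Fin 6) ℂ, aeval y H = 0 ↔ F ∣ H := by
    intro H
    rw [hyev, ← hker', ← map_zero (algebraMap S K), hinj.eq_iff]
  let p : Fin 5 → K := fun l => aeval y (P l)
  have hpev : ∀ H : MvPolynomial (Fin 5) ℂ, aeval p H = aeval y (aeval P H) := by
    intro H
    rw [comp_aeval_apply]
  have hy0 : ∀ i, y i ≠ 0 := by
    intro i h
    have h1 := (hyz (X i)).1 (by rw [aeval_X, h])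
    obtain ⟨Q, hQ⟩ := h1
    obtain ⟨h1, -⟩ := exists_form_quot hF (isHomogeneous_X ℂ i) hQ (X_ne_zero i)
    omega
  have hdF : ∀ j, ¬ F ∣ pderiv j F := by
    rintro j ⟨Q, hQ⟩
    have h1 : (pderiv j F).IsHomogeneous 2 := hF.pderiv
    have h2 : pderiv j F ≠ 0 := by
      intro h0
      refine comb_ne_zero (m := 5) (d := 3) (by norm_num) hF hsm (Pi.single j 1) ?_ ?_
      · intro h
        have := congrFun h j
        simp at this
      · rw [Finset.sum_eq_single j]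
        · rw [h0, mul_zero]
        · intro i _ hi
          rw [Pi.single_eq_of_ne hi, map_zero, zero_mul]
        · intro h
          exact absurd (Finset.mem_univ _) h
    obtain ⟨h3, -⟩ := exists_form_quot hF h1 hQ h2
    omega
  have hdFy : ∀ j, aeval y (pderiv j F) ≠ 0 := fun j h => hdF j ((hyz _).1 h)
  have hGp0 : aeval p (G 0) ≠ 0 := by
    rw [hpev]
    exact fun h => hne ((hyz _).1 h)
  set T : K := aeval p (G 0) / y 0 with hT
  have hT0 : T ≠ 0 := div_ne_zero hGp0 (hy0 0)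
  have hGT : ∀ i, aeval p (G i) = T * y i := by
    intro i
    have h1 := (hyz _).2 (hGP i 0)
    rw [map_sub, map_mul, map_mul, aeval_X, aeval_X, ← hpev, ← hpev, sub_eq_zero] at h1
    rw [hT, div_mul_eq_mul_div, eq_div_iff (hy0 0), h1]
  have hframe : ∀ c : Fin 6, ∃ E : Fin 5 → Derivation ℂ K K, (∀ k s, ∃ t : S,
      E k (algebraMap S K s) = algebraMap S K t) ∧
      ∀ k i, E k (y (c.succAbove i)) = if i = k then aeval y (pderiv c F) else 0 := by
    intro c
    choose E hE using fun k : Fin 5 => exists_tan (K := K) x hsurj hFx hker (c.succAbove k) c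
    refine ⟨E, fun k s => ?_, fun k i => ?_⟩
    · obtain ⟨H, rfl⟩ := hsurj s
      exact ⟨_, hE k H⟩
    · have h1 := hE k (X (c.succAbove i))
      rw [aeval_X] at h1
      change E k (algebraMap S K (x (c.succAbove i))) = _
      rw [h1, ← hyev]
      have h2 : pderiv c (X (c.succAbove i) : MvPolynomial (Fin 6) ℂ) = 0 := by
        rw [pderiv_X_of_ne (Fin.succAbove_ne c i)]
      rw [h2, mul_zero, sub_zero, map_mul]
      by_cases hik : i = k
      · rw [hik, if_pos rfl, pderiv_X_self, map_one, mul_one]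
      · rw [if_neg hik, pderiv_X_of_ne (fun h => hik (Fin.succAbove_right_injective h)), map_zero,
          mul_zero]
  -- the Jacobian determinants
  let dd : (Fin 5 → K) → Fin 6 → K := fun z c =>
    (Matrix.of fun i l => aeval z (pderiv l (G (c.succAbove i)))).det
  have hd0 : dd p 0 ≠ 0 := by
    obtain ⟨E, -, hE⟩ := hframe 0
    have h1 := jac_rel G hG y p T hT0 hGT 0 _ E hE 0
    intro h
    change dd p 0 * _ = _ at h1
    rw [h, zero_mul] at h1
    have h3 : (3 : K) ≠ 0 := by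
      have : CharZero K := charZero_of_injective_algebraMap (algebraMap ℂ K).injective
      norm_num
    exact mul_ne_zero (pow_ne_zero _ (mul_ne_zero hT0 (hdFy 0)))
      (mul_ne_zero (mul_ne_zero h3 hT0) (hy0 _)) h1.symm
  set h : K := T ^ 10 * aeval y (pderiv 0 F) ^ 3 / dd p 0 ^ 3 with hh
  -- the element has a pole
  have hnot : ∀ s : S, algebraMap S K s ≠ h := by
    intro s hs
    obtain ⟨H, rfl⟩ := hsurj s
    let Δ : MvPolynomial (Fin 6) ℂ :=
      (Matrix.of fun i l => aeval P (pderiv l (G ((0 : Fin 6).succAbove i)))).det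
    have hΔ : Δ.IsHomogeneous (5 * (e * 2)) := by
      refine det_hom _ fun i l => ?_
      exact (hG _).pderiv.aeval P hP
    have hΔy : aeval y Δ = dd p 0 := by
      change aeval y (Matrix.det _) = Matrix.det _
      rw [AlgHom.map_det]
      congr 1
      ext i l
      change aeval y (aeval P _) = aeval p _
      rw [hpev]
    refine deg_arg hF hprime (aeval P (G 0)) (pderiv 0 F) Δ H ((hG 0).aeval P hP) hF.pderiv hΔ hne
      (hdF 0) ((hyz _).1 ?_)
    have h1 : aeval y H * dd p 0 ^ 3 * y 0 ^ 10 = aeval p (G 0) ^ 10 *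
        aeval y (pderiv 0 F) ^ 3 := by
      have h2 : aeval y H = h := by rw [hyev, hs]
      have h4 : T ^ 10 * y 0 ^ 10 = aeval p (G 0) ^ 10 := by
        rw [← mul_pow, hT, div_mul_cancel₀ _ (hy0 0)]
      rw [h2, hh, div_mul_cancel₀ _ (pow_ne_zero 3 hd0), mul_right_comm, h4]
    simp only [map_sub, map_mul, map_pow, aeval_X]
    rw [hΔy, ← hpev, ← h1]
    ring
  obtain ⟨O, mm, π, hmm, hmem, hπ, hπ0, hπi, hdec, hhO, hder, c, b, hcb, hFc, hFc0, hxb⟩ :=
    exists_val (by norm_num) hF hsm x hsurj hFx hker h hnot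
  obtain ⟨k0, rfl⟩ := Fin.exists_succAbove_eq hcb.symm
  obtain ⟨E, hES, hE⟩ := hframe c
  have hEO : ∀ k, ∀ v ∈ O, E k v ∈ O := by
    intro k
    refine hder (E k) fun s => ?_
    obtain ⟨t, ht⟩ := hES k s
    rw [ht]
    exact O.algebraMap_mem t
  obtain ⟨l0, hl0, hmin⟩ := exists_min O π hπ hπ0 hdec p (by
    intro h0
    apply hGp0
    rw [h0]
    exact aeval_zero_form' (hG 0))
  -- the primitive vector
  let z : Fin 5 → K := fun l => p l / p l0
  have hzO : ∀ l, z l ∈ O := hmin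
  have hzl0 : z l0 = 1 := div_self hl0
  have hyO : ∀ i, y i ∈ O := fun i => O.algebraMap_mem _
  have hpz : p = fun l => p l0 * z l := by
    funext l
    exact (mul_div_cancel₀ _ hl0).symm
  set T' : K := T / p l0 ^ 3 with hT'
  have hl3 : p l0 ^ 3 ≠ 0 := pow_ne_zero _ hl0
  have hT'0 : T' ≠ 0 := div_ne_zero hT0 hl3
  have hGz : ∀ i, aeval z (G i) = T' * y i := by
    intro i
    have h1 := hGT i
    rw [hpz, aeval_smul_form (hG i)] at h1
    apply mul_left_cancel₀ hl3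
    rw [h1, hT', ← mul_assoc, mul_div_cancel₀ _ hl3]
  set f : K := aeval y (pderiv c F) with hf
  have hf0 : f ≠ 0 := hdFy c
  have hfi : f⁻¹ ∈ O := by
    rw [hf, hyev]
    exact hFc
  set yb : K := y (c.succAbove k0) with hyb
  have hyb0 : yb ≠ 0 := hy0 _
  have hybi : yb⁻¹ ∈ O := hxb
  set W : K := (Matrix.of fun l k => if k = k0 then z l else E k (z l)).det with hW
  have hWO : W ∈ O := by
    refine det_mem O _ fun l k => ?_
    simp only [Matrix.of_apply]
    split_ifs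
    · exact hzO l
    · exact hEO k _ (hzO l)
  have hT'O : T' ∈ O := by
    have h1 : T' = aeval z (G (c.succAbove k0)) * yb⁻¹ := by
      rw [hGz, mul_assoc, mul_inv_cancel₀ hyb0, mul_one]
    rw [h1]
    exact O.mul_mem (aeval_mem' O z hzO _) hybi
  have hj : dd z c * W = (T' * f) ^ 4 * (3 * T' * yb) :=
    jac_rel G hG y z T' hT'0 hGz c f E hE k0
  have hchar : CharZero K := charZero_of_injective_algebraMap (algebraMap ℂ K).injective
  have hW0 : W ≠ 0 := by
    intro h0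
    rw [h0, mul_zero] at hj
    exact mul_ne_zero (pow_ne_zero _ (mul_ne_zero hT'0 hf0))
      (mul_ne_zero (mul_ne_zero (by norm_num) hT'0) hyb0) hj.symm
  have hdz0 : dd z c ≠ 0 := by
    intro h0
    rw [h0, zero_mul] at hj
    exact mul_ne_zero (pow_ne_zero _ (mul_ne_zero hT'0 hf0))
      (mul_ne_zero (mul_ne_zero (by norm_num) hT'0) hyb0) hj.symm
  obtain ⟨s, hs, hm⟩ := minor_rel hF G hFG y z T' hT'0 hGz hdFy c 0
  change aeval y (pderiv 0 F) * dd z c = s * (f * dd z 0) at hm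
  have hdp : dd p 0 = p l0 ^ 10 * dd z 0 := by
    change Matrix.det _ = _ * Matrix.det _
    have h1 : (Matrix.of fun i l => aeval p (pderiv l (G ((0 : Fin 6).succAbove i)))) =
        (p l0 ^ 2) • (Matrix.of fun i l => aeval z (pderiv l (G ((0 : Fin 6).succAbove i)))) := by
      ext i l
      have h2 : (pderiv l (G ((0 : Fin 6).succAbove i))).IsHomogeneous 2 := (hG _).pderiv
      rw [Matrix.smul_apply, Matrix.of_apply, Matrix.of_apply, smul_eq_mul]
      conv_lhs => rw [hpz]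
      exact aeval_smul_form h2 _ _
    rw [h1, Matrix.det_smul, Fintype.card_fin]
    ring
  -- the order of the Jacobian determinant
  have hpole : W ^ 3 / T' ^ 5 ∉ O := by
    intro hcon
    apply hhO
    have h27 : ((27 : K))⁻¹ ∈ O := by
      have h1 : ((27 : K))⁻¹ = algebraMap S K (algebraMap ℂ S (27 : ℂ)⁻¹) := by
        rw [← IsScalarTower.algebraMap_apply ℂ S K, map_inv₀, map_ofNat]
      rw [h1]
      exact O.algebraMap_mem _
    have hsO : s ∈ O := by
      have h1 : (s - 1) * (s + 1) = 0 := by linear_combination hs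
      rcases mul_eq_zero.1 h1 with h1 | h1
      · rw [sub_eq_zero.1 h1]
        exact O.one_mem
      · rw [eq_neg_of_add_eq_zero_left h1]
        exact O.neg_mem O.one_mem
    have h1 : h = s * (27 : K)⁻¹ * (f⁻¹) ^ 9 * (yb⁻¹) ^ 3 * (W ^ 3 / T' ^ 5) := by
      have hd00 : dd z 0 ≠ 0 := by
        intro h0
        apply hd0
        rw [hdp, h0, mul_zero]
      rw [hh, hdp]
      exact alg1 T' (p l0) f (dd z 0) (dd z c) s W yb _ T hT'0 hl0 hf0 hd00 hdz0 hW0 hyb0 hs
        (by rw [hT', div_mul_cancel₀ _ hl3]) hm hj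
    rw [h1]
    exact O.mul_mem (O.mul_mem (O.mul_mem (O.mul_mem hsO h27) (O.pow_mem hfi _))
      (O.pow_mem hybi _)) hcon
  have hT'i : T'⁻¹ ∉ O := by
    intro h1
    apply hpole
    rw [div_eq_mul_inv, ← inv_pow]
    exact O.mul_mem (O.pow_mem hWO _) (O.pow_mem h1 _)
  -- the common factor is divisible by the uniformizer
  obtain ⟨t', ht'O, ht'⟩ : ∃ t' ∈ O, T' = π * t' := by
    obtain ⟨k, hk1, hk2⟩ := hdec T' hT'0
    have hk0 : 1 ≤ k := by
      by_contra hlt
      push Not at hlt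
      apply hT'i
      obtain ⟨n, hn⟩ := Int.eq_ofNat_of_zero_le (show 0 ≤ -k by omega)
      have h1 : T'⁻¹ = (T' * π ^ (-k))⁻¹ * π ^ n := by
        rw [hn, zpow_natCast, mul_inv, mul_assoc,
          inv_mul_cancel₀ (pow_ne_zero _ hπ0), mul_one]
      rw [h1]
      exact O.mul_mem hk2 (O.pow_mem hπ _)
    obtain ⟨n, hn⟩ := Int.eq_ofNat_of_zero_le (show 0 ≤ k - 1 by omega)
    refine ⟨(T' * π ^ (-k)) * π ^ n, O.mul_mem hk1 (O.pow_mem hπ _), ?_⟩
    exact alg2 T' π hπ0 k n (by omega)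
  have hT'm : (⟨T', hT'O⟩ : O) ∈ mm := (hmem _).2 (Or.inr hT'i)
  -- the minors
  have hminor : ∀ (r : Fin 3 → Fin 6) (q : Fin 3 → Fin 5) (hμ :
      (Matrix.of fun a c => aeval z (pderiv (q c) (G (r a)))).det ∈ O),
      (⟨_, hμ⟩ : O) ∈ mm := by
    intro r q hμ
    by_contra hcon
    rw [hmem] at hcon
    push Not at hcon
    obtain ⟨hμ0, hμi⟩ := hcon
    have hq : Function.Injective q := by
      intro a a' haa
      by_contra hne'
      apply hμ0
      exact Matrix.det_zero_of_column_eq hne' fun i => by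
        simp only [Matrix.of_apply, haa]
    obtain ⟨Y, hYO, hY⟩ := minor_div O π T' hπ hT'0 G hG y z hGz E k0 hzO hyO
      (fun k l => hEO k _ (hzO l)) (fun k i => hEO k _ (hyO i))
      (fun k => log_der O π hπ hπ0 hdec (E k) (hEO k) T' hT'0) r q hq
    set μ := (Matrix.of fun a c => aeval z (pderiv (q c) (G (r a)))).det with hμdef
    apply hpole
    have h1 : W ^ 3 / T' ^ 5 = π * t' ^ 4 * (Y * μ⁻¹) ^ 3 := by
      have h2 : π * W = T' ^ 3 * (Y * μ⁻¹) := by
        exact alg3 π W T' Y μ hμ0 hY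
      rw [div_eq_iff (pow_ne_zero _ hT'0)]
      apply mul_left_cancel₀ (pow_ne_zero 3 hπ0)
      calc π ^ 3 * W ^ 3 = (π * W) ^ 3 := by ring
        _ = (T' ^ 3 * (Y * μ⁻¹)) ^ 3 := by rw [h2]
        _ = T' ^ 4 * T' ^ 5 * (Y * μ⁻¹) ^ 3 := by ring
        _ = (π * t') ^ 4 * T' ^ 5 * (Y * μ⁻¹) ^ 3 := by rw [← ht']
        _ = π ^ 3 * (π * t' ^ 4 * (Y * μ⁻¹) ^ 3 * T' ^ 5) := by ring
    rw [h1]
    exact O.mul_mem (O.mul_mem hπ (O.pow_mem ht'O _)) (O.pow_mem (O.mul_mem hYO hμi) _)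
  -- specialization
  obtain ⟨b, hb, hspec⟩ := spec_val O mm hmm z hzO l0 hzl0
  refine ⟨b, fun h0 => hb (by rw [h0]; rfl), fun i => hspec _ fun hH => ?_, fun r q => ?_⟩
  · have h1 : (⟨aeval z (G i), hH⟩ : O) = ⟨T', hT'O⟩ * ⟨y i, hyO i⟩ := Subtype.ext (hGz i)
    rw [h1]
    exact mm.mul_mem_right _ hT'm
  · have h1 := hspec (Matrix.of fun a c => pderiv (q c) (G (r a))).det (by
      have h2 : aeval z (Matrix.of fun a c => pderiv (q c) (G (r a))).det =
          (Matrix.of fun a c => aeval z (pderiv (q c) (G (r a)))).det := by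
        rw [AlgHom.map_det]
        rfl
      rw [h2]
      exact hminor r q)
    rw [RingHom.map_det] at h1
    exact h1

end

end Pool.Agent.K9h4
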