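import Mathlib
import Pool.Agent.R845.E3.All
import Pool.Agent.R845.E3.Sections
import Pool.Agent.K9h4.Chd

/-! # The fibres of the projection of a very general cubic from a linear subspace -/

set_option autoImplicit false

namespace Pool.Agent.K9h4

open MvPolynomial Pool.Agent.TH314.PD Module Pool.Agent.Y201.C3 IntermediateField
open Pool.Agent.R845.T2 Pool.Agent.R845.E3 Pool.Agent.N122

noncomputable section

/-- changes of coordinates preserve generic points of projective space -/
theorem gen_tp {k m : ℕ} {E : Type} [Field E] [Algebra ℂ E]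
    (U : Fin (k + 1) → Fin (m + 1) → ℂ) {y : Fin (k + 1 + (m + 1)) → E} (hy : Gen y) :
    Gen (tp U y) := by
  intro e H hH h0
  rw [← aeval_shear_neg] at h0
  have h1 := hy e _ (shear_hom hH _) h0
  rw [← shear_neg_shear U H, h1]
  unfold shear
  rw [map_zero]

theorem gen_perm {N N' : ℕ} (σ : Fin N ≃ Fin N') {E : Type} [Field E] [Algebra ℂ E]
    {y : Fin N' → E} (hy : Gen y) : Gen (fun i => y (σ i)) := by
  intro e H hH h0
  have h1 := hy e (rename σ H) hH.rename_isHomogeneous (by
    rw [aeval_rename]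
    exact h0)
  exact (rename_injective σ σ.injective) (h1.trans (map_zero _).symm)

variable {n : ℕ} {F : MvPolynomial (Fin (n + 2)) ℂ}

/-- a proper linear subspace is contained in a hyperplane -/
theorem exists_hyper (hF0 : F ≠ 0) {r : ℕ} (A : Fin r → Fin (n + 2) → ℂ)
    (hA : ∀ a : Fin r → ℂ, eval (fun i => ∑ l, a l * A l i) F = 0) :
    ∃ b : Fin (n + 2) → ℂ, b ≠ 0 ∧ ∀ l, ∑ i, b i * A l i = 0 := by
  classical
  have hne : Submodule.span ℂ (Set.range A) ≠ ⊤ := by
    intro htop
    apply hF0
    apply MvPolynomial.funext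
    intro u
    have hu : u ∈ Submodule.span ℂ (Set.range A) := by rw [htop]; trivial
    rw [Submodule.mem_span_range_iff_exists_fun] at hu
    obtain ⟨a, ha⟩ := hu
    rw [map_zero, ← hA a]
    congr 1
    congr 1
    funext i
    rw [← ha, Finset.sum_apply]
    rfl
  obtain ⟨f, hf, hle⟩ := Submodule.exists_le_ker_of_lt_top _ (lt_top_iff_ne_top.2 hne)
  have hfv : ∀ v : Fin (n + 2) → ℂ, f v = ∑ i, f (Pi.single i 1) * v i := by
    intro v
    conv_lhs => rw [← Finset.univ_sum_single v]
    rw [map_sum]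
    refine Finset.sum_congr rfl fun i _ => ?_
    have h1 : (Pi.single i (v i) : Fin (n + 2) → ℂ) = v i • Pi.single i 1 := by
      rw [← Pi.single_smul]
      simp
    rw [h1, map_smul, smul_eq_mul, mul_comm]
  refine ⟨fun i => f (Pi.single i 1), ?_, fun l => ?_⟩
  · intro h0
    apply hf
    ext v
    simp only [LinearMap.comp_apply]
    have := congrFun h0 v
    simpa using this
  · rw [← hfv]
    exact hle (Submodule.subset_span ⟨l, rfl⟩)

variable {M : Type} [Field M] [Algebra ℂ M]

theorem rel_sum {r : ℕ} (A : Fin r → Fin (n + 2) → ℂ) (b : Fin (n + 2) → ℂ)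
    (hb : ∀ l, ∑ i, b i * A l i = 0) (w : Fin r → M) :
    ∑ i, algebraMap ℂ M (b i) * ∑ l, w l * algebraMap ℂ M (A l i) = 0 := by
  have h1 : ∀ i, algebraMap ℂ M (b i) * ∑ l, w l * algebraMap ℂ M (A l i) =
      ∑ l, w l * algebraMap ℂ M (b i * A l i) := by
    intro i
    rw [Finset.mul_sum]
    refine Finset.sum_congr rfl fun l _ => ?_
    rw [map_mul]
    ring
  rw [Finset.sum_congr rfl fun i _ => h1 i, Finset.sum_comm]
  refine Finset.sum_eq_zero fun l _ => ?_
  rw [← Finset.mul_sum, ← map_sum, hb, map_zero, mul_zero]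

/-- a generic point of the cubic is independent of the points of a hyperplane -/
theorem indep' (hF : F.IsHomogeneous 3) (x c : Fin (n + 2) → M)
    (hG : Gp F x) (hc : c ≠ 0) (b : Fin (n + 2) → ℂ) (hb0 : b ≠ 0)
    (hb : ∑ i, algebraMap ℂ M (b i) * c i = 0) : LinearIndependent M ![x, c] := by
  rw [LinearIndependent.pair_iff]
  intro u v huv
  have hu : u = 0 := by
    by_contra hu
    apply hb0
    refine gen_li hF x hG.2 b ?_
    have h1 : ∀ i, x i = -(v / u) * c i := by
      intro i
      have h2 := congrFun huv i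
      simp only [Pi.add_apply, Pi.smul_apply, smul_eq_mul, Pi.zero_apply] at h2
      field_simp
      linear_combination h2
    have h2 : ∀ i, algebraMap ℂ M (b i) * x i = -(v / u) * (algebraMap ℂ M (b i) * c i) := by
      intro i
      rw [h1]
      ring
    rw [Finset.sum_congr rfl fun i _ => h2 i, ← Finset.mul_sum, hb, mul_zero]
  refine ⟨hu, ?_⟩
  rw [hu, zero_smul, zero_add] at huv
  exact (smul_eq_zero.1 huv).resolve_right hc

/-- the generic point of a line through `x` which meets `W` is not of odd degree -/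
theorem not_special (hn : 3 ≤ n) (hF : F.IsHomogeneous 3) (hsm : Sm F)
    (hind : AlgebraicIndependent ℚ
      (fun β : {β : Fin (n + 2) →₀ ℕ // β.degree = 3} => coeff β.1 F))
    {r : ℕ} (A : Fin r → Fin (n + 2) → ℂ)
    (hA : ∀ a : Fin r → ℂ, eval (fun i => ∑ l, a l * A l i) F = 0)
    (x : Fin (n + 2) → M) (hx : aeval x F = 0) (w : Fin r → M)
    (hc : (fun i => ∑ l, w l * algebraMap ℂ M (A l i)) ≠ 0) :
    ¬ Special x (fun i => ∑ l, w l * algebraMap ℂ M (A l i)) := by
  classical
  rintro ⟨hgen, hodd⟩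
  set c : Fin (n + 2) → M := fun i => ∑ l, w l * algebraMap ℂ M (A l i) with hcdef
  have hF0 : F ≠ 0 := ne_zero_of_smooth (m := n + 1) hsm
  have hA0 : (fun (i : Fin (n + 2)) (l : Fin r) => A l i) ≠ 0 := by
    intro h0
    apply hc
    funext i
    rw [hcdef]
    simp only [Pi.zero_apply]
    refine Finset.sum_eq_zero fun l _ => ?_
    have h1 : A l i = 0 := congrFun (congrFun h0 i) l
    rw [h1, map_zero, mul_zero]
  obtain ⟨k, m, σ, U, hW, htp⟩ := adapt0 hF0 (fun i l => A l i) hA0 hA
  have hkm : k + m = n := by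
    have h1 := Fintype.card_congr σ
    rw [Fintype.card_fin, Fintype.card_fin] at h1
    omega
  have hF1h : (rename σ.symm F).IsHomogeneous 3 := hF.rename_isHomogeneous
  refine at_all k m (by omega) _ hF1h (sm_rename σ.symm hsm) (ind_rename σ.symm hind) U hW ?_
  set φ : M → FractionRing (Polynomial M) := fun v => algebraMap (Polynomial M)
    (FractionRing (Polynomial M)) (Polynomial.C v) with hφ
  let f : M →ₐ[ℂ] FractionRing (Polynomial M) := (IsScalarTower.toAlgHom ℂ (Polynomial M)
      (FractionRing (Polynomial M))).comp (Polynomial.CAlgHom : M →ₐ[ℂ] Polynomial M)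
  have hf : ∀ v, f v = φ v := fun _ => rfl
  set y := gl x c with hy
  have hyi : ∀ i, y i = algebraMap (Polynomial M) (FractionRing (Polynomial M)) Polynomial.X *
      φ (c i) + φ (x i) := by
    intro i
    rw [hy, hφ]
    unfold gl
    rw [map_add, map_mul]
    ring
  have hy1 : Gen (fun i => y (σ i)) := gen_perm σ hgen
  have hy2 := gen_tp U hy1
  have hrat : ratioField (tp U fun i => y (σ i)) = ratioField y := by
    rw [ratioField_tp U _ ⟨_, gen_ne hy1 (Fin.castAdd (m + 1) 0)⟩
      ⟨_, gen_ne hy2 (Fin.castAdd (m + 1) 0)⟩]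
    have h1 := ratioField_perm σ.symm y
    simpa only [Equiv.symm_symm] using h1
  refine iso_of_odd spr desc (shear_hom hF1h U) hW (tp U fun i => φ (x (σ i)))
    (tp U fun i => y (σ i)) ?_ hy2 ?_ (by rw [hrat]; exact hodd)
  · rw [aeval_tp, aeval_rename]
    have h1 : ((fun i => φ (x (σ i))) ∘ σ.symm) = fun i => f (x i) := by
      funext i
      simp only [Function.comp_apply, Equiv.apply_symm_apply, hf]
    rw [h1, ← comp_aeval_apply, hx, map_zero]
  · intro j
    have h1 : (fun i => y (σ i)) = fun i =>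
        (algebraMap (Polynomial M) (FractionRing (Polynomial M)) Polynomial.X) * φ (c (σ i)) +
        0 * φ (c (σ i)) + φ (x (σ i)) := by
      funext i
      rw [hyi]
      ring
    have h2 : (fun i => φ (c (σ i))) = fun i => ∑ l, φ (w l) *
        algebraMap ℂ (FractionRing (Polynomial M)) (A l (σ i)) := by
      funext i
      rw [← hf, hcdef]
      simp only
      rw [map_sum]
      refine Finset.sum_congr rfl fun l _ => ?_
      rw [map_mul, hf, AlgHom.commutes]
    rw [h1, tp_lin U _ 0 (fun i => φ (c (σ i))) (fun i => φ (c (σ i))) (fun i => φ (x (σ i)))]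
    simp only
    rw [h2]
    rw [htp (FractionRing (Polynomial M)) (fun l => φ (w l)) j]
    ring

/-- **Points of the fibres of the projection from a linear subspace.** -/
theorem proj_fibre (hn : 3 ≤ n) (hF : F.IsHomogeneous 3) (hsm : Sm F)
    (hind : AlgebraicIndependent ℚ
      (fun β : {β : Fin (n + 2) →₀ ℕ // β.degree = 3} => coeff β.1 F))
    {r : ℕ} (A : Fin r → Fin (n + 2) → ℂ)
    (hA : ∀ a : Fin r → ℂ, eval (fun i => ∑ l, a l * A l i) F = 0)
    (x y : Fin (n + 2) → M) (hyF : aeval y F = 0) (hG : Gp F x)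
    (hodd : Odd (finrank (ratioField x) M)) (s : M) (w : Fin r → M) (hs : s ≠ 0)
    (hy : ∀ i, y i = s * x i + ∑ l, w l * algebraMap ℂ M (A l i)) :
    Gp F y ∧ Odd (finrank (ratioField y) M) := by
  set c : Fin (n + 2) → M := fun i => ∑ l, w l * algebraMap ℂ M (A l i) with hc
  have hy1 : y = fun i => s * x i + 1 * c i := by
    funext i
    rw [hy, one_mul]
  by_cases hc0 : c = 0
  · have hy2 : y = fun i => s * x i := by
      rw [hy1, hc0]
      funext i
      simp
    rw [hy2]
    exact gscale hF x s hs hG hodd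
  rw [hy1] at hyF ⊢
  obtain ⟨b, hb0, hb⟩ := exists_hyper (ne_zero_of_smooth (m := n + 1) hsm) A hA
  have hbc := rel_sum (M := M) A b hb w
  exact chord_of hF hsm x c hG hodd (indep' hF x c hG hc0 b hb0 hbc)
    (fun h => hb0 (gen_li hF c h.2 b hbc)) (span_aeval A hA w)
    (not_special hn hF hsm hind A hA x hG.1 w hc0) s 1 hs hyF

/-- **Conics through a point of odd degree.** -/
theorem proj_conic (hn : 3 ≤ n) (hF : F.IsHomogeneous 3) (hsm : Sm F)
    (hind : AlgebraicIndependent ℚ
      (fun β : {β : Fin (n + 2) →₀ ℕ // β.degree = 3} => coeff β.1 F))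
    {r : ℕ} (A : Fin r → Fin (n + 2) → ℂ)
    (hA : ∀ a : Fin r → ℂ, eval (fun i => ∑ l, a l * A l i) F = 0)
    (x β : Fin (n + 2) → M) (hG : Gp F x)
    (hodd : Odd (finrank (ratioField x) M)) (w : Fin r → M)
    (hc0 : (fun i => ∑ l, w l * algebraMap ℂ M (A l i)) ≠ 0)
    (h : ∀ t : M, aeval (fun j => t ^ 2 * (∑ l, w l * algebraMap ℂ M (A l j)) + t * β j + x j) F
      = 0) : False := by
  obtain ⟨b, hb0, hb⟩ := exists_hyper (ne_zero_of_smooth (m := n + 1) hsm) A hA
  have hbc := rel_sum (M := M) A b hb w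
  exact conic_of hF hsm x _ β hG hodd (indep' hF x _ hG hc0 b hb0 hbc)
    (fun h => hb0 (gen_li hF _ h.2 b hbc)) (span_aeval A hA w)
    (not_special hn hF hsm hind A hA x hG.1 w hc0) h

end

end Pool.Agent.K9h4
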