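import Mathlib
import Pool.Agent.R845.Zero
import Pool.Agent.R845.E3.ConP
import Pool.Agent.K9h4.Proj

/-! # Cubic parametrizations of a very general cubic by projective spaces of any dimension -/

set_option autoImplicit false

namespace Pool.Agent.K9h4

open MvPolynomial Pool.Agent.TH314.PD Module Pool.Agent.Y201.C3 IntermediateField
open Pool.Agent.R845.T2 Pool.Agent.R845.E3 Pool.Agent.N122

noncomputable section

variable {n : ℕ} {F : MvPolynomial (Fin (n + 2)) ℂ}

/-- base points exist if there are many variables -/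
theorem exists_base {N : ℕ} (hN : n + 2 ≤ N) (hF : F.IsHomogeneous 3) (hF0 : F ≠ 0)
    (H : Fin (n + 2) → MvPolynomial (Fin N) ℂ) (hH : ∀ i, (H i).IsHomogeneous 3)
    (hFH : aeval H F = 0) : ∃ b : Fin N → ℂ, b ≠ 0 ∧ ∀ i, eval b (H i) = 0 := by
  classical
  obtain ⟨v, hv⟩ : ∃ v : Fin (n + 2) → ℂ, eval v F ≠ 0 := by
    by_contra hcon
    push Not at hcon
    exact hF0 (MvPolynomial.funext fun v => by rw [hcon v, map_zero])
  have hv0 : v ≠ 0 := by
    rintro rfl
    apply hv
    have h1 := aeval_smul_form hF (0 : ℂ) (0 : Fin (n + 2) → ℂ)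
    rw [← coe_aeval_eq_eval, RingHom.coe_coe]
    have h2 : (fun i => (0 : ℂ) * (0 : Fin (n + 2) → ℂ) i) = 0 := by
      funext i
      simp
    rw [h2] at h1
    rw [h1]
    simp
  obtain ⟨j, hj⟩ := Function.ne_iff.1 hv0
  rw [Pi.zero_apply] at hj
  obtain ⟨b, hb0, hb⟩ := Pool.Agent.R845.exists_other_zero' (n := N) (ι := Fin (n + 1))
    (by rw [Fintype.card_fin]; omega)
    (fun l => H (j.succAbove l) - C (v (j.succAbove l) / v j) * H j) 0 (by
      intro l
      have h1 : ∀ i, eval (0 : Fin N → ℂ) (H i) = 0 := by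
        intro i
        have h1 := aeval_smul_form (hH i) (0 : ℂ) (0 : Fin N → ℂ)
        rw [← coe_aeval_eq_eval, RingHom.coe_coe]
        have h2 : (fun i => (0 : ℂ) * (0 : Fin N → ℂ) i) = 0 := by
          funext i
          simp
        rw [h2] at h1
        rw [h1]
        simp
      rw [map_sub, map_mul, h1, h1, mul_zero, sub_zero])
  have hall : ∀ i, eval b (H i) = (eval b (H j) / v j) * v i := by
    intro i
    by_cases hij : i = j
    · rw [hij]
      field_simp
    · obtain ⟨l, rfl⟩ := Fin.exists_succAbove_eq hij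
      have h1 := hb l
      rw [map_sub, map_mul, eval_C, sub_eq_zero] at h1
      rw [h1]
      ring
  have h1 : eval (fun i => eval b (H i)) F = 0 := by
    have h2 := congrArg (aeval b) hFH
    rw [map_zero, comp_aeval_apply] at h2
    rw [← coe_aeval_eq_eval, RingHom.coe_coe, ← h2]
    congr 2
  have h2 : (fun i => eval b (H i)) = fun i => (eval b (H j) / v j) * v i := funext hall
  have h3 : eval (fun i => (eval b (H j) / v j) * v i) F =
      (eval b (H j) / v j) ^ 3 * eval v F := by
    have := aeval_smul_form hF (eval b (H j) / v j) v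
    rw [← coe_aeval_eq_eval, RingHom.coe_coe]
    exact this
  rw [h2, h3] at h1
  have h4 : eval b (H j) / v j = 0 := by
    have := (mul_eq_zero.1 h1).resolve_right hv
    exact pow_eq_zero_iff (by norm_num) |>.1 this
  exact ⟨b, hb0, fun i => by rw [hall, h4, zero_mul]⟩

variable {M : Type} [Field M] [Algebra ℂ M]

/-- dehomogenization -/
theorem dehom_deg {n : ℕ} (P : MvPolynomial (Fin (n + 1)) ℂ) (hP : P.IsHomogeneous 3) :
    (aeval (Fin.cons 1 X : Fin (n + 1) → MvPolynomial (Fin n) ℂ) P).totalDegree ≤ 3 := by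
  rw [P.as_sum, map_sum]
  refine totalDegree_finsetSum_le fun α hα => ?_
  rw [aeval_monomial]
  refine (totalDegree_mul _ _).trans ?_
  rw [algebraMap_eq, totalDegree_C, zero_add, Finsupp.prod]
  refine (totalDegree_finsetProd _ _).trans ?_
  have h0 : ∀ i : Fin (n + 1), ((Fin.cons 1 X : Fin (n + 1) → MvPolynomial (Fin n) ℂ) i).totalDegree
      ≤ 1 := by
    intro i
    refine Fin.cases ?_ (fun i => ?_) i
    · rw [Fin.cons_zero, totalDegree_one]
      exact zero_le_one
    · rw [Fin.cons_succ, totalDegree_X]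
  have h1 : ∑ i ∈ α.support, ((Fin.cons 1 X : Fin (n + 1) → MvPolynomial (Fin n) ℂ) i ^
      α i).totalDegree ≤ ∑ i ∈ α.support, α i := by
    refine Finset.sum_le_sum fun i _ => ?_
    refine (totalDegree_pow _ _).trans ?_
    calc α i * ((Fin.cons 1 X : Fin (n + 1) → MvPolynomial (Fin n) ℂ) i).totalDegree ≤
        α i * 1 := Nat.mul_le_mul_left _ (h0 i)
      _ = α i := mul_one _
  exact h1.trans ((le_totalDegree hα).trans hP.totalDegree_le)

/-- not more variables than the dimension plus one -/
theorem stable_low (hn : 3 ≤ n) (hF : F.IsHomogeneous 3) (hsm : Sm F)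
    (hind : AlgebraicIndependent ℚ
      (fun β : {β : Fin (n + 2) →₀ ℕ // β.degree = 3} => coeff β.1 F))
    (H : Fin (n + 2) → MvPolynomial (Fin (n + 1)) ℂ) (hH : ∀ i, (H i).IsHomogeneous 3)
    (hFH : aeval H F = 0) (τ : Fin (n + 1) → M) (hτ0 : τ 0 ≠ 0)
    (hG : Gp F (fun i => aeval τ (H i))) :
    Even (finrank (ratioField fun i => aeval τ (H i)) M) := by
  classical
  set x : Fin (n + 2) → M := fun i => aeval τ (H i) with hx
  set u : Fin n → M := fun l => τ l.succ / τ 0 with hu
  have hx0 : ∀ i, x i ≠ 0 := coord_ne_zero hF (by norm_num) x hG.2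
  -- the ratios are algebraically independent
  have hτu : τ = fun l => τ 0 * (Fin.cons 1 u : Fin (n + 1) → M) l := by
    funext l
    refine Fin.cases ?_ (fun l => ?_) l
    · rw [Fin.cons_zero, mul_one]
    · rw [Fin.cons_succ, hu]
      simp only
      rw [mul_div_cancel₀ _ hτ0]
  set G : Fin (n + 2) → MvPolynomial (Fin n) ℂ := fun i =>
    aeval (Fin.cons 1 X : Fin (n + 1) → MvPolynomial (Fin n) ℂ) (H i) with hGdef
  have hGu : ∀ i, aeval u (G i) = aeval (Fin.cons 1 u : Fin (n + 1) → M) (H i) := by
    intro i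
    rw [hGdef]
    simp only
    rw [comp_aeval_apply]
    congr 2
    funext l
    refine Fin.cases ?_ (fun l => ?_) l
    · rw [Fin.cons_zero, Fin.cons_zero, map_one]
    · rw [Fin.cons_succ, Fin.cons_succ, aeval_X]
  have hxG : ∀ i, x i = τ 0 ^ 3 * aeval u (G i) := by
    intro i
    rw [hx]
    simp only
    rw [hGu]
    conv_lhs => rw [hτu]
    exact aeval_smul_form (hH i) _ _
  have hGp' : Gp F (fun i => aeval u (G i)) := by
    have hxe : x = fun i => τ 0 ^ 3 * aeval u (G i) := funext hxG
    refine ⟨?_, fun e P hP h0 => ?_⟩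
    · have h1 := hG.1
      rw [hxe, aeval_smul_form hF] at h1
      exact (mul_eq_zero.1 h1).resolve_left (pow_ne_zero _ (pow_ne_zero _ hτ0))
    · refine hG.2 e P hP ?_
      rw [hxe, aeval_smul_form hP, h0, mul_zero]
  have hrat : ratioField x = ratioField (fun i => aeval u (G i)) := by
    have h1 := Pool.Agent.Y929.LI.ratioField_div x (pow_ne_zero 3 hτ0)
    rw [← h1]
    congr 1
    funext i
    rw [hxG]
    rw [mul_div_cancel_left₀ _ (pow_ne_zero _ hτ0)]
  have huind : AlgebraicIndependent ℂ u := by
    -- the ratios of `x` give `n` independent elements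
    obtain ⟨v, hv, hvx⟩ := Pool.Agent.TH314.PD.exists_indep hF (by norm_num)
      (ne_zero_of_smooth (m := n + 1) hsm) hGp'.2
    apply Trd.indep_of_le
    rw [← Trd.rk_range hv]
    apply Trd.rk_le_of_subset_adjoin
    rintro _ ⟨l, rfl⟩
    obtain ⟨a, b, hab⟩ := hvx l
    have hmem : ∀ p : MvPolynomial (Fin n) ℂ, aeval u p ∈ adjoin ℂ (Set.range u) := by
      intro p
      induction p using MvPolynomial.induction_on with
      | C a =>
        rw [aeval_C]
        exact (adjoin ℂ (Set.range u)).algebraMap_mem a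
      | add p q hp hq => rw [map_add]; exact add_mem hp hq
      | mul_X p j hp =>
        rw [map_mul, aeval_X]
        exact mul_mem hp (subset_adjoin _ _ ⟨j, rfl⟩)
    rw [hab]
    exact div_mem (hmem _) (hmem _)
  -- the embedding of the field of rational functions
  let φ : Rn n →ₐ[ℂ] M := IsFractionRing.liftAlgHom (K := Rn n) huind
  have hφ : ∀ p : MvPolynomial (Fin n) ℂ, φ (algebraMap (MvPolynomial (Fin n) ℂ) (Rn n) p) =
      aeval u p := fun p => IsFractionRing.lift_algebraMap huind p
  set g : Fin (n + 2) → Rn n := fun i => algebraMap (MvPolynomial (Fin n) ℂ) (Rn n) (G i) with hg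
  have hφg : ∀ P : MvPolynomial (Fin (n + 2)) ℂ, φ (aeval g P) = aeval (fun i => aeval u (G i)) P := by
    intro P
    rw [comp_aeval_apply]
    congr 2
    funext i
    exact hφ _
  have hφi : Function.Injective φ := φ.toRingHom.injective
  have hgG : ∀ P : MvPolynomial (Fin (n + 2)) ℂ, aeval g P =
      algebraMap (MvPolynomial (Fin n) ℂ) (Rn n) (aeval G P) := by
    intro P
    exact (comp_aeval_apply (φ := IsScalarTower.toAlgHom ℂ (MvPolynomial (Fin n) ℂ) (Rn n)) G P).symm
  have hinjR : Function.Injective (algebraMap (MvPolynomial (Fin n) ℂ) (Rn n)) :=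
    IsFractionRing.injective _ _
  have hdeg : ∀ i, (G i).totalDegree ≤ 3 := by
    intro i
    exact dehom_deg (H i) (hH i)
  have hfin := (final hn hF hsm hind G hdeg (by
    apply hinjR
    rw [← hgG, map_zero]
    apply hφi
    rw [hφg, map_zero]
    exact hGp'.1) (fun e P hP h0 => hGp'.2 e P hP (by
      rw [← hφg, hgG, h0, map_zero, map_zero]))).2
  change Even (finrank (ratioField g) (Rn n)) at hfin
  -- the tower
  let aR : Algebra (Rn n) M := φ.toRingHom.toAlgebra
  have haR : ∀ a : Rn n, algebraMap (Rn n) M a = φ a := fun _ => rfl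
  let aG : Algebra (ratioField g) M := (φ.toRingHom.comp (algebraMap (ratioField g) (Rn n))).toAlgebra
  have haG : ∀ a : ratioField g, algebraMap (ratioField g) M a = φ a := fun _ => rfl
  have tow : IsScalarTower (ratioField g) (Rn n) M := IsScalarTower.of_algebraMap_eq fun a => rfl
  have h1 := Module.finrank_mul_finrank (ratioField g) (Rn n) M
  have hmap : (ratioField g).map φ = ratioField (fun i => aeval u (G i)) := by
    unfold ratioField
    rw [IntermediateField.adjoin_map]
    congr 1
    ext z
    constructor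
    · rintro ⟨_, ⟨i, j, rfl⟩, rfl⟩
      exact ⟨i, j, by rw [map_div₀, hg]; simp only; rw [hφ, hφ]⟩
    · rintro ⟨i, j, rfl⟩
      refine ⟨_, ⟨i, j, rfl⟩, ?_⟩
      rw [map_div₀, hg]
      simp only
      rw [hφ, hφ]
  have h2 : finrank (ratioField g) M = finrank (ratioField x) M := by
    refine (Pool.Agent.Y201.LI.finrank_same (fun z => ?_)).2
    rw [hrat, ← hmap]
    constructor
    · rintro ⟨a, rfl⟩
      exact ⟨⟨φ a, ⟨a, a.2, rfl⟩⟩, rfl⟩
    · rintro ⟨⟨_, ⟨a, ha, rfl⟩⟩, rfl⟩
      exact ⟨⟨a, ha⟩, rfl⟩
  rw [← h2, ← h1]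
  exact hfin.mul_right _

/-- a nonzero coordinate can be moved to the first place, and variables can be added -/
theorem stable_low' (hn : 3 ≤ n) (hF : F.IsHomogeneous 3) (hsm : Sm F)
    (hind : AlgebraicIndependent ℚ
      (fun β : {β : Fin (n + 2) →₀ ℕ // β.degree = 3} => coeff β.1 F))
    {N : ℕ} (hN : N ≤ n + 1)
    (H : Fin (n + 2) → MvPolynomial (Fin N) ℂ) (hH : ∀ i, (H i).IsHomogeneous 3)
    (hFH : aeval H F = 0) (τ : Fin N → M)
    (hG : Gp F (fun i => aeval τ (H i))) :
    Even (finrank (ratioField fun i => aeval τ (H i)) M) := by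
  classical
  -- a nonzero coordinate
  have hτ : τ ≠ 0 := by
    rintro rfl
    have h1 := coord_ne_zero hF (by norm_num) _ hG.2 (0 : Fin (n + 2))
    apply h1
    have h2 := aeval_smul_form (hH 0) (0 : M) (0 : Fin N → M)
    have h3 : (fun i => (0 : M) * (0 : Fin N → M) i) = 0 := by
      funext i
      simp
    rw [h3] at h2
    rw [h2]
    simp
  obtain ⟨j, hj⟩ := Function.ne_iff.1 hτ
  rw [Pi.zero_apply] at hj
  let f : Fin N → Fin (n + 1) := Fin.castLE hN
  have hf : Function.Injective f := Fin.castLE_injective hN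
  let σ : Equiv.Perm (Fin (n + 1)) := Equiv.swap 0 (f j)
  let g : Fin N → Fin (n + 1) := fun i => σ (f i)
  have hg : Function.Injective g := σ.injective.comp hf
  have hgj : g j = 0 := Equiv.swap_apply_right _ _
  let τ' : Fin (n + 1) → M := fun l => if h : ∃ i, g i = l then τ h.choose else 0
  have hτg : ∀ i, τ' (g i) = τ i := by
    intro i
    have h : ∃ i', g i' = g i := ⟨i, rfl⟩
    have h1 : τ' (g i) = τ h.choose := dif_pos h
    rw [h1, hg h.choose_spec]
  have hev : ∀ P : MvPolynomial (Fin N) ℂ, aeval τ' (rename g P) = aeval τ P := by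
    intro P
    rw [aeval_rename]
    congr 2
    funext i
    exact hτg i
  have h1 := stable_low hn hF hsm hind (fun i => rename g (H i))
    (fun i => (hH i).rename_isHomogeneous) (by
      have h2 := comp_aeval_apply (f := H) (rename g : MvPolynomial (Fin N) ℂ →ₐ[ℂ] _) F
      rw [hFH, map_zero] at h2
      exact h2.symm) τ' (by rw [← hgj, hτg]; exact hj) (by simp only [hev]; exact hG)
  have h3 : (fun i => aeval τ' (rename g (H i))) = fun i => aeval τ (H i) :=
    funext fun i => hev _
  rw [h3] at h1
  exact h1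

theorem aeval_zero_form {N : ℕ} {P : MvPolynomial (Fin N) ℂ} (hP : P.IsHomogeneous 3) :
    aeval (0 : Fin N → M) P = 0 := by
  have h2 := aeval_smul_form hP (0 : M) (0 : Fin N → M)
  have h3 : (fun i => (0 : M) * (0 : Fin N → M) i) = 0 := by
    funext i
    simp
  rw [h3] at h2
  rw [h2]
  simp

/-- **Cubic forms in any number of variables.** -/
theorem stable_aux (hn : 3 ≤ n) (hF : F.IsHomogeneous 3) (hsm : Sm F)
    (hind : AlgebraicIndependent ℚ
      (fun β : {β : Fin (n + 2) →₀ ℕ // β.degree = 3} => coeff β.1 F)) :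
    ∀ (N : ℕ) (H : Fin (n + 2) → MvPolynomial (Fin N) ℂ), (∀ i, (H i).IsHomogeneous 3) →
      aeval H F = 0 → ∀ τ : Fin N → M, Gp F (fun i => aeval τ (H i)) →
      Even (finrank (ratioField fun i => aeval τ (H i)) M) := by
  classical
  intro N
  induction N with
  | zero =>
    intro H hH hFH τ hG
    exact stable_low' hn hF hsm hind (by omega) H hH hFH τ hG
  | succ N ih =>
    intro H hH hFH τ hG
    rcases Nat.lt_or_ge (n + 1) (N + 1) with hN | hN
    swap
    · exact stable_low' hn hF hsm hind hN H hH hFH τ hG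
    rw [← Nat.not_odd_iff_even]
    intro hodd
    have : CharZero M := charZero_of_injective_algebraMap (algebraMap ℂ M).injective
    have hF0 : F ≠ 0 := ne_zero_of_smooth (m := n + 1) hsm
    obtain ⟨b, hb0, hb⟩ := exists_base (by omega) hF hF0 H hH hFH
    choose T hT hTH using fun i => exists_tri (H i) (hH i)
    obtain rfl : H = fun i => Bg (T i) X X X := funext hTH
    have hbbb : ∀ i, Bg (T i) b b b = 0 := by
      intro i
      have h1 := hb i
      rw [← coe_aeval_eq_eval, RingHom.coe_coe, aeval_frmG] at h1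
      exact h1
    set b' : Fin (N + 1) → M := fun l => algebraMap ℂ M (b l) with hb'
    have hbbb' : ∀ i, Bg (T i) b' b' b' = 0 := by
      intro i
      have h4 := map_Bg (Algebra.ofId ℂ M) (T i) b b b
      rw [hbbb i, map_zero] at h4
      exact h4.symm
    set x : Fin (n + 2) → M := fun i => aeval τ (Bg (T i) X X X : MvPolynomial _ ℂ) with hx
    have hx0 : ∀ i, x i ≠ 0 := coord_ne_zero hF (by norm_num) x hG.2
    set α : Fin (n + 2) → M := fun i => 3 * Bg (T i) b' b' τ with hα
    set β : Fin (n + 2) → M := fun i => 3 * Bg (T i) b' τ τ with hβ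
    have hexp : ∀ (t : M) (i : Fin (n + 2)), aeval (fun l => t * b' l + τ l)
        (Bg (T i) X X X : MvPolynomial _ ℂ) = t ^ 2 * α i + t * β i + x i := by
      intro t i
      rw [con_taylor (hT i), hbbb', hα, hβ, hx]
      simp only
      rw [aeval_frmG]
      ring
    have hFc : ∀ t : M, aeval (fun i => t ^ 2 * α i + t * β i + x i) F = 0 := by
      intro t
      have h1 := congrArg (aeval (fun l => t * b' l + τ l)) hFH
      rw [map_zero, comp_aeval_apply] at h1
      rw [← h1]
      congr 2
      funext i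
      rw [hexp]
    -- the points `α` lie in a linear subspace
    set A : Fin (N + 1) → Fin (n + 2) → ℂ := fun l i =>
      eval b (pderiv l (Bg (T i) X X X : MvPolynomial (Fin (N + 1)) ℂ)) with hA
    have hAF : ∀ a : Fin (N + 1) → ℂ, eval (fun i => ∑ l, a l * A l i) F = 0 := by
      intro a
      rw [← con_one F hF T hT hFH b hbbb a]
      congr 2
      funext i
      exact con_A (hT i) b a
    have hαA : ∀ i, α i = ∑ l, τ l * algebraMap ℂ M (A l i) := by
      intro i
      rw [hA, con_A (hT i)]
    by_cases hα0 : α = 0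
    swap
    · have h1 : (fun i => ∑ l, τ l * algebraMap ℂ M (A l i)) = α := by
        funext i
        rw [hαA]
      refine proj_conic hn hF hsm hind A hAF x β hG hodd τ (by rw [h1]; exact hα0) fun t => ?_
      rw [← hFc t]
      congr 2
      funext i
      rw [hαA]
    have hα1 : ∀ i, α i = 0 := fun i => congrFun hα0 i
    have hFl : ∀ t : M, aeval (fun i => x i + t * β i) F = 0 := by
      intro t
      rw [← hFc t]
      congr 2
      funext i
      rw [hα1]
      ring
    have hodd2 : ¬ 2 ∣ finrank (ratioField x) M := fun h =>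
      (Nat.not_even_iff_odd.2 hodd) (even_iff_two_dvd.2 h)
    by_cases hli : LinearIndependent M ![x, β]
    · refine hodd2 (Pool.Agent.Y201.LI.contact (r := n + 1) hF (by norm_num) hsm x hG.1 hG.2 β
        hli 0 ?_)
      rw [Polynomial.C_0, zero_mul]
      apply Polynomial.funext
      intro t
      rw [eval_line, hFl, Polynomial.eval_zero]
    -- the lines through `b` are contracted
    obtain ⟨μ, hμ⟩ : ∃ μ : M, ∀ i, β i = μ * x i := by
      rw [LinearIndependent.pair_iff] at hli
      push Not at hli
      obtain ⟨u, v, huv, hne⟩ := hli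
      have hv : v ≠ 0 := by
        rintro rfl
        have hu : u ≠ 0 := fun hu => hne hu rfl
        have h1 := congrFun huv 0
        simp only [Pi.add_apply, Pi.smul_apply, smul_eq_mul, zero_mul, add_zero,
          Pi.zero_apply] at h1
        exact (mul_ne_zero hu (hx0 0)) h1
      refine ⟨-(u / v), fun i => ?_⟩
      have h1 := congrFun huv i
      simp only [Pi.add_apply, Pi.smul_apply, smul_eq_mul, Pi.zero_apply] at h1
      field_simp
      linear_combination h1
    obtain ⟨j0, hj0⟩ := Function.ne_iff.1 hb0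
    rw [Pi.zero_apply] at hj0
    have hb'0 : b' j0 ≠ 0 := by
      rw [hb']
      simp only
      rw [Ne, map_eq_zero]
      exact hj0
    -- a hyperplane
    obtain ⟨l, hlb, hlμ⟩ : ∃ l : Fin (N + 1) → ℂ, ∑ j, l j * b j = 1 ∧
        1 - μ * ∑ j, algebraMap ℂ M (l j) * τ j ≠ 0 := by
      by_contra hcon
      push Not at hcon
      set l0 : Fin (N + 1) → ℂ := Pi.single j0 (b j0)⁻¹ with hl0
      have h0 : ∑ j, l0 j * b j = 1 := by
        rw [hl0, Finset.sum_eq_single j0]
        · rw [Pi.single_eq_same, inv_mul_cancel₀ hj0]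
        · intro j _ hj
          rw [Pi.single_eq_of_ne hj, zero_mul]
        · intro h
          exact absurd (Finset.mem_univ _) h
      have h0τ : ∑ j, algebraMap ℂ M (l0 j) * τ j = (b' j0)⁻¹ * τ j0 := by
        rw [hl0, Finset.sum_eq_single j0]
        · rw [Pi.single_eq_same, map_inv₀]
        · intro j _ hj
          rw [Pi.single_eq_of_ne hj, map_zero, zero_mul]
        · intro h
          exact absurd (Finset.mem_univ _) h
      have e0 := hcon l0 h0
      rw [h0τ] at e0
      have hμ0 : μ ≠ 0 := by
        rintro rfl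
        rw [zero_mul, sub_zero] at e0
        exact one_ne_zero e0
      have hτb : ∀ j, τ j = (τ j0 / b' j0) * b' j := by
        intro j
        set l1 : Fin (N + 1) → ℂ := fun i => l0 i + ((Pi.single j 1 : Fin (N + 1) → ℂ) i -
          (b j / b j0) * (Pi.single j0 1 : Fin (N + 1) → ℂ) i) with hl1
        have hs1 : ∀ (j : Fin (N + 1)) (c : Fin (N + 1) → ℂ),
            ∑ i, (Pi.single j 1 : Fin (N + 1) → ℂ) i * c i = c j := by
          intro j c
          rw [Finset.sum_eq_single j]
          · rw [Pi.single_eq_same, one_mul]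
          · intro i _ hi
            rw [Pi.single_eq_of_ne hi, zero_mul]
          · intro h
            exact absurd (Finset.mem_univ _) h
        have hs2 : ∀ (j : Fin (N + 1)) (c : Fin (N + 1) → M),
            ∑ i, algebraMap ℂ M ((Pi.single j 1 : Fin (N + 1) → ℂ) i) * c i = c j := by
          intro j c
          rw [Finset.sum_eq_single j]
          · rw [Pi.single_eq_same, map_one, one_mul]
          · intro i _ hi
            rw [Pi.single_eq_of_ne hi, map_zero, zero_mul]
          · intro h
            exact absurd (Finset.mem_univ _) h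
        have e1 := hcon l1 (by
          have h1 : ∀ i, l1 i * b i = l0 i * b i + ((Pi.single j 1 : Fin (N + 1) → ℂ) i * b i -
              (b j / b j0) * ((Pi.single j0 1 : Fin (N + 1) → ℂ) i * b i)) := by
            intro i
            rw [hl1]
            ring
          rw [Finset.sum_congr rfl fun i _ => h1 i, Finset.sum_add_distrib,
            Finset.sum_sub_distrib, ← Finset.mul_sum, hs1, hs1, h0]
          field_simp
          ring)
        have h2 : ∑ i, algebraMap ℂ M (l1 i) * τ i = (b' j0)⁻¹ * τ j0 +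
            (τ j - (b' j / b' j0) * τ j0) := by
          have h1 : ∀ i, algebraMap ℂ M (l1 i) * τ i = algebraMap ℂ M (l0 i) * τ i +
              (algebraMap ℂ M ((Pi.single j 1 : Fin (N + 1) → ℂ) i) * τ i - (b' j / b' j0) *
                (algebraMap ℂ M ((Pi.single j0 1 : Fin (N + 1) → ℂ) i) * τ i)) := by
            intro i
            rw [hl1, hb']
            simp only [map_add, map_sub, map_mul, map_div₀]
            ring
          rw [Finset.sum_congr rfl fun i _ => h1 i, Finset.sum_add_distrib,
            Finset.sum_sub_distrib, ← Finset.mul_sum, hs2, hs2, h0τ]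
        rw [h2] at e1
        have e2 : μ * (τ j - (b' j / b' j0) * τ j0) = 0 := by linear_combination e0 - e1
        have e3 := (mul_eq_zero.1 e2).resolve_left hμ0
        rw [sub_eq_zero] at e3
        rw [e3]
        ring
      apply hx0 0
      have h1 : τ = fun j => (τ j0 / b' j0) * b' j := funext hτb
      have h2 : x 0 = (τ j0 / b' j0) ^ 3 * aeval b' (Bg (T 0) X X X : MvPolynomial _ ℂ) := by
        rw [hx]
        simp only
        conv_lhs => rw [h1]
        exact aeval_smul_form (hH 0) _ _
      rw [h2, aeval_frmG, hbbb', mul_zero]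
    set s : M := ∑ j, algebraMap ℂ M (l j) * τ j with hs
    set τ1 : Fin (N + 1) → M := fun j => -s * b' j + τ j with hτ1
    have hx1 : ∀ i, aeval τ1 (Bg (T i) X X X : MvPolynomial _ ℂ) = (1 - μ * s) * x i := by
      intro i
      rw [hτ1, hexp, hα1, hμ]
      ring
    have hlτ1 : ∑ j, algebraMap ℂ M (l j) * τ1 j = 0 := by
      have h1 : ∀ j, algebraMap ℂ M (l j) * τ1 j = -s * algebraMap ℂ M (l j * b j) +
          algebraMap ℂ M (l j) * τ j := by
        intro j
        rw [hτ1, hb', map_mul]
        ring
      rw [Finset.sum_congr rfl fun j _ => h1 j, Finset.sum_add_distrib, ← Finset.mul_sum,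
        ← map_sum, hlb, map_one, ← hs]
      ring
    obtain ⟨j1, hj1⟩ : ∃ j1, l j1 ≠ 0 := by
      by_contra hcon
      push Not at hcon
      rw [Finset.sum_eq_zero fun j _ => by rw [hcon j, zero_mul]] at hlb
      exact zero_ne_one hlb
    -- the substitution
    set sb : Fin (N + 1) → MvPolynomial (Fin N) ℂ := Fin.insertNth j1
      (∑ i, C (-(l (j1.succAbove i) / l j1)) * X i) X with hsb
    have hsb1 : sb j1 = ∑ i, C (-(l (j1.succAbove i) / l j1)) * X i := by
      rw [hsb, Fin.insertNth_apply_same]
    have hsb2 : ∀ i, sb (j1.succAbove i) = X i := by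
      intro i
      rw [hsb, Fin.insertNth_apply_succAbove]
    have hsbh : ∀ j, (sb j).IsHomogeneous 1 := by
      intro j
      by_cases hj : j = j1
      · rw [hj, hsb1]
        refine IsHomogeneous.sum _ _ _ fun i _ => ?_
        exact (isHomogeneous_X ℂ _).C_mul _
      · obtain ⟨i, rfl⟩ := Fin.exists_succAbove_eq hj
        rw [hsb2]
        exact isHomogeneous_X _ _
    set τ2 : Fin N → M := fun i => τ1 (j1.succAbove i) with hτ2
    have hsbτ : (fun j => aeval τ2 (sb j)) = τ1 := by
      funext j
      by_cases hj : j = j1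
      · rw [hj, hsb1, map_sum]
        rw [Fin.sum_univ_succAbove _ j1] at hlτ1
        have hl1 : algebraMap ℂ M (l j1) ≠ 0 := by
          rw [Ne, map_eq_zero]
          exact hj1
        have h1 : ∀ i, aeval τ2 (C (-(l (j1.succAbove i) / l j1)) * X i :
            MvPolynomial (Fin N) ℂ) = -(algebraMap ℂ M (l j1))⁻¹ *
              (algebraMap ℂ M (l (j1.succAbove i)) * τ1 (j1.succAbove i)) := by
          intro i
          rw [map_mul, aeval_C, aeval_X, hτ2, map_neg, map_div₀]
          ring
        rw [Finset.sum_congr rfl fun i _ => h1 i, ← Finset.mul_sum]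
        field_simp
        linear_combination -hlτ1
      · obtain ⟨i, rfl⟩ := Fin.exists_succAbove_eq hj
        rw [hsb2, aeval_X]
    have hev : ∀ P : MvPolynomial (Fin (N + 1)) ℂ, aeval τ2 (aeval sb P) = aeval τ1 P := by
      intro P
      rw [comp_aeval_apply, hsbτ]
    have hx2 : (fun i => aeval τ2 (aeval sb (Bg (T i) X X X : MvPolynomial _ ℂ))) =
        fun i => (1 - μ * s) * x i := by
      funext i
      rw [hev, hx1]
    obtain ⟨h1, h2⟩ := gscale hF x (1 - μ * s) hlμ hG hodd
    have h3 := ih (fun i => aeval sb (Bg (T i) X X X : MvPolynomial _ ℂ)) (fun i => by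
      have := (hH i).aeval sb (n := 1) hsbh
      simpa using this) (by
      have h4 := comp_aeval_apply (f := fun i => (Bg (T i) X X X : MvPolynomial (Fin (N + 1)) ℂ))
        (aeval sb) F
      rw [hFH, map_zero] at h4
      exact h4.symm) τ2 (by rw [hx2]; exact h1)
    rw [hx2] at h3
    exact (Nat.not_even_iff_odd.2 h2) h3

/-- **Cubic parametrizations with parameters in any number.** -/
theorem stable (hn : 3 ≤ n) (hF : F.IsHomogeneous 3) (hsm : Sm F)
    (hind : AlgebraicIndependent ℚ
      (fun β : {β : Fin (n + 2) →₀ ℕ // β.degree = 3} => coeff β.1 F))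
    {N : ℕ} (G : Fin (n + 2) → MvPolynomial (Fin N) ℂ) (hG : ∀ i, (G i).totalDegree ≤ 3)
    (hFG : aeval G F = 0) (τ : Fin N → M) (hGp : Gp F (fun i => aeval τ (G i))) :
    Even (finrank (ratioField fun i => aeval τ (G i)) M) := by
  choose H hH hHG using fun i => hom3 (G i) (hG i)
  have hev : ∀ i, aeval (Fin.cons 1 τ : Fin (N + 1) → M) (H i) = aeval τ (G i) := by
    intro i
    rw [← hHG i, comp_aeval_apply]
    congr 2
    funext l
    refine Fin.cases ?_ (fun l => ?_) l
    · rw [Fin.cons_zero, Fin.cons_zero, map_one]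
    · rw [Fin.cons_succ, Fin.cons_succ, aeval_X]
  have h1 := stable_aux hn hF hsm hind (M := M) (N + 1) H hH (by
    refine hom_zero (hF.aeval H hH) ?_
    rw [comp_aeval_apply, show (fun i => aeval (Fin.cons 1 X : Fin (N + 1) →
      MvPolynomial (Fin N) ℂ) (H i)) = G from funext hHG]
    exact hFG) (Fin.cons 1 τ) (by simp only [hev]; exact hGp)
  have h3 : (fun i => aeval (Fin.cons 1 τ : Fin (N + 1) → M) (H i)) = fun i => aeval τ (G i) :=
    funext fun i => hev _
  rw [h3] at h1
  exact h1

end

end Pool.Agent.K9h4
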