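import Mathlib
import Pool.Agent.K9h4.NF
import Pool.Agent.K9h4.Stab

/-! # Smooth cubic fourfolds have no parametrizations by polynomials of degree three -/

set_option autoImplicit false

namespace Pool.Agent.K9h4

open MvPolynomial Pool.Agent.TH314.PD Module Pool.Agent.Y201.C3 IntermediateField
open Pool.Agent.R845.T2 Pool.Agent.R845.E3 Pool.Agent.N122

noncomputable section

/-- a matrix whose minors of size three vanish has rank at most two -/
theorem rank_le_two {a b : ℕ} (M : Fin a → Fin b → ℂ)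
    (h : ∀ (r : Fin 3 → Fin a) (q : Fin 3 → Fin b),
      (Matrix.of fun i j => M (r i) (q j)).det = 0) :
    ∃ (d : ℕ) (B : Fin d → Fin a → ℂ) (C : Fin b → Fin d → ℂ), d ≤ 2 ∧
      ∀ i j, M i j = ∑ k, C j k * B k i := by
  classical
  let v : Fin b → Fin a → ℂ := fun j i => M i j
  obtain ⟨f, hf, hspan, hli⟩ := Submodule.exists_fun_fin_finrank_span_eq ℂ (Set.range v)
  choose q hq using hf
  have hd2 : finrank ℂ (Submodule.span ℂ (Set.range v)) ≤ 2 := by
    by_contra hcon
    push Not at hcon
    have h3 : 3 ≤ finrank ℂ (Submodule.span ℂ (Set.range v)) := hcon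
    let q3 : Fin 3 → Fin b := fun k => q (Fin.castLE h3 k)
    have hli3 : LinearIndependent ℂ (fun k : Fin 3 => v (q3 k)) := by
      have h1 : (fun k : Fin 3 => v (q3 k)) = f ∘ Fin.castLE h3 := by
        funext k
        exact hq _
      rw [h1]
      exact hli.comp _ (Fin.castLE_injective h3)
    let N : Matrix (Fin 3) (Fin a) ℂ := Matrix.of fun k => v (q3 k)
    have hrank : N.rank = 3 := by
      have h1 := LinearIndependent.rank_matrix (M := N) hli3
      rw [Fintype.card_fin] at h1
      exact h1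
    rw [Matrix.rank_eq_finrank_span_cols] at hrank
    obtain ⟨g, hg, -, hlig⟩ := Submodule.exists_fun_fin_finrank_span_eq ℂ (Set.range N.col)
    choose r hr using hg
    let r3 : Fin 3 → Fin a := fun k => r (Fin.cast hrank.symm k)
    have h4 : LinearIndependent ℂ (Matrix.of fun i j => M (r3 i) (q3 j)).row := by
      have h1 : (Matrix.of fun i j => M (r3 i) (q3 j)).row = g ∘ Fin.cast hrank.symm := by
        funext k
        rw [Function.comp_apply, ← hr]
        rfl
      rw [h1]
      exact hlig.comp _ (Fin.cast_injective _)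
    rw [Matrix.linearIndependent_rows_iff_isUnit, Matrix.isUnit_iff_isUnit_det, h r3 q3] at h4
    exact not_isUnit_zero h4
  have hC : ∀ j, ∃ c : Fin (finrank ℂ (Submodule.span ℂ (Set.range v))) → ℂ,
      ∑ k, c k • f k = v j := by
    intro j
    have h1 : v j ∈ Submodule.span ℂ (Set.range f) := by
      rw [hspan]
      exact Submodule.subset_span ⟨j, rfl⟩
    rwa [Submodule.mem_span_range_iff_exists_fun] at h1
  choose C hC using hC
  refine ⟨_, f, C, hd2, fun i j => ?_⟩
  have h1 := congrFun (hC j) i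
  rw [Finset.sum_apply] at h1
  exact h1.symm

/-- the ratios of a dominant map kill no derivation -/
theorem der_zero {M : Type} [Field M] [Algebra ℂ M] {m : ℕ} (x : Fin m → M)
    (htop : ratioField x = ⊤) (D : Derivation ℂ M M) (ν : M)
    (hD : ∀ i, D (x i) = ν * x i) (z : M) : D z = 0 := by
  have hz : z ∈ ratioField x := by rw [htop]; trivial
  unfold ratioField at hz
  induction hz using IntermediateField.adjoin_induction with
  | mem z hz =>
    obtain ⟨i, j, rfl⟩ := hz
    rw [Derivation.leibniz_div, hD, hD, smul_eq_mul, smul_eq_mul, smul_eq_mul]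
    ring
  | algebraMap a => exact D.map_algebraMap a
  | add z w _ _ ihz ihw => rw [map_add, ihz, ihw, add_zero]
  | inv z _ ih => rw [Derivation.leibniz_inv, ih, smul_zero]
  | mul z w _ _ ihz ihw => rw [Derivation.leibniz, ihz, ihw, smul_zero, smul_zero, add_zero]

/-- **No birational cubic parametrization.** -/
theorem no_bir {M : Type} [Field M] [Algebra ℂ M] [Algebra (MvPolynomial (Fin 4) ℂ) M]
    [IsScalarTower ℂ (MvPolynomial (Fin 4) ℂ) M] [IsFractionRing (MvPolynomial (Fin 4) ℂ) M]
    {F : MvPolynomial (Fin 6) ℂ} (hF : F.IsHomogeneous 3) (hsm : Sm F)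
    (H : Fin 6 → MvPolynomial (Fin 5) ℂ) (hH : ∀ i, (H i).IsHomogeneous 3) (hHF : aeval H F = 0)
    (τ : Fin 5 → M)
    (hτ : τ = fun l => algebraMap (MvPolynomial (Fin 4) ℂ) M
      ((Fin.cons 1 X : Fin 5 → MvPolynomial (Fin 4) ℂ) l))
    (hG : Gp F (fun i => aeval τ (H i)))
    (htop : ratioField (fun i => aeval τ (H i)) = ⊤) : False := by
  classical
  have : CharZero M := charZero_of_injective_algebraMap (algebraMap ℂ M).injective
  set x : Fin 6 → M := fun i => aeval τ (H i) with hx
  have hF0 : F ≠ 0 := ne_zero_of_smooth (m := 5) hsm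
  have hx0 : ∀ i, x i ≠ 0 := coord_ne_zero hF (by norm_num) x hG.2
  -- the inverse
  have hform : ∀ l, ∃ (D : ℕ) (A B : MvPolynomial (Fin 6) ℂ), A.IsHomogeneous D ∧
      B.IsHomogeneous D ∧ aeval x B ≠ 0 ∧ aeval x A = aeval x B * τ l := fun l =>
    Pool.Agent.R845.T2.FI.exists_form x (τ l) (by rw [htop]; trivial)
  choose D A B hA hB hBx hAB using hform
  set e : ℕ := ∑ l, D l with he
  set lam : M := ∏ l, aeval x (B l) with hlam
  have hlam0 : lam ≠ 0 := Finset.prod_ne_zero_iff.2 fun l _ => hBx l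
  let P : Fin 5 → MvPolynomial (Fin 6) ℂ := fun l => A l * ∏ j ∈ Finset.univ.erase l, B j
  have hP : ∀ l, (P l).IsHomogeneous e := by
    intro l
    have h1 : (∏ j ∈ Finset.univ.erase l, B j).IsHomogeneous (∑ j ∈ Finset.univ.erase l, D j) :=
      IsHomogeneous.prod _ _ _ fun j _ => hB j
    have h2 := (hA l).mul h1
    rw [Finset.add_sum_erase _ _ (Finset.mem_univ l)] at h2
    exact h2
  have hPx : ∀ l, aeval x (P l) = lam * τ l := by
    intro l
    rw [map_mul, hAB, map_prod, hlam, ← Finset.mul_prod_erase _ _ (Finset.mem_univ l)]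
    ring
  have hPHx : ∀ i, aeval x (aeval P (H i)) = lam ^ 3 * x i := by
    intro i
    rw [comp_aeval_apply, show (fun l => aeval x (P l)) = fun l => lam * τ l from funext hPx,
      aeval_smul_form (hH i)]
  obtain ⟨b, hb0, hb, hmin⟩ := base_rank_two hF hsm H hH hHF e P hP (by
    intro i j
    have h1 : (aeval P (H i) * X j - aeval P (H j) * X i).IsHomogeneous (e * 3 + 1) :=
      (((hH i).aeval P hP).mul (isHomogeneous_X _ _)).sub
        (((hH j).aeval P hP).mul (isHomogeneous_X _ _))
    refine hG.2 _ _ h1 ?_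
    rw [map_sub, map_mul, map_mul, aeval_X, aeval_X, hPHx, hPHx]
    ring) (by
    rintro ⟨Q, hQ⟩
    have h1 := congrArg (aeval x) hQ
    rw [map_mul, hG.1, zero_mul, hPHx] at h1
    exact mul_ne_zero (pow_ne_zero _ hlam0) (hx0 0) h1)
  choose T hT hTH using fun i => exists_tri (H i) (hH i)
  obtain rfl : H = fun i => Bg (T i) X X X := funext hTH
  have hbbb : ∀ i, Bg (T i) b b b = 0 := by
    intro i
    have h1 := hb i
    rw [← coe_aeval_eq_eval, RingHom.coe_coe, aeval_frmG] at h1
    exact h1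
  set b' : Fin 5 → M := fun l => algebraMap ℂ M (b l) with hb'
  have hbbb' : ∀ i, Bg (T i) b' b' b' = 0 := by
    intro i
    have h4 := map_Bg (Algebra.ofId ℂ M) (T i) b b b
    rw [hbbb i, map_zero] at h4
    exact h4.symm
  set α : Fin 6 → M := fun i => 3 * Bg (T i) b' b' τ with hα
  set β : Fin 6 → M := fun i => 3 * Bg (T i) b' τ τ with hβ
  have hexp : ∀ (t : M) (i : Fin 6), aeval (fun l => t * b' l + τ l)
      (Bg (T i) X X X : MvPolynomial _ ℂ) = t ^ 2 * α i + t * β i + x i := by
    intro t i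
    rw [con_taylor (hT i), hbbb', hα, hβ, hx]
    simp only
    rw [aeval_frmG]
    ring
  have hFc : ∀ t : M, aeval (fun i => t ^ 2 * α i + t * β i + x i) F = 0 := by
    intro t
    have h1 := congrArg (aeval (fun l => t * b' l + τ l)) hHF
    rw [map_zero, comp_aeval_apply] at h1
    rw [← h1]
    congr 2
    funext i
    rw [hexp]
  set A' : Fin 5 → Fin 6 → ℂ := fun l i =>
    eval b (pderiv l (Bg (T i) X X X : MvPolynomial (Fin 5) ℂ)) with hA'
  have hAF : ∀ a : Fin 5 → ℂ, eval (fun i => ∑ l, a l * A' l i) F = 0 := by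
    intro a
    rw [← con_one F hF T hT hHF b hbbb a]
    congr 2
    funext i
    exact con_A (hT i) b a
  have hαA : ∀ i, α i = ∑ l, τ l * algebraMap ℂ M (A' l i) := by
    intro i
    rw [hA', con_A (hT i)]
  have hodd : Odd (finrank (ratioField x) M) := by
    rw [htop, IntermediateField.finrank_top]
    exact odd_one
  by_cases hα0 : α = 0
  swap
  · obtain ⟨d, V, C, hd, hV⟩ := rank_le_two (fun i l => A' l i) (fun r q => hmin r q)
    set w : Fin d → M := fun k => ∑ l, τ l * algebraMap ℂ M (C l k) with hw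
    have hαV : α = fun i => ∑ k, w k * algebraMap ℂ M (V k i) := by
      funext i
      rw [hαA]
      simp only [hV, map_sum, map_mul, hw, Finset.mul_sum, Finset.sum_mul]
      rw [Finset.sum_comm]
      refine Finset.sum_congr rfl fun k _ => Finset.sum_congr rfl fun l _ => ?_
      ring
    obtain ⟨bb, hbb0, hbb⟩ := exists_hyper hF0 A' hAF
    have hbc := rel_sum (M := M) A' bb hbb τ
    have hbc' : ∑ i, algebraMap ℂ M (bb i) * α i = 0 := by
      rw [← hbc]
      exact Finset.sum_congr rfl fun i _ => by rw [hαA]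
    have haF : aeval α F = 0 := by
      rw [show α = fun i => ∑ l, τ l * algebraMap ℂ M (A' l i) from funext hαA]
      exact span_aeval A' hAF τ
    refine conic_of hF hsm x α β hG hodd (indep' hF x α hG hα0 bb hbb0 hbc')
      (fun h => hbb0 (gen_li hF α h.2 bb hbc')) haF ?_ hFc
    rintro ⟨hz, hzodd⟩
    refine no_special hF hsm x α hG.1 haF ?_ hz hzodd
    rw [hαV]
    have h1 := size_span V w
    have h2 : d + d * (d + 1) / 2 ≤ 5 := by
      interval_cases d <;> norm_num
    omega
  have hα1 : ∀ i, α i = 0 := fun i => congrFun hα0 i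
  have hFl : ∀ t : M, aeval (fun i => x i + t * β i) F = 0 := by
    intro t
    rw [← hFc t]
    congr 2
    funext i
    rw [hα1]
    ring
  have hodd2 : ¬ 2 ∣ finrank (ratioField x) M := fun h =>
    (Nat.not_even_iff_odd.2 hodd) (even_iff_two_dvd.2 h)
  by_cases hli : LinearIndependent M ![x, β]
  · refine hodd2 (Pool.Agent.Y201.LI.contact (r := 5) hF (by norm_num) hsm x hG.1 hG.2 β
      hli 0 ?_)
    rw [Polynomial.C_0, zero_mul]
    apply Polynomial.funext
    intro t
    rw [eval_line, hFl, Polynomial.eval_zero]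
  -- the lines through `b` are contracted
  obtain ⟨μ, hμ⟩ : ∃ μ : M, ∀ i, β i = μ * x i := by
    rw [LinearIndependent.pair_iff] at hli
    push Not at hli
    obtain ⟨u, v, huv, hne⟩ := hli
    have hv : v ≠ 0 := by
      rintro rfl
      have hu : u ≠ 0 := fun hu => hne hu rfl
      have h1 := congrFun huv 0
      simp only [Pi.add_apply, Pi.smul_apply, smul_eq_mul, zero_mul, add_zero,
        Pi.zero_apply] at h1
      exact (mul_ne_zero hu (hx0 0)) h1
    refine ⟨-(u / v), fun i => ?_⟩
    have h1 := congrFun huv i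
    simp only [Pi.add_apply, Pi.smul_apply, smul_eq_mul, Pi.zero_apply] at h1
    have h2 : v * β i = -(u * x i) := by linear_combination h1
    rw [← mul_right_inj' hv, h2, ← mul_assoc, mul_neg, mul_div_cancel₀ _ hv]
    ring
  -- a derivation which kills everything
  obtain ⟨Dr, hDr⟩ := exists_ext (A := MvPolynomial (Fin 4) ℂ) (K := M)
    (mkDerivation ℂ (fun l : Fin 4 => (C (b l.succ) - C (b 0) * X l : MvPolynomial (Fin 4) ℂ)))
  have hCa : ∀ a : ℂ, algebraMap (MvPolynomial (Fin 4) ℂ) M (C a) = algebraMap ℂ M a := fun a =>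
    (IsScalarTower.algebraMap_apply ℂ (MvPolynomial (Fin 4) ℂ) M a).symm
  have hDτ : ∀ l, Dr (τ l) = b' l - b' 0 * τ l := by
    intro l
    rw [hτ]
    simp only
    refine Fin.cases ?_ (fun l => ?_) l
    · rw [Fin.cons_zero, map_one, Derivation.map_one_eq_zero, mul_one, sub_self]
    · rw [Fin.cons_succ, hDr, mkDerivation_X, map_sub, map_mul, hCa, hCa]
  have hDx : ∀ i, Dr (x i) = (μ - 3 * b' 0) * x i := by
    intro i
    have h1 := chain_rule Dr τ (Bg (T i) X X X : MvPolynomial (Fin 5) ℂ)
    have h2 : ∑ l, aeval τ (pderiv l (Bg (T i) X X X : MvPolynomial (Fin 5) ℂ)) * b' l = β i := by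
      rw [hβ]
      simp only
      have h3 : b' = fun j => ∑ l, b' l * (if j = l then 1 else 0) := by
        funext j
        rw [Finset.sum_eq_single j]
        · rw [if_pos rfl, mul_one]
        · intro l _ hl
          rw [if_neg (Ne.symm hl), mul_zero]
        · intro h
          exact absurd (Finset.mem_univ _) h
      conv_rhs => rw [h3]
      rw [Bg_sum1, Finset.mul_sum]
      refine Finset.sum_congr rfl fun l _ => ?_
      rw [pderiv_frmG (hT i), Bg_smul1]
      ring
    have h3 : ∑ l, aeval τ (pderiv l (Bg (T i) X X X : MvPolynomial (Fin 5) ℂ)) * τ l =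
        3 * x i := by
      have h4 := congrArg (aeval τ) (hH i).sum_X_mul_pderiv
      rw [map_sum, map_nsmul] at h4
      simp only [map_mul, aeval_X] at h4
      rw [nsmul_eq_mul] at h4
      push_cast at h4
      rw [hx]
      simp only
      rw [← h4]
      exact Finset.sum_congr rfl fun l _ => mul_comm _ _
    rw [hx]
    simp only
    rw [h1]
    have h5 : ∀ l, aeval τ (pderiv l (Bg (T i) X X X : MvPolynomial (Fin 5) ℂ)) * Dr (τ l) =
        aeval τ (pderiv l (Bg (T i) X X X : MvPolynomial (Fin 5) ℂ)) * b' l -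
          b' 0 * (aeval τ (pderiv l (Bg (T i) X X X : MvPolynomial (Fin 5) ℂ)) * τ l) := by
      intro l
      rw [hDτ]
      ring
    rw [Finset.sum_congr rfl fun l _ => h5 l, Finset.sum_sub_distrib, ← Finset.mul_sum, h2, h3,
      hμ]
    ring
  have hzero := fun z => der_zero x htop Dr _ hDx z
  have hbτ : ∀ l, b' l = b' 0 * τ l := by
    intro l
    have h1 := hDτ l
    rw [hzero, eq_comm, sub_eq_zero] at h1
    exact h1
  have hb'0 : b' 0 = 0 := by
    by_contra hne
    have h1 := hbτ 1
    have h2 : τ 1 = algebraMap (MvPolynomial (Fin 4) ℂ) M (X 0) := by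
      rw [hτ]
      rfl
    have h3 : algebraMap (MvPolynomial (Fin 4) ℂ) M (C (b 1)) =
        algebraMap (MvPolynomial (Fin 4) ℂ) M (C (b 0) * X 0) := by
      rw [map_mul, ← h2, hCa, hCa]
      exact h1
    have h4 := IsFractionRing.injective (MvPolynomial (Fin 4) ℂ) M h3
    have h5 : b 0 ≠ 0 := fun h => hne (by rw [hb']; simp only; rw [h, map_zero])
    have h6 := congrArg (eval (fun _ => (b 1 + 1) / b 0)) h4
    rw [eval_C, map_mul, eval_C, eval_X, mul_div_cancel₀ _ h5] at h6
    exact one_ne_zero (α := ℂ) (by linear_combination -h6)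
  apply hb0
  funext l
  have h1 := hbτ l
  rw [hb'0, zero_mul, hb'] at h1
  simp only at h1
  rwa [map_eq_zero] at h1

/-- **Smooth cubic fourfolds are not dominated by affine spaces through polynomials of degree
three.** -/
theorem no_dominant {F : MvPolynomial (Fin 6) ℂ} (hF : F.IsHomogeneous 3)
    (hsm : ∀ z : Fin 6 → ℂ, (∀ i, eval z (pderiv i F) = 0) → z = 0) {N : ℕ}
    (G : Fin 6 → MvPolynomial (Fin N) ℂ) (hG : ∀ i, (G i).totalDegree ≤ 3)
    (hFG : aeval G F = 0)
    (hdom : ∀ e (H : MvPolynomial (Fin 6) ℂ), H.IsHomogeneous e → aeval G H = 0 → F ∣ H) :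
    False := by
  have hF0 : F ≠ 0 := ne_zero_of_smooth (m := 5) hsm
  obtain ⟨c, A, h1, h2⟩ := restrict_exists (n := 4) (by norm_num) hF hF0 G hFG hdom
  set G' : Fin 6 → MvPolynomial (Fin 4) ℂ := fun i => aeval (sub c A) (G i) with hG'
  have hG'd : ∀ i, (G' i).totalDegree ≤ 3 := fun i => aeval_sub_deg c A (G i) (hG i)
  obtain ⟨hfin, hb⟩ := bound (n := 4) (k := 3) (by norm_num) F hF hsm G' hG'd h1 h2
  let al : MvPolynomial (Fin 4) ℂ →ₐ[ℂ] Rn 4 := IsScalarTower.toAlgHom ℂ _ _
  have hal : Function.Injective al := IsFractionRing.injective (MvPolynomial (Fin 4) ℂ) _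
  have halG : ∀ P : MvPolynomial (Fin 6) ℂ,
      aeval (fun i => algebraMap (MvPolynomial (Fin 4) ℂ) (Rn 4) (G' i)) P = al (aeval G' P) := by
    intro P
    rw [comp_aeval_apply]
    rfl
  choose H hH hHG using fun i => hom3 (G' i) (hG'd i)
  have hHF : aeval H F = 0 := by
    refine hom_zero (hF.aeval H hH) ?_
    rw [comp_aeval_apply, show (fun i => aeval (Fin.cons 1 X : Fin 5 →
      MvPolynomial (Fin 4) ℂ) (H i)) = G' from funext hHG]
    exact h1
  let τ : Fin 5 → Rn 4 := fun l => algebraMap (MvPolynomial (Fin 4) ℂ) (Rn 4)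
    ((Fin.cons 1 X : Fin 5 → MvPolynomial (Fin 4) ℂ) l)
  have hx : (fun i => aeval τ (H i)) =
      fun i => algebraMap (MvPolynomial (Fin 4) ℂ) (Rn 4) (G' i) := by
    funext i
    rw [← hHG i]
    exact (comp_aeval_apply (f := (Fin.cons 1 X : Fin 5 → MvPolynomial (Fin 4) ℂ)) al (H i)).symm
  refine no_bir hF hsm H hH hHF τ rfl ?_ ?_
  · rw [hx]
    refine ⟨by rw [halG, h1, map_zero], fun e P hP h0 => h2 e P hP (hal ?_)⟩
    rw [← halG, h0, map_zero]
  · rw [hx]
    have h3 : finrank (ratioField fun i => algebraMap (MvPolynomial (Fin 4) ℂ) (Rn 4) (G' i))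
        (Rn 4) = 1 := by
      have h4 : 0 < finrank (ratioField fun i => algebraMap (MvPolynomial (Fin 4) ℂ) (Rn 4) (G' i))
        (Rn 4) := Module.finrank_pos
      have h5 : finrank (ratioField fun i => algebraMap (MvPolynomial (Fin 4) ℂ) (Rn 4) (G' i))
        (Rn 4) * (3 * 2 ^ 4) ≤ 5 * 2 ^ 4 := hb
      omega
    exact IntermediateField.finrank_eq_one_iff_eq_top.1 h3

end

end Pool.Agent.K9h4
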