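import Mathlib
import Pool.Agent.K9h4.Curve

/-! # Quadratic families with a point of a curve -/

set_option autoImplicit false

namespace Pool.Agent.K9h4

open MvPolynomial Pool.Agent.TH314.PD Module Pool.Agent.Y201.C3 IntermediateField
open Pool.Agent.R845.T2 Pool.Agent.R845.E3 Pool.Agent.N122

noncomputable section

/-- a quadratic form on a line -/
theorem quad_line {I R : Type} [CommRing R] (q : MvPolynomial I R) (hq : q.IsHomogeneous 2)
    (u v : I → R) : ∃ β : R, ∀ t : R, eval (fun l => t * u l + v l) q =
      t ^ 2 * eval u q + t * β + eval v q := by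
  have hlin : ∀ l ∈ homogeneousSubmodule I R 1, ∀ t : R, eval (fun l => t * u l + v l) l =
      t * eval u l + eval v l := by
    intro l hl
    rw [homogeneousSubmodule_one_eq_span_X] at hl
    induction hl using Submodule.span_induction with
    | mem x hx =>
      obtain ⟨i, rfl⟩ := hx
      intro t
      simp
    | zero =>
      intro t
      simp
    | add a b _ _ ha hb =>
      intro t
      rw [map_add, map_add, map_add, ha, hb]
      ring
    | smul c a _ ha =>
      intro t
      rw [smul_eval, smul_eval, smul_eval, ha]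
      ring
  have h1 : q ∈ homogeneousSubmodule I R 1 * homogeneousSubmodule I R 1 := by
    rw [← pow_two, homogeneousSubmodule_one_pow]
    exact hq
  refine Submodule.mul_induction_on (C := fun q => ∃ β : R, ∀ t : R,
    eval (fun l => t * u l + v l) q = t ^ 2 * eval u q + t * β + eval v q) h1 ?_ ?_
  · intro a ha b hb
    refine ⟨eval u a * eval v b + eval v a * eval u b, fun t => ?_⟩
    rw [map_mul, map_mul, map_mul, hlin a ha, hlin b hb]
    ring
  · rintro a b ⟨β, hβ⟩ ⟨γ, hγ⟩
    refine ⟨β + γ, fun t => ?_⟩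
    rw [map_add, map_add, map_add, hβ, hγ]
    ring

theorem eval_smul_form {σ R : Type} [CommRing R] {H : MvPolynomial σ R} {m : ℕ}
    (hH : H.IsHomogeneous m) (a : R) (x : σ → R) :
    eval (fun i => a * x i) H = a ^ m * eval x H := by
  rw [eval_eq, eval_eq, Finset.mul_sum]
  refine Finset.sum_congr rfl fun α hα => ?_
  have h1 := hH.degree_eq_sum_deg_support hα
  simp only [mul_pow]
  rw [Finset.prod_mul_distrib, Finset.prod_pow_eq_pow_sum]
  have h2 : ∑ i ∈ α.support, α i = m := h1.symm
  rw [h2]
  ring

/-- homogenization of a quadratic polynomial -/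
theorem hom2 {N : ℕ} {R : Type} [CommRing R] (q : MvPolynomial (Fin N) R)
    (hq : q.totalDegree ≤ 2) : ∃ H : MvPolynomial (Fin (N + 1)) R, H.IsHomogeneous 2 ∧
      ∀ (a : R) (y : Fin N → R), eval (Fin.cons a fun i => a * y i) H = a ^ 2 * eval y q := by
  classical
  refine ⟨∑ k ∈ Finset.range 3, X 0 ^ (2 - k) * rename Fin.succ (homogeneousComponent k q),
    ?_, ?_⟩
  · refine IsHomogeneous.sum _ _ _ fun k hk => ?_
    have h1 : k ≤ 2 := Nat.lt_succ_iff.1 (Finset.mem_range.1 hk)
    have h2 := ((isHomogeneous_X R (0 : Fin (N + 1))).pow (2 - k)).mul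
      ((homogeneousComponent_isHomogeneous k q).rename_isHomogeneous (f := Fin.succ))
    have h3 : 1 * (2 - k) + k = 2 := by omega
    rwa [h3] at h2
  · intro a y
    have h1 : q = ∑ k ∈ Finset.range 3, homogeneousComponent k q := by
      conv_lhs => rw [← sum_homogeneousComponent q]
      refine Finset.sum_subset (Finset.range_mono (by omega)) fun k _ hk => ?_
      refine homogeneousComponent_eq_zero _ _ ?_
      rw [Finset.mem_range] at hk
      omega
    rw [map_sum]
    conv_rhs => rw [h1]
    rw [map_sum, Finset.mul_sum]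
    refine Finset.sum_congr rfl fun k hk => ?_
    have h2 : k ≤ 2 := Nat.lt_succ_iff.1 (Finset.mem_range.1 hk)
    rw [map_mul, map_pow, eval_X, Fin.cons_zero, eval_rename]
    have h3 : (Fin.cons a fun i => a * y i : Fin (N + 1) → R) ∘ Fin.succ = fun i => a * y i := by
      funext i
      rfl
    rw [h3]
    have h4 : eval (fun i => a * y i) (homogeneousComponent k q) =
        a ^ k * eval y (homogeneousComponent k q) :=
      eval_smul_form (homogeneousComponent_isHomogeneous k q) a y
    rw [h4, ← mul_assoc, ← pow_add, Nat.sub_add_cancel h2]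

theorem aeval_eval {N n : ℕ} {M : Type} [Field M] [Algebra ℂ M]
    (H : Fin (n + 2) → MvPolynomial (Fin N) M) (y : Fin N → M) (P : MvPolynomial (Fin (n + 2)) ℂ) :
    eval y (aeval H P) = aeval (fun i => eval y (H i)) P := by
  induction P using MvPolynomial.induction_on with
  | C a =>
    rw [aeval_C, aeval_C, IsScalarTower.algebraMap_apply ℂ M (MvPolynomial (Fin N) M)]
    exact eval_C _
  | add p q hp hq => rw [map_add, map_add, map_add, hp, hq]
  | mul_X p j hp => rw [map_mul, map_mul, map_mul, hp, aeval_X, aeval_X]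

variable {n : ℕ} {F : MvPolynomial (Fin (n + 2)) ℂ} {M : Type} [Field M] [Algebra ℂ M]

/-- **Quadratic families with a point of a curve.** -/
theorem quad_family (hn : 4 ≤ n) (hF : F.IsHomogeneous 3) (hsm : Sm F)
    (hplane : n = 4 → ∀ A : Fin 3 → Fin (n + 2) → ℂ, LinearIndependent ℂ A →
      ¬ ∀ a : Fin 3 → ℂ, eval (fun i => ∑ l, a l * A l i) F = 0)
    {N : ℕ} (Q : Fin (n + 2) → MvPolynomial (Fin N) M) (hQ : ∀ i, (Q i).totalDegree ≤ 2)
    (hQF : aeval Q F = 0) (u v : Fin N → M) (hu : (fun i => eval u (Q i)) ≠ 0)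
    (htr : Algebra.trdeg ℂ (ratioField fun i => eval u (Q i)) ≤ 1)
    (hG : Gp F fun i => eval v (Q i)) (hodd : Odd (finrank (ratioField fun i => eval v (Q i)) M)) :
    False := by
  classical
  have : Infinite M := Infinite.of_injective _ (algebraMap ℂ M).injective
  choose H hH hHQ using fun i => hom2 (Q i) (hQ i)
  -- the homogeneous polynomials give points of the cubic
  have hHF : aeval H F = 0 := by
    have h1 : X 0 * aeval H F = 0 := by
      apply MvPolynomial.funext
      intro y
      rw [map_mul, eval_X, map_zero, aeval_eval]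
      by_cases hy : y 0 = 0
      · rw [hy, zero_mul]
      · have h2 : y = Fin.cons (y 0) fun i => y 0 * (y i.succ / y 0) := by
          funext l
          refine Fin.cases ?_ (fun l => ?_) l
          · rw [Fin.cons_zero]
          · rw [Fin.cons_succ, mul_div_cancel₀ _ hy]
        have h3 : (fun i => eval y (H i)) = fun i => y 0 ^ 2 *
            eval (fun i : Fin N => y i.succ / y 0) (Q i) := by
          funext i
          conv_lhs => rw [h2]
          exact hHQ i _ _
        rw [h3, aeval_smul_form hF, ← aeval_eval, hQF, map_zero, mul_zero, mul_zero]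
    exact (mul_eq_zero.1 h1).resolve_left (X_ne_zero _)
  have hev : ∀ (w : Fin N → M) i, eval (Fin.cons 1 w) (H i) = eval w (Q i) := by
    intro w i
    have h1 := hHQ i 1 w
    simp only [one_mul, one_pow] at h1
    exact h1
  choose β hβ using fun i => quad_line (H i) (hH i) (Fin.cons 1 u) (Fin.cons 1 v)
  refine curve_conic hn hF hsm hplane (fun i => eval v (Q i)) (fun i => eval u (Q i)) β hG hodd hu
    htr fun t => ?_
  have h1 := congrArg (eval (fun l => t * (Fin.cons 1 u : Fin (N + 1) → M) l +
    (Fin.cons 1 v : Fin (N + 1) → M) l)) hHF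
  rw [aeval_eval, map_zero] at h1
  rw [← h1]
  congr 2
  funext i
  rw [hβ, hev, hev]

/-- **Quadratic families over curves.** -/
theorem quad_curve (hn : 4 ≤ n) (hF : F.IsHomogeneous 3) (hsm : Sm F)
    (hplane : n = 4 → ∀ A : Fin 3 → Fin (n + 2) → ℂ, LinearIndependent ℂ A →
      ¬ ∀ a : Fin 3 → ℂ, eval (fun i => ∑ l, a l * A l i) F = 0)
    (L : IntermediateField ℂ M) (hL : Algebra.trdeg ℂ L ≤ 1)
    {N : ℕ} (Q : Fin (n + 2) → MvPolynomial (Fin N) L) (hQ : ∀ i, (Q i).totalDegree ≤ 2)
    (hQF : aeval Q F = 0) (v : Fin N → M)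
    (hG : Gp F fun i => aeval v (Q i)) (hodd : Odd (finrank (ratioField fun i => aeval v (Q i)) M)) :
    False := by
  classical
  have : Infinite L := Infinite.of_injective _ (algebraMap ℂ L).injective
  have hx0 : aeval v (Q 0) ≠ 0 := coord_ne_zero hF (by norm_num) _ hG.2 (0 : Fin (n + 2))
  have hQ0 : Q 0 ≠ 0 := by
    intro h
    exact hx0 (by rw [h, map_zero])
  obtain ⟨u, hu⟩ : ∃ u : Fin N → L, eval u (Q 0) ≠ 0 := by
    by_contra hcon
    push Not at hcon
    exact hQ0 (MvPolynomial.funext fun y => by rw [hcon y, map_zero])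
  have hv : ∀ i, eval v (map (algebraMap L M) (Q i)) = aeval v (Q i) := by
    intro i
    rw [eval_map, aeval_def]
  have hu' : ∀ i, eval (fun l => algebraMap L M (u l)) (map (algebraMap L M) (Q i)) =
      algebraMap L M (eval u (Q i)) := by
    intro i
    rw [eval_map]
    exact (eval₂_comp (algebraMap L M) u (Q i)).symm
  have hle : ratioField (fun i => eval (fun l => algebraMap L M (u l))
      (map (algebraMap L M) (Q i))) ≤ L := by
    unfold ratioField
    rw [adjoin_le_iff]
    rintro _ ⟨i, j, rfl⟩
    simp only [hu', ← map_div₀]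
    exact (eval u (Q i) / eval u (Q j)).2
  refine quad_family hn hF hsm hplane (fun i => map (algebraMap L M) (Q i))
    (fun i => (Finset.sup_mono (support_map_subset _ _)).trans (hQ i)) ?_ (fun l => algebraMap L M (u l)) v ?_ ?_ ?_ ?_
  · have h1 := comp_aeval_apply (f := Q) (mapAlgHom (IsScalarTower.toAlgHom ℂ L M) :
      MvPolynomial (Fin N) L →ₐ[ℂ] MvPolynomial (Fin N) M) F
    rw [hQF, map_zero] at h1
    exact h1.symm
  · intro h
    have h1 := congrFun h 0
    rw [hu', Pi.zero_apply, map_eq_zero] at h1
    exact hu h1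
  · exact (trdeg_le_of_injective (inclusion hle) (inclusion hle).injective).trans hL
  · have h1 : (fun i => eval v (map (algebraMap L M) (Q i))) = fun i => aeval v (Q i) :=
      funext hv
    rw [h1]
    exact hG
  · have h1 : (fun i => eval v (map (algebraMap L M) (Q i))) = fun i => aeval v (Q i) :=
      funext hv
    rw [h1]
    exact hodd

end

end Pool.Agent.K9h4
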